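import Pool.Agent.Lib.MZ.Blue
import Pool.Agent.Lib.IT.PL
import Pool.Agent.Lib.IT.RG1
import Pool.Agent.Lib.IT.RG2
import Pool.Agent.Lib.IT.SW
import Pool.Agent.Lib.IT.RLC
import Pool.Agent.Lib.IT.LAB
import Pool.Agent.Lib.IT.ROS2
import Pool.Agent.Lib.IT.SEQ

/-! Block DAT: the sequence of labelled expanders with larger girth. -/

namespace Pool.Agent.Lib.MZ

open Finset Pool.Agent.Lib.IT Pool.Agent.Lib.IT.SEQ

namespace DAT

theorem num12 (ℓ x : ℕ) (h1 : 12 * ℓ + 4 ≤ x) (h2 : 4001 ≤ x) :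
    2 * (12 * ℓ) ≤ x ^ 30 ∧ 4 * (x ^ 12 * 800) * (12 * ℓ + 4) + x ^ 12 * 800 < x ^ 30 := by
  have h3 : x ^ 14 ≤ x ^ 30 := Nat.pow_le_pow_right (by omega) (by norm_num)
  have h4 : 1 ≤ x ^ 12 := Nat.one_le_pow _ _ (by omega)
  have h5 : x ^ 14 = x ^ 12 * (x * x) := by ring
  generalize x ^ 30 = a at *
  generalize x ^ 14 = b at *
  generalize x ^ 12 = y at *
  have h6 : 4001 * x ≤ x * x := Nat.mul_le_mul_right x h2
  have h7 : y * (4001 * x) ≤ b := h5 ▸ Nat.mul_le_mul_left y h6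
  have h8 : y * (12 * ℓ + 4) ≤ y * x := Nat.mul_le_mul_left y h1
  have h9 : y * 4001 ≤ y * x := Nat.mul_le_mul_left y h2
  have h10 : x ≤ y * x := Nat.le_mul_of_pos_left x h4
  constructor <;> nlinarith

theorem gr12 (C : Type) [Fintype C] [DecidableEq C] (ℓ : ℕ) (hC : Fintype.card C = 200)
    (hℓ : 5 ≤ ℓ) : ∃ π : C → Equiv.Perm (Fin (800 ^ (30 * ℓ))), Girth π (12 * ℓ) ∧ Dens π := by
  classical
  have h1 := stRG1 stPL
  have h2 := stRG2 stPL
  have h3 := stSW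
  have hx : 12 * ℓ + 4 ≤ 800 ^ ℓ ∧ 4001 ≤ 800 ^ ℓ := by
    induction ℓ, hℓ using Nat.le_induction with
    | base => norm_num
    | succ k hk ih => rw [pow_succ]; omega
  obtain ⟨e1, e2⟩ := num12 ℓ _ hx.1 hx.2
  have e3 : (800 ^ ℓ) ^ 30 = 800 ^ (30 * ℓ) := by rw [← pow_mul, mul_comm]
  have e4 : (800 ^ ℓ) ^ 12 * 800 = 800 ^ (12 * ℓ + 1) := by rw [← pow_mul, mul_comm ℓ, pow_succ]
  have e5 : (2 * Fintype.card C + 1) ^ (12 * ℓ + 1) ≤ 800 ^ (12 * ℓ + 1) :=
    Nat.pow_le_pow_left (by omega) _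
  rw [e3] at e1
  rw [e3, e4] at e2
  generalize 800 ^ (30 * ℓ) = n at *
  have a1 := h1 C n (12 * ℓ) e1 (by omega)
  have a2 := h2 C n hC
  rw [show 4 * Fintype.card C = 800 by omega] at a1
  have a3 : 0 < Fintype.card (C → Equiv.Perm (Fin n)) := Fintype.card_pos
  obtain ⟨π, b1, b2⟩ : ∃ π : C → Equiv.Perm (Fin n), (SC π (12 * ℓ)).ncard ≤ 4 * 800 ^ (12 * ℓ + 1) ∧
      ∀ U : Finset (Fin n), 8 * U.card ≤ 7 * n → inE π U ≤ 197 * U.card := by
    by_contra! hh
    have a4 : (univ : Finset (C → Equiv.Perm (Fin n))) ⊆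
        (univ.filter fun π => 4 * 800 ^ (12 * ℓ + 1) < (SC π (12 * ℓ)).ncard) ∪
          univ.filter fun π => ∃ U : Finset (Fin n), 8 * U.card ≤ 7 * n ∧ 197 * U.card < inE π U :=
      fun π _ => by
        simp only [mem_union, mem_filter, mem_univ, true_and]
        exact (lt_or_ge _ _).imp_right (hh π)
    have a5 := (card_le_card a4).trans (card_union_le _ _)
    rw [card_univ] at a5
    omega
  obtain ⟨π', c1, c2⟩ := h3 C n (12 * ℓ) _ π b1 (by omega)
  refine ⟨π', c1, fun U hU => ?_⟩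
  have := b2 U hU
  have := c2 U
  rw [hC]
  omega

theorem girth_mono {C A : Type} {π : C → Equiv.Perm A} {g g' : ℕ} (h : Girth π g) (hg : g' ≤ g) :
    Girth π g' := fun a w h1 h2 h3 => hg.trans_lt (h a w h1 h2 h3)

theorem stage12 {C F : Type} [Fintype C] [DecidableEq C] [Fintype F]
    (hC : Fintype.card C = 200) (hF : 2 * 800 ^ 200 ≤ Fintype.card F)
    (n : ℕ) (f : Fin n → Stg C F) (h1 : ∀ i, Ok (f i) ∧ Girth (f i).π (12 * (f i).l))
    (h2 : ∀ i j, i < j → Aft (fun _ _ => 0) (f i) (f j)) :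
    ∃ y, (Ok y ∧ Girth y.π (12 * y.l)) ∧ ∀ i, Aft (fun _ _ => 0) (f i) y := by
  obtain ⟨l, hl5, hl⟩ : ∃ l : ℕ, 5 ≤ l ∧ ∀ i, (f i).l < l := by
    refine ⟨5 + ∑ i, (f i).l, Nat.le_add_right _ _, fun i => ?_⟩
    have a1 := single_le_sum (f := fun i => (f i).l) (fun _ _ => Nat.zero_le _) (mem_univ i)
    omega
  obtain ⟨π, hg, hd⟩ := gr12 C l hC hl5
  have hg7 : Girth π (7 * l) := girth_mono hg (by omega)
  have hinj : Function.Injective fun i => (f i).l :=
    StrictMono.injective fun i j hij => (h2 i j hij).1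
  obtain ⟨z, hz1, hz2⟩ := stLAB stROS2 C F (Fin n) _ l π (fun j => 800 ^ (30 * (f j).l))
    (fun j => (f j).l) (fun j => (f j).π) (fun j => (f j).z) hC hF hg7 hl5 le_rfl hinj
    (fun j => ⟨(h1 j).1.1, (hl j).le⟩) (fun _ => le_rfl)
  exact ⟨⟨l, π, z⟩, ⟨⟨hl5, hg7, hd, hz1⟩, hg⟩, fun i => ⟨hl i, fun _ _ => Nat.zero_le _, hz2 i⟩⟩

end DAT

theorem stDAT : St_DAT := by
  classical
  intro C W _ _ _ _ hC h2 hW
  have hF : 2 * 800 ^ 200 ≤ Fintype.card {w : W // w ≠ 0} := by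
    have := Fintype.card_subtype_compl (fun w : W => w = 0)
    rw [Fintype.card_subtype_eq] at this
    have e : Fintype.card {w : W // w ≠ 0} = Fintype.card W - 1 := by convert this
    omega
  have h256 : 256 ≤ Fintype.card W := by
    have : 800 ^ 1 ≤ 800 ^ 200 := Nat.pow_le_pow_right (by norm_num) (by norm_num)
    omega
  obtain ⟨f, hf0, hf2⟩ := seq_exists (fun s => Ok s ∧ Girth s.π (12 * s.l))
    (Aft fun _ _ => 0) (DAT.stage12 hC hF)
  have hf1 := fun n => (hf0 n).1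
  have hpos : ∀ n, 0 < 800 ^ (30 * (f n).l) := fun n => by positivity
  have hcode : ∀ n, ∃ K : AddSubgroup (Fin (800 ^ (30 * (f n).l)) × C → W),
      GoodCode K fun e => ((f n).z e).1 := fun n => by
    refine stRLC _ W h2 h256 ?_ _ fun e => ((f n).z e).2
    rw [Fintype.card_prod, Fintype.card_fin, hC]
    have := hpos n
    omega
  choose K hK using hcode
  have hmono : StrictMono fun n => (f n).l := fun m n h => (hf2 m n h).1
  refine ⟨⟨fun n => 800 ^ (30 * (f n).l), fun n => (f n).π, fun n e => ((f n).z e).1,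
    fun n => (f n).l, K, hpos, fun n => le_trans (by norm_num) (hf1 n).1, fun n => (hf1 n).2.1, ?_,
    fun n => (hf1 n).2.2.1, hK, fun n => ?_⟩, fun n => (hf0 n).2, hmono⟩
  · intro n m a a' w hw hlab hne
    by_contra hlen
    have hlab' := (List.map_injective_iff.2 Subtype.val_injective)
      (((lab_map (f n).π (f n).z Subtype.val w a).symm.trans hlab).trans
        (lab_map (f m).π (f m).z Subtype.val w a'))
    have hpre : ∀ k, k ≤ (f n).l → FreeGroup.IsReduced (w.take (k + 1)) ∧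
        (w.take (k + 1)).length = k + 1 ∧
        lab (f n).π (f n).z a (w.take (k + 1)) = lab (f m).π (f m).z a' (w.take (k + 1)) := by
      intro k hk
      refine ⟨List.IsChain.take hw _, ?_, by rw [lab_take, lab_take, hlab']⟩
      rw [List.length_take]
      omega
    rcases lt_trichotomy m n with h | h | h
    · obtain ⟨b1, b2, b3⟩ := hpre (f m).l (hmono h).le
      exact (hf2 m n h).2.2 a a' _ b1 b2 b3
    · subst h
      obtain ⟨b1, b2, b3⟩ := hpre (f m).l le_rfl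
      exact hne (by rw [(hf1 m).2.2.2 a a' _ b1 b2 b3])
    · obtain ⟨b1, b2, b3⟩ := hpre (f n).l le_rfl
      exact (hf2 n m h).2.2 a' a _ b1 b2 b3.symm
  · rw [hC]
    exact gate_le _ (le_trans (by norm_num) (hf1 n).1)

end Pool.Agent.Lib.MZ
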