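import Pool.Agent.Lib.MZ.Blue

/-! DBL: the double cover expands. -/

namespace Pool.Agent.Lib.MZ

open Finset Pool.Agent.Lib.IT

namespace DBL

theorem z2 (s t : ZMod 2) (h : t ≠ s) : t = s + 1 := by
  revert s t; decide

theorem z2' (s t u : ZMod 2) (h : s + t = u) : t = s + u := by
  revert s t u; decide

/-- a finite family of base edges with a choice of lifts in the boundary -/
theorem le_ncard {C A : Type} [Fintype C] [Fintype A] (s : A → ZMod 2) (E : Finset (A × C))
    (B : Set ((A × ZMod 2) × C)) (h : ∀ e ∈ E, ((e.1, s e.1), e.2) ∈ B) : E.card ≤ B.ncard := by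
  rw [← Set.ncard_coe_finset]
  refine Set.ncard_le_ncard_of_injOn (fun e => ((e.1, s e.1), e.2)) h ?_ (Set.toFinite _)
  intro e _ e' _ he
  simp only [Prod.mk.injEq] at he
  exact Prod.ext he.1.1 he.2

end DBL

theorem stDBL : St_DBL := by
  intro C _ n π θ hC hD hS U hU
  classical
  let s : Fin n → ZMod 2 := fun a => if (a, (0 : ZMod 2)) ∈ U then 0 else 1
  let U1 : Finset (Fin n) := U.image Prod.fst
  have hs : ∀ a ∈ U1, (a, s a) ∈ U := by
    intro a ha
    obtain ⟨⟨a', t⟩, hx, rfl⟩ := mem_image.1 ha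
    by_cases h0 : (a', (0 : ZMod 2)) ∈ U
    · simpa only [s, if_pos h0] using h0
    · have ht : t = 1 := by
        have := DBL.z2 0 t (fun h => h0 (h ▸ hx))
        simpa using this
      simpa only [s, if_neg h0, ← ht] using hx
  have hm : ∀ a t, (a, t) ∈ U → a ∈ U1 := fun a t h => mem_image.2 ⟨_, h, rfl⟩
  have hc : (U1 ×ˢ (univ : Finset (ZMod 2))).card = U1.card * 2 := by
    rw [card_product, card_univ, ZMod.card]
  by_cases h8 : 8 * U1.card ≤ 7 * n
  · have h1 := hD U1 h8
    have h2 : U.card ≤ U1.card * 2 := by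
      rw [← hc]
      exact card_le_card fun x hx => mem_product.2 ⟨hm x.1 x.2 hx, mem_univ _⟩
    have h3 := card_filter_add_card_filter_not (s := U1 ×ˢ (univ : Finset C))
      (fun e => π e.2 e.1 ∈ U1)
    rw [card_product, card_univ, hC] at h3
    rw [hC] at h1
    unfold inE at h1
    refine le_trans ?_ (DBL.le_ncard s
      ((U1 ×ˢ (univ : Finset C)).filter fun e => ¬ π e.2 e.1 ∈ U1) _ fun e he => ?_)
    · omega
    · rw [mem_filter, mem_product] at he
      exact ⟨hs _ he.1.1, fun h => he.2 (hm _ _ h)⟩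
  · let V : Finset (Fin n) := U1.filter fun a => (a, s a + 1) ∉ U
    have h1 : U1.card * 2 ≤ U.card + V.card := by
      rw [← hc]
      refine le_trans (card_le_card (t := U ∪ V.image fun a => (a, s a + 1)) fun x hx => ?_)
        ((card_union_le _ _).trans (Nat.add_le_add_left card_image_le _))
      by_cases hxU : x ∈ U
      · exact mem_union_left _ hxU
      · have ha := (mem_product.1 hx).1
        have ht : x.2 = s x.1 + 1 := DBL.z2 _ _ fun h => hxU (by
          have := hs _ ha
          rwa [← h] at this)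
        have hx' : (x.1, s x.1 + 1) = x := by rw [← ht]
        exact mem_union_right _ (mem_image.2 ⟨x.1, mem_filter.2 ⟨ha, by rwa [hx']⟩, hx'⟩)
    refine hU.trans ((hS V s (by omega)).trans (DBL.le_ncard s _ _ fun e he => ?_))
    simp only [mem_filter, mem_product] at he
    obtain ⟨⟨ha, -⟩, hb, hθ⟩ := he
    refine ⟨hs _ (mem_filter.1 ha).1, fun h => hθ (DBL.z2' _ _ _ ?_)⟩
    by_contra hne
    have h' : (π e.2 e.1, s e.1 + θ e) ∈ U := h
    rw [DBL.z2 _ _ hne] at h'
    exact (mem_filter.1 hb).2 h'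

end Pool.Agent.Lib.MZ
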