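import Pool.Agent.Lib.IT.EXP

/-! Expansion of coverings of coloured permutation graphs. -/

namespace Pool.Agent.Lib.MZ

open Finset IT

namespace Cover60

variable {C A A' : Type} [Fintype C]

/-- The number of boundary edges. -/
noncomputable def bd (σ : C → Equiv.Perm A) (B : Finset A) : ℕ :=
  {e : A × C | e.1 ∈ B ∧ σ e.2 e.1 ∉ B}.ncard

theorem bd_eq [DecidableEq A] (σ : C → Equiv.Perm A) (B : Finset A) :
    bd σ B = ((B ×ˢ (univ : Finset C)).filter fun e => σ e.2 e.1 ∉ B).card := by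
  rw [bd, ← Set.ncard_coe_finset]
  congr 1
  ext e
  simp

theorem bd_add_inE [DecidableEq A] (σ : C → Equiv.Perm A) (B : Finset A) :
    inE σ B + bd σ B = B.card * Fintype.card C := by
  rw [bd_eq, inE, card_filter_add_card_filter_not, card_product, card_univ]

open scoped Classical in
/-- Layer cake estimate. -/
theorem layer (σ : C → Equiv.Perm A) (σ' : C → Equiv.Perm A') (p : A' → A) (B : Finset A')
    (hp : ∀ c, ∀ x ∈ B, p (σ' c x) = σ c (p x))
    (h : ∀ L ⊆ B.image p, L.card ≤ bd σ L) : B.card ≤ bd σ' B := by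
  let f : A → ℕ := fun g => (B.filter fun x => p x = g).card
  have hf : ∀ g, f g ≤ B.card := fun g => card_filter_le _ _
  have h1 : B.card = ∑ j ∈ range B.card, ((B.image p).filter fun g => j < f g).card := by
    simp only [card_filter (fun g => _ < f g)]
    rw [sum_comm]
    refine (card_eq_sum_card_image p B).trans (sum_congr rfl fun g _ => ?_)
    rw [← card_filter]
    refine Eq.trans (card_range _).symm (congrArg card ?_)
    ext j
    simp only [mem_range, mem_filter]
    exact ⟨fun h => ⟨h.trans_le (hf g), h⟩, fun h => h.2⟩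
  have h2 : ∀ j, bd σ ((B.image p).filter fun g => j < f g) = ((B.image p ×ˢ univ).filter
      fun e : A × C => j < f e.1 ∧ ¬ j < f (σ e.2 e.1)).card := fun j => by
    rw [bd_eq]
    congr 1
    ext e
    simp only [mem_filter, mem_product, mem_univ, and_true, and_assoc]
    refine and_congr_right fun _ => and_congr_right fun _ => not_congr
      ⟨fun h => h.2, fun h => ⟨?_, h⟩⟩
    obtain ⟨x, hx⟩ := card_pos.1 ((Nat.zero_le j).trans_lt h)
    exact mem_image.2 ⟨x, (mem_filter.1 hx).1, (mem_filter.1 hx).2⟩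
  rw [h1]
  refine (sum_le_sum fun j _ => (h _ (filter_subset _ _)).trans (h2 j).le).trans ?_
  simp only [card_filter (fun e : A × C => _ < f e.1 ∧ _)]
  rw [sum_comm, bd_eq, card_eq_sum_card_fiberwise (f := fun e : A' × C => (p e.1, e.2))
    (t := B.image p ×ˢ univ) fun e he => by
      simp only [coe_filter, mem_product, mem_univ, and_true, Set.mem_ofPred_eq] at he
      exact mem_coe.2 (mem_product.2 ⟨mem_image_of_mem p he.1, mem_univ _⟩)]
  refine sum_le_sum fun e _ => ?_
  rw [← card_filter]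
  have h3 : ((range B.card).filter fun j => j < f e.1 ∧ ¬ j < f (σ e.2 e.1)).card ≤
      f e.1 - f (σ e.2 e.1) := by
    rw [← Nat.card_Ico]
    exact card_le_card fun j hj => mem_Ico.2 ⟨not_lt.1 (mem_filter.1 hj).2.2, (mem_filter.1 hj).2.1⟩
  refine h3.trans (tsub_le_iff_left.2 ?_)
  rw [show f e.1 = _ from (card_filter_add_card_filter_not (fun x => σ' e.2 x ∈ B)).symm]
  refine Nat.add_le_add (card_le_card_of_injOn (σ' e.2) (fun x hx => ?_) (σ' e.2).injective.injOn)
    (card_le_card_of_injOn (fun x => (x, e.2)) (fun x hx => ?_)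
      fun _ _ _ _ h => (Prod.ext_iff.1 h).1)
  · simp only [coe_filter, mem_filter, Set.mem_ofPred_eq] at hx ⊢
    exact ⟨hx.2, by rw [hp _ _ hx.1.1, hx.1.2]⟩
  · simp only [coe_filter, mem_filter, Set.mem_ofPred_eq, mem_product, mem_univ, and_true] at hx ⊢
    exact ⟨⟨hx.1.1, hx.2⟩, by rw [hx.1.2]⟩

open scoped Classical in
/-- It is enough to test expansion inside the classes of an invariant partition. -/
theorem of_classes {ι : Type} (σ : C → Equiv.Perm A) (k : A → ι) (hk : ∀ c x, k (σ c x) = k x)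
    (B : Finset A) (h : ∀ x ∈ B, (B.filter fun y => k y = k x).card ≤
      bd σ (B.filter fun y => k y = k x)) : B.card ≤ bd σ B := by
  rw [card_eq_sum_card_image k B, bd_eq, card_eq_sum_card_fiberwise (f := fun e : A × C => k e.1)
    (t := B.image k) fun e he => by
      simp only [coe_filter, mem_product, mem_univ, and_true, Set.mem_ofPred_eq] at he
      exact mem_coe.2 (mem_image_of_mem k he.1)]
  refine sum_le_sum fun i hi => ?_
  obtain ⟨x, hx, rfl⟩ := mem_image.1 hi
  refine (h x hx).trans (le_of_eq ?_)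
  rw [bd_eq]
  congr 1
  ext e
  simp only [mem_filter, mem_product, mem_univ, and_true, hk]
  tauto

omit [Fintype C] in
theorem orb_step (σ : C → Equiv.Perm A) (c : C) (x : A) : orb σ (σ c x) = orb σ x :=
  EXP.orb_eq σ ⟨[(c, true)], rfl⟩

/-- Expansion of a covering that embeds in an expanding double covering over the finite orbits. -/
theorem expands (σ : C → Equiv.Perm A) (σ' : C → Equiv.Perm A') (q : A' → A)
    (hq : ∀ c x, q (σ' c x) = σ c (q x)) (h1 : Expands σ)
    (h2 : ∀ x, (orb σ (q x)).Finite → ∃ (n : ℕ) (T : C → Fin n × ZMod 2 → Fin n × ZMod 2)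
      (Φ : A' → Fin n × ZMod 2), (∀ U : Finset (Fin n × ZMod 2), U.card ≤ n → U.card ≤
        {e : (Fin n × ZMod 2) × C | e.1 ∈ U ∧ T e.2 e.1 ∉ U}.ncard) ∧
      (∀ c, ∀ y ∈ orb σ' x, Φ (σ' c y) = T c (Φ y)) ∧ Set.InjOn Φ (orb σ' x)) : Expands σ' := by
  classical
  intro B hB
  refine of_classes σ' (orb σ') (orb_step σ') B fun x hx => ?_
  have h0 : ∀ y, orb σ' y = orb σ' x ↔ y ∈ orb σ' x := fun y =>
    ⟨fun h => h ▸ ⟨[], rfl⟩, EXP.orb_eq σ'⟩
  obtain ⟨L, hL, hL'⟩ : ∃ L : Finset A', (L : Set A') = orb σ' x ∩ B ∧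
      (B.filter fun y => orb σ' y = orb σ' x) = L := ⟨_, by
    ext z
    simp only [Set.mem_inter_iff, mem_coe, mem_filter, h0, and_comm], rfl⟩
  suffices h : L.card ≤ bd σ' L by convert h <;> convert hL'
  have hs : (L : Set A') ⊆ orb σ' x := hL ▸ Set.inter_subset_left
  by_cases h : ∃ y ∈ orb σ' x, (orb σ (q y)).Finite
  · obtain ⟨y, hy, hF⟩ := h
    obtain ⟨n, T, Φ, h3, h5, h6⟩ := h2 y hF
    rw [EXP.orb_eq σ' hy] at h5 h6
    have h7 := Set.ncard_le_ncard_of_injOn (t := Set.univ) _ (fun _ _ => trivial) h6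
    have h8 := hB x (Set.Finite.of_injOn (t := Set.univ) (fun _ _ => trivial) h6 Set.finite_univ)
    rw [← hL, Set.ncard_coe_finset] at h8
    rw [Set.ncard_univ, Nat.card_prod, Nat.card_fin, Nat.card_zmod] at h7
    have h9 := card_image_of_injOn (h6.mono hs)
    refine h9.ge.trans ((h3 _ (by omega)).trans ?_)
    refine le_trans (Set.ncard_le_ncard (t := (fun e : A' × C => (Φ e.1, e.2)) ''
      {e : A' × C | e.1 ∈ L ∧ σ' e.2 e.1 ∉ L}) ?_ (Set.Finite.image _ ?_)) (Set.ncard_image_le ?_)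
    · rintro ⟨a, c⟩ ⟨h4, h10⟩
      obtain ⟨z, hz, rfl⟩ := mem_image.1 h4
      exact ⟨(z, c), ⟨hz, fun h11 => h10 (mem_image.2 ⟨_, h11, h5 c z (hs hz)⟩)⟩, rfl⟩
    all_goals exact (L ×ˢ (univ : Finset C)).finite_toSet.subset fun e he => by simpa using he.1
  · refine layer σ σ' q _ (fun c z _ => hq c z) fun K hK => h1 K fun a ha => ?_
    have : orb σ a ∩ K = ∅ := Set.eq_empty_of_forall_notMem fun g hg => by
      obtain ⟨z, hz, rfl⟩ := mem_image.1 (hK hg.2)
      exact h ⟨z, hs hz, by rwa [EXP.orb_eq σ hg.1]⟩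
    simp [this]

end Cover60

end Pool.Agent.Lib.MZ
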