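import Pool.Agent.Lib.MZ.Blue
import Pool.Agent.Lib.MZ.Cover60

/-! Uniform expansion for the twisted group. -/

set_option linter.unusedSectionVars false

namespace Pool.Agent.Lib.MZ

open Pool.Agent.Lib.IT

namespace EXPT

variable {C W : Type} [Fintype C] [AddCommGroup W] {D : Data C W} {n : ℕ}

theorem wd_append (a : Fin (D.N n)) (w w' : List (C × Bool)) :
    wd D n a (w ++ w') = wd D n a w * wd D n (walk (D.π n) a w) w' := by
  induction w generalizing a with
  | nil => exact (one_mul _).symm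
  | cons l w ih => rw [List.cons_append, wd, wd, ih, mul_assoc]; rfl

theorem lab_append {A V : Type} (π : C → Equiv.Perm A) (z : A × C → V) (a : A)
    (w w' : List (C × Bool)) : lab π z a (w ++ w') = lab π z a w ++ lab π z (walk π a w) w' := by
  induction w generalizing a with
  | nil => rfl
  | cons l w ih => rw [List.cons_append, lab, lab, ih]; rfl

theorem walk_append {A : Type} (π : C → Equiv.Perm A) (a : A) (w w' : List (C × Bool)) :
    walk π a (w ++ w') = walk π (walk π a w) w' := List.foldl_append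

theorem exists_rev (a : Fin (D.N n)) (w : List (C × Bool)) : ∃ u,
    walk (D.π n) (walk (D.π n) a w) u = a ∧ wd D n (walk (D.π n) a w) u = (wd D n a w)⁻¹ := by
  induction w generalizing a with
  | nil => exact ⟨[], rfl, inv_one.symm⟩
  | cons l w ih =>
    obtain ⟨u, h1, h2⟩ := ih (step (D.π n) a l)
    refine ⟨u ++ [(l.1, !l.2)], ?_, ?_⟩
    · rw [walk_append, EXP.walk_cons _ a, h1]
      exact EXP.step_step _ a l
    · rw [wd_append, EXP.walk_cons, h1, h2, wd, wd, wd, mul_one, mul_inv_rev, FreeGroup.inv_mk]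
      obtain ⟨c, b⟩ := l
      cases b <;> simp [edge, step, FreeGroup.invRev]

variable {Γ Γ' : Type} [Group Γ] [Group Γ'] {gen : C × W → Γ} {gen' : C × W → Γ'} {pr : Γ' →* Γ}
  {X : AddSubgroup (Γ → C × Bool → W)} {X' : AddSubgroup (Γ' → C × Bool → W)}

theorem walk_eq (h : Cfg gen X) (h' : Cfg gen' X') (hpr : ∀ s, pr (gen' s) = gen s) {ω : X}
    {ω' : X'} (hω : ∀ g, ω'.1 g = ω.1 (pr g)) {ι : Fin (D.N n) → Γ} (hF : Full D gen ω.1 n ι)
    (w : List (C × Bool)) : ∀ (x : Γ') (a : Fin (D.N n)), pr x = ι a →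
      walk (sig h' ω') x w = x * FreeGroup.lift gen' (wd D n a w) ∧
        pr (walk (sig h' ω') x w) = ι (walk (D.π n) a w) := by
  induction w with
  | nil => exact fun x a hx => ⟨by simp [wd, walk], hx⟩
  | cons l w ih =>
    intro x a hx
    have h1 : step (sig h' ω') x l =
        x * FreeGroup.lift gen' (FreeGroup.mk [((l.1, D.y n (edge (D.π n) a l)), l.2)]) ∧
        pr (step (sig h' ω') x l) = ι (step (D.π n) a l) := by
      obtain ⟨c, b⟩ := l
      cases b
      · have h2 := hF.1 ((D.π n c).symm a) c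
        rw [Equiv.apply_symm_apply] at h2
        have h3 : ω'.1 x (c, false) = D.y n ((D.π n c).symm a, c) := by
          rw [hω, hx, h2, ← h.mat ω.1 ω.2]
          exact hF.2.2 (_, c)
        have h4 : step (sig h' ω') x (c, false) =
            x * (gen' (c, D.y n ((D.π n c).symm a, c)))⁻¹ := by rw [← h3]; rfl
        refine ⟨by simp [h4, edge], ?_⟩
        rw [h4, map_mul, map_inv, hpr, hx, h2, mul_inv_cancel_right]
        rfl
      · have h3 : ω'.1 x (c, true) = D.y n (a, c) := by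
          rw [hω, hx]
          exact hF.2.2 (a, c)
        have h4 : step (sig h' ω') x (c, true) = x * gen' (c, D.y n (a, c)) := by rw [← h3]; rfl
        refine ⟨by simp [h4, edge], ?_⟩
        rw [h4, map_mul, hpr, hx, ← hF.1 a c]
        rfl
    obtain ⟨h5, h6⟩ := ih _ _ h1.2
    refine ⟨?_, h6⟩
    rw [EXP.walk_cons, h5, h1.1, wd, map_mul, mul_assoc]

end EXPT

open EXPT in
theorem stEXPT (hEXP : St_EXP) (hKEY : St_KEY) (hHOL : St_HOL) : St_EXPT := by
  intro C W _ _ _ _ D θ Γ Γ' _ _ gen gen' pr M h h' hC h2 hT hD ω'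
  obtain ⟨ω0, h0, hω⟩ := ω'.2
  have hω' : ∀ g, ω'.1 g = (⟨ω0, h0⟩ : Xg D gen Set.univ).1 (pr g) := congrFun hω
  obtain ⟨H1, H2, H3, -, -⟩ := hHOL C W D θ Γ gen M
  refine Cover60.expands (sig h ⟨ω0, h0⟩) (sig h' ω') pr (fun c x => ?_)
    (hEXP C W D Γ gen _ h 0 (M.B 0) hC h2 _).1 fun x hx => ?_
  · change pr (x * gen' (c, ω'.1 x (c, true))) = _
    rw [map_mul, hT.pr_gen, hω']
    rfl
  obtain ⟨n, ι, hF, ho⟩ := hKEY C W D Γ gen h 0 (M.B 0) hC h2 _ _ hx
  obtain ⟨a, ha⟩ : pr x ∈ Set.range ι := ho ▸ ⟨[], rfl⟩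
  have hw := fun w => walk_eq h h' hT.pr_gen hω' hF w x a ha.symm
  have key : ∀ w w', walk (D.π n) a w = walk (D.π n) a w' →
      FreeGroup.lift gen (wd D n a w * (wd D n a w')⁻¹) = 1 ∧ ∃ k : ℤ,
        M.c n (M.ι0 n a) (wd D n a w * (wd D n a w')⁻¹) = k ∧
        (k : ZMod 2) = (lab (D.π n) (θ n) a w).sum - (lab (D.π n) (θ n) a w').sum := by
    intro w w' e
    have e1 : FreeGroup.lift gen (wd D n a w * (wd D n a w')⁻¹) = 1 := by
      rw [map_mul, map_inv, mul_inv_eq_one]
      exact mul_left_cancel ((H1 n ι hF.1 a w).trans (e ▸ (H1 n ι hF.1 a w').symm))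
    obtain ⟨k, e2, e3⟩ := H2 n a w
    obtain ⟨k', e4, e5⟩ := H2 n a w'
    have e6 := (M.cocy n).mul (M.ι0 n a) (wd D n a w * (wd D n a w')⁻¹) (wd D n a w')
    rw [inv_mul_cancel_right, e1, mul_one, e2, e4] at e6
    exact ⟨e1, k - k', by push_cast; linarith, by push_cast; rw [e3, e5]⟩
  have key' : ∀ w w', walk (sig h' ω') x w = walk (sig h' ω') x w' ↔
      (walk (D.π n) a w, (lab (D.π n) (θ n) a w).sum) =
        (walk (D.π n) a w', (lab (D.π n) (θ n) a w').sum) := by
    intro w w'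
    constructor
    · intro e
      have e1 : walk (D.π n) a w = walk (D.π n) a w' :=
        hF.2.1 ((hw w).2.symm.trans (e ▸ (hw w').2))
      obtain ⟨-, k, e2, e3⟩ := key w w' e1
      rw [(hw w).1, (hw w').1, mul_left_cancel_iff, ← mul_inv_eq_one, ← map_inv, ← map_mul] at e
      obtain ⟨k', e4⟩ := ((hT.ker _).1 e).2 n (M.ι0 n a)
      have e5 : k = 2 * k' := by exact_mod_cast e2.symm.trans e4
      refine Prod.ext e1 (sub_eq_zero.1 ?_)
      rw [← e3, e5]
      push_cast
      exact mul_eq_zero_of_left rfl _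
    · intro e
      obtain ⟨e1, e2⟩ := Prod.ext_iff.1 e
      obtain ⟨e3, k, e4, e5⟩ := key w w' e1
      rw [(hw w).1, (hw w').1, mul_left_cancel_iff, ← mul_inv_eq_one, ← map_inv, ← map_mul]
      refine (hT.ker _).2 ⟨e3, fun m z => ?_⟩
      obtain ⟨u, e6, e7⟩ := exists_rev a w'
      dsimp only at e1 e2
      rw [← e1] at e6 e7
      rw [← e7, ← wd_append] at e4 ⊢
      rcases H3 n a (w ++ u) ((walk_append _ _ _ _).trans e6) m z with e8 | e8
      · exact ⟨0, by simpa using e8⟩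
      · rw [e2, sub_self] at e5
        obtain ⟨j, hj⟩ := (ZMod.intCast_zmod_eq_zero_iff_dvd k 2).1 e5
        exact ⟨j, by rw [e8, e4, hj]; push_cast; rfl⟩
  have h3 : ∀ y, ∃ w, y ∈ orb (sig h' ω') x → walk (sig h' ω') x w = y := fun y => by
    by_cases hy : y ∈ orb (sig h' ω') x
    · exact ⟨hy.choose, fun _ => hy.choose_spec⟩
    · exact ⟨[], fun h => absurd h hy⟩
  choose v hv using h3
  refine ⟨D.N n, fun c e => (D.π n c e.1, e.2 + θ n (e.1, c)),
    fun y => (walk (D.π n) a (v y), (lab (D.π n) (θ n) a (v y)).sum), hD n, fun c y hy => ?_,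
    fun y hy y' hy' e => ?_⟩
  · have e1 : walk (sig h' ω') x (v y ++ [(c, true)]) = sig h' ω' c y := by
      rw [walk_append, hv y hy]; rfl
    refine ((key' _ _).1 ((hv _ ⟨_, e1⟩).trans e1.symm)).trans ?_
    rw [walk_append, lab_append, List.sum_append]
    simp [walk, step, lab, edge]
  · rw [← hv y hy, ← hv y' hy']
    exact (key' _ _).2 e

end Pool.Agent.Lib.MZ
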