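import Pool.Agent.Lib.MZ.Blue

/-! Block FIX: fixed vectors of the lazy walks with flux `0` and `π`. -/

namespace Pool.Agent.Lib.MZ

open Finset Pool.Agent.Lib.IT Filter Topology

namespace FIX

theorem strict {ι : Type} [Fintype ι] (u : ι → ℂ) (v : ℂ) (h1 : ∀ p, ‖u p‖ ≤ ‖v‖)
    (h2 : ∑ p, u p = (Fintype.card ι : ℝ) • v) (p : ι) : u p = v := by
  have h3 : ∑ p, ‖u p - v‖ ^ 2 ≤ 0 := by
    simp only [norm_sub_sq_real, sum_add_distrib, sum_sub_distrib, ← mul_sum, ← sum_inner, h2,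
      real_inner_smul_left, real_inner_self_eq_norm_sq, sum_const, card_univ, nsmul_eq_mul]
    have : ∑ p, ‖u p‖ ^ 2 ≤ ∑ _p : ι, ‖v‖ ^ 2 :=
      sum_le_sum fun p _ => pow_le_pow_left₀ (norm_nonneg _) (h1 p) 2
    rw [sum_const, card_univ, nsmul_eq_mul] at this
    linarith
  have h4 := single_le_sum (f := fun p => ‖u p - v‖ ^ 2) (fun p _ => sq_nonneg _) (mem_univ p)
  have h5 : ‖u p - v‖ ^ 2 = 0 := le_antisymm (h4.trans h3) (sq_nonneg _)
  exact sub_eq_zero.1 (norm_eq_zero.1 (pow_eq_zero_iff two_ne_zero |>.1 h5))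

theorem finite_ge {Z : Type} (η : EC Z) {ε : ℝ} (hε : 0 < ε) : {z | ε ≤ ‖η z‖}.Finite := by
  have h1 := ((lp.memℓp η).summable (by norm_num)).tendsto_cofinite_zero
  have h2 := h1.eventually (gt_mem_nhds (Real.rpow_pos_of_pos hε (2 : ENNReal).toReal))
  refine (eventually_cofinite.1 h2).subset fun z hz h => ?_
  exact absurd (Real.rpow_le_rpow hε.le hz (by norm_num)) (not_le.2 h)

open scoped Classical in
/-- a sign with `sg (-v) = sg v + 1` -/
noncomputable def sg (v : ℂ) : ZMod 2 := if 0 < v.re ∨ (v.re = 0 ∧ 0 < v.im) then 0 else 1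

theorem sg_neg {v : ℂ} (hv : v ≠ 0) : sg (-v) + sg v = 1 := by
  have h : v.re ≠ 0 ∨ v.im ≠ 0 := by
    by_contra h
    rw [not_or, not_not, not_not] at h
    exact hv (Complex.ext h.1 h.2)
  unfold sg
  simp only [Complex.neg_re, Complex.neg_im, neg_pos, neg_eq_zero]
  split_ifs with h1 h2 h2
  · exfalso
    rcases h1 with h1 | h1 <;> rcases h2 with h2 | h2 <;> linarith [h1, h2]
  · exact zero_add _
  · exact add_zero _
  · exfalso
    rw [not_or, not_and, not_lt, not_lt] at h1 h2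
    have h3 : v.re = 0 := le_antisymm h2.1 h1.1
    exact h.elim (fun h => h h3) fun h => h (le_antisymm (h2.2 h3) (h1.2 h3))

variable {C A : Type}

theorem orb_subset {π : C → Equiv.Perm A} {S : Set A} (hS : ∀ z ∈ S, ∀ p, step π z p ∈ S) :
    ∀ (w : List (C × Bool)) (z : A), z ∈ S → walk π z w ∈ S
  | [], _, h => h
  | l :: w, z, h => orb_subset hS w _ (hS z h l)

end FIX

open FIX in
theorem stFIX : St_FIX := by
  classical
  intro C W _ _ D Γ _ gen X h ω c n ι0 θ hC hF ho hS hc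
  have hK : (Fintype.card C : ℂ) ≠ 0 := Nat.cast_ne_zero.2 (by omega)
  have h1 : ∀ a k, sig h ω k (ι0 a) = ι0 (D.π n k a) := fun a k => by
    rw [hF.1 a k, ← hF.2.2 (a, k)]; rfl
  have h2 : ∀ a k, (sig h ω k).symm (ι0 a) = ι0 ((D.π n k).symm a) := fun a k => by
    rw [Equiv.symm_apply_eq, h1, Equiv.apply_symm_apply]
  have h3 : ∀ z p, step (sig h ω) z p ∈ Set.range ι0 ↔ z ∈ Set.range ι0 := by
    rintro z ⟨k, _ | _⟩ <;> simp only [step, Bool.false_eq_true, if_false, if_true] <;>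
      constructor <;> rintro ⟨a, ha⟩
    · exact ⟨_, by rw [← h1, ha, Equiv.apply_symm_apply]⟩
    · exact ⟨_, by rw [← h2, ha]⟩
    · exact ⟨_, by rw [← h2, ha, Equiv.symm_apply_apply]⟩
    · exact ⟨_, by rw [← h1, ha]⟩
  refine ⟨fun T hT => ?_, fun T hT η hη => ?_⟩
  · let f : Γ → ℂ := fun z => if z ∈ Set.range ι0 then 1 else 0
    have hf : Memℓp f 2 := (memℓp_zero ((Set.finite_range ι0).subset fun z hz => by
      by_contra h'
      exact hz (if_neg h'))).of_exponent_ge zero_le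
    refine ⟨⟨f, hf⟩, fun h0 => ?_, lp.ext (funext fun z => ?_)⟩
    · have h4 : f (ι0 ⟨0, D.pos n⟩) = 0 := congrArg (fun ξ : EC Γ => ξ (ι0 ⟨0, D.pos n⟩)) h0
      simp [f] at h4
    · rw [hT]
      have h4 : ∀ p, f (step (sig h ω) z p) = f z := fun p => by simp only [f, h3]
      simp only [zero_mul, mul_zero, Complex.ofReal_zero, Complex.exp_zero, one_mul, h4, sum_const,
        card_univ, Fintype.card_prod, Fintype.card_bool, nsmul_eq_mul]
      push_cast
      field_simp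
      ring
  · by_contra h0
    obtain ⟨z0, hz0⟩ : ∃ z, η z ≠ 0 := by
      by_contra h'
      exact h0 (lp.ext (funext fun z => not_not.1 fun h'' => h' ⟨z, h''⟩))
    have hfin := finite_ge η (norm_pos_iff.2 hz0)
    obtain ⟨z1, h4, h5⟩ := hfin.exists_maximalFor (fun z => ‖η z‖) _ ⟨z0, le_refl ‖η z0‖⟩
    have h6 : ∀ z, ‖η z‖ ≤ ‖η z1‖ := fun z => by
      rcases le_total ‖η z‖ ‖η z1‖ with h' | h'
      · exact h'
      · exact h5 (le_trans h4 h') h'
    have h7 : ∀ z, ‖η z‖ = ‖η z1‖ → ∀ p : C × Bool, Complex.exp ((Real.pi *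
        (1 * c z (FreeGroup.mk [((p.1, ω.1 z p), p.2)])) : ℝ) * Complex.I) *
          η (step (sig h ω) z p) = η z := fun z hz => by
      refine strict _ _ (fun p => ?_) ?_
      · rw [norm_mul, Complex.norm_exp_ofReal_mul_I, one_mul, hz]
        exact h6 _
      · have h8 := hT η z
        rw [hη] at h8
        rw [Fintype.card_prod, Fintype.card_bool, Complex.real_smul]
        rw [← sub_eq_iff_eq_add', eq_div_iff (mul_ne_zero (by norm_num) hK)] at h8
        rw [← h8]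
        push_cast
        ring
    have h8 : ∀ z ∈ {z | ‖η z‖ = ‖η z1‖}, ∀ p,
        step (sig h ω) z p ∈ {z | ‖η z‖ = ‖η z1‖} := fun z hz p => by
      have h9 := congrArg norm (h7 z hz p)
      rw [norm_mul, Complex.norm_exp_ofReal_mul_I, one_mul] at h9
      exact h9.trans hz
    have h9 : orb (sig h ω) z1 ⊆ {z | ‖η z‖ = ‖η z1‖} := by
      rintro _ ⟨w, rfl⟩
      exact orb_subset h8 w z1 rfl
    rw [ho z1 (hfin.subset fun z hz => le_of_le_of_eq h4 (h9 hz).symm)] at h9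
    have h10 := hS univ (fun a => sg (η (ι0 a))) (by rw [card_univ, Fintype.card_fin]; omega)
    rw [filter_eq_empty_iff.2, card_empty] at h10
    · exact absurd (D.pos n) (not_lt.2 h10)
    rintro ⟨a, k⟩ - ⟨-, h11⟩
    have h12 := h7 _ (h9 ⟨a, rfl⟩) (k, true)
    have h13 : step (sig h ω) (ι0 a) (k, true) = ι0 (D.π n k a) := h1 a k
    have h14 : c (ι0 a) (FreeGroup.mk [((k, ω.1 (ι0 a) (k, true)), true)]) = (θ (a, k)).val := by
      rw [← hc (a, k), ← hF.2.2 (a, k)]; rfl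
    rw [h13, h14] at h12
    have h15 : η (ι0 (D.π n k a)) ≠ 0 := fun h' => by
      have := h9 ⟨D.π n k a, rfl⟩
      rw [Set.mem_ofPred_eq, h', norm_zero] at this
      exact hz0 (norm_le_zero_iff.1 (this ▸ h4))
    refine h11 ?_
    show θ (a, k) = sg (η (ι0 a)) + sg (η (ι0 (D.π n k a)))
    rw [← h12]
    have h16 : ∀ x : ZMod 2, x = 0 ∨ x = 1 := by decide
    rcases h16 (θ (a, k)) with h17 | h17 <;> rw [h17]
    · simp [CharTwo.add_self_eq_zero]
    · rw [ZMod.val_one, Nat.cast_one, mul_one, mul_one, Complex.exp_pi_mul_I, neg_one_mul,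
        sg_neg h15]

end Pool.Agent.Lib.MZ
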