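import Pool.Agent.Lib.MZ.Flux1

/-! FLUX: the recursion and its estimates. -/

namespace Pool.Agent.Lib.MZ.Flux

open Pool.Agent.Lib.IT Pool.Agent.Lib.MP_f40e16_al FreeGroup

variable {S Ω : Type} {nxt : Ω → S × Bool → Option Ω} {ℓ : Ω → ℕ} {x0 : Ω}
  {τ : Ω × Gam nxt → ℕ ×ₗ ℕ}

/-- sum along a word -/
noncomputable def sm (α : Gam nxt → S × Bool → ℝ) : Gam nxt → List (S × Bool) → ℝ
  | _, [] => 0
  | g, l :: w => α g l + sm α (g * val nxt [l]) w

theorem sm_append (α : Gam nxt → S × Bool → ℝ) (u w : List (S × Bool)) :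
    ∀ g, sm α g (u ++ w) = sm α g u + sm α (g * val nxt u) w := by
  induction u with
  | nil => intro g; simp [sm, BIR.val_nil]
  | cons l u ih =>
    intro g
    rw [List.cons_append, sm, sm, ih, BIR.val_cons l u, mul_assoc, add_assoc]

/-- the sum as a function on the free group -/
noncomputable def cc (α : Gam nxt → S × Bool → ℝ)
    (h : ∀ g l, α (g * val nxt [l]) (iv l) = -α g l) (g : Gam nxt) (r : FreeGroup S) : ℝ :=
  Quot.lift (sm α g) (by
    rintro _ _ ⟨⟩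
    rename_i u w x b
    have e : ∀ k, sm α k ((x, b) :: (x, !b) :: w) = sm α k w := fun k => by
      have h1 := h k (x, b)
      have h2 := val_iv k (x, b)
      simp only [iv] at h1 h2
      rw [sm, sm, h1, h2]
      ring
    rw [sm_append, sm_append, e]) r

theorem sm_mk {α : Gam nxt → S × Bool → ℝ} (h : ∀ g l, α (g * val nxt [l]) (iv l) = -α g l)
    (g : Gam nxt) {u w : List (S × Bool)} (e : mk u = mk w) : sm α g u = sm α g w :=
  congrArg (cc α h g) e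

theorem sm_fin {α : Gam nxt → S × Bool → ℝ} (h : ∀ l ε, 0 < ε → {g | ε ≤ |α g l|}.Finite)
    (w : List (S × Bool)) : ∀ ε, 0 < ε → {g | ε ≤ |sm α g w|}.Finite := by
  induction w with
  | nil => exact fun ε hε => Set.finite_empty.subset fun g hg => by simp [sm] at hg; linarith
  | cons l w ih =>
    intro ε hε
    refine ((h l _ (half_pos hε)).union ((ih _ (half_pos hε)).preimage
      (mul_left_injective (val nxt [l])).injOn)).subset fun g hg => ?_
    by_contra hc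
    simp only [Set.mem_union, Set.mem_preimage, Set.mem_ofPred_eq, not_or, not_le, sm] at hc hg
    have := abs_add_le (α g l) (sm α (g * val nxt [l]) w)
    linarith [hc.1, hc.2]

variable (ℓ x0 τ) (θ : Ω → S → ℝ)

open scoped Classical in
/-- the flux cochain on the first cell -/
noncomputable def th (p : Ω × Gam nxt) (l : S × Bool) : ℝ :=
  if Conn nxt (x0, 1) p then (if l.2 then θ p.1 l.1 else -θ (nex p l).1 l.1) else 0

/-- the cochain of a family of potentials -/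
noncomputable def al (f : Ω × Gam nxt → ℝ) (g : Gam nxt) (l : S × Bool) : ℝ :=
  f (nex (own τ x0 g l, g) l) - f (own τ x0 g l, g) + th x0 θ (own τ x0 g l, g) l

open scoped Classical in
/-- base point of a gate -/
noncomputable def bp (t : ℕ ×ₗ ℕ) : Ω × Gam nxt :=
  if h : ∃ q, τ q = t ∧ Gate τ q then h.choose else (x0, 1)

open scoped Classical in
/-- walk from the base point -/
noncomputable def gw (q : Ω × Gam nxt) : List (S × Bool) :=
  if h : ∃ w, Rd w ∧ w.length ≤ 5 * ℓ q.1 ∧ Wk (GS nxt τ) (bp x0 τ (τ q)) w q then h.choose else []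

/-- potential on the gate -/
noncomputable def ph (f : Ω × Gam nxt → ℝ) (q : Ω × Gam nxt) : ℝ :=
  sm (al x0 τ θ f) (bp x0 τ (τ q)).2 (gw ℓ x0 τ q)

/-- there is a walk of length `n` along new edges to the gate -/
def Rch (p : Ω × Gam nxt) (n : ℕ) : Prop :=
  ∃ q w, Gate τ q ∧ Wk (NS nxt τ) p w q ∧ w.length = n

/-- cut off -/
noncomputable def cut (d L : ℕ) : ℝ := max 0 (min 1 ((3 * L - d) / (2 * L)))

open scoped Classical in
/-- one step of the recursion -/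
noncomputable def st (p : Ω × Gam nxt) (f : Ω × Gam nxt → ℝ) : ℝ :=
  if h : ∃ q w, Gate τ q ∧ Wk (NS nxt τ) p w q ∧ w.length ≤ 3 * ℓ p.1 then
    ph ℓ x0 τ θ f h.choose * cut (sInf {n | Rch τ p n}) (ℓ p.1) else 0

theorem cut_one {d L : ℕ} (hL : 1 ≤ L) (h : d ≤ L) : cut d L = 1 := by
  have h1 : (1 : ℝ) ≤ L := by exact_mod_cast hL
  have h2 : (d : ℝ) ≤ L := by exact_mod_cast h
  rw [cut, min_eq_left ((one_le_div (by linarith)).2 (by linarith)), max_eq_right zero_le_one]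

theorem cut_zero {d L : ℕ} (h : 3 * L ≤ d) : cut d L = 0 := by
  have h2 : (3 * L : ℝ) ≤ d := by exact_mod_cast h
  exact max_eq_left ((min_le_right _ _).trans
    (div_nonpos_of_nonpos_of_nonneg (by linarith) (by positivity)))

theorem cut_lip {d d' L : ℕ} (hL : 1 ≤ L) (h : d ≤ d' + 1) (h' : d' ≤ d + 1) :
    |cut d' L - cut d L| ≤ 1 / (2 * L) := by
  have h1 : (1 : ℝ) ≤ L := by exact_mod_cast hL
  have h2 : (d : ℝ) ≤ d' + 1 := by exact_mod_cast h
  have h3 : (d' : ℝ) ≤ d + 1 := by exact_mod_cast h'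
  rw [cut, cut, max_comm 0, max_comm 0]
  refine (abs_max_sub_max_le_abs _ _ _).trans ((abs_min_sub_min_le_max _ _ _ _).trans
    (max_le (by simp) ?_))
  rw [← sub_div, abs_div, abs_of_pos (show (0 : ℝ) < 2 * L by linarith)]
  exact div_le_div_of_nonneg_right (abs_le.2 ⟨by linarith, by linarith⟩) (by linarith)

variable {ℓ x0 τ θ} (H : Hyp nxt ℓ x0 τ)
include H

theorem th_anti {p q : Ω × Gam nxt} {l : S × Bool} (h : CS nxt p l q) :
    th x0 θ q (iv l) = -th x0 θ p l := by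
  have e : Conn nxt (x0, 1) q ↔ Conn nxt (x0, 1) p := by
    rw [← H.O.eq_iff, ← H.O.eq_iff, tau_cs H h]
  obtain ⟨s, b⟩ := l
  rw [th, th, nex_eq h, nex_eq ((fold_CS H.hs).symm h)]
  by_cases hc : Conn nxt (x0, 1) p
  · rw [if_pos hc, if_pos (e.2 hc)]
    cases b <;> simp [iv]
  · rw [if_neg hc, if_neg (mt e.1 hc), neg_zero]

theorem al_ns (f : Ω × Gam nxt → ℝ) {p q : Ω × Gam nxt} {l : S × Bool} (h : NS nxt τ p l q) :
    al x0 τ θ f p.2 l = f q - f p + th x0 θ p l := by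
  rw [al, own_eq H h, nex_eq h.1]

theorem al_anti (f : Ω × Gam nxt → ℝ) (g : Gam nxt) (l : S × Bool) :
    al x0 τ θ f (g * val nxt [l]) (iv l) = -al x0 τ θ f g l := by
  have h := own_ns H g l
  have h1 := al_ns (θ := θ) H f ((fold_NS H.hs).symm h)
  rw [th_anti H h.1] at h1
  rw [al_ns H f h]
  exact h1.trans (by ring)

theorem gw_spec {q : Ω × Gam nxt} (hq : Gate τ q) : Rd (gw ℓ x0 τ q) ∧
    (gw ℓ x0 τ q).length ≤ 5 * ℓ q.1 ∧ Wk (GS nxt τ) (bp x0 τ (τ q)) (gw ℓ x0 τ q) q := by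
  have h1 : ∃ a, τ a = τ q ∧ Gate τ a := ⟨q, rfl, hq⟩
  have h2 : bp x0 τ (τ q) = h1.choose := dif_pos h1
  have h3 := gate_walk H h1.choose_spec.1 h1.choose_spec.2 hq
  rw [← ell_tau H h1.choose_spec.1, ← h2] at h3
  rw [gw, dif_pos h3]
  exact h3.choose_spec

theorem sm_congr {f f' : Ω × Gam nxt → ℝ} {p q : Ω × Gam nxt} {w : List (S × Bool)}
    (h : Wk (GS nxt τ) p w q) (e : ∀ a, τ a < τ q → f a = f' a) :
    sm (al x0 τ θ f) p.2 w = sm (al x0 τ θ f') p.2 w := by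
  induction h with
  | nil => rfl
  | @cons a b c l w h1 h2 ih =>
    have h3 : bt τ x0 a.2 l < τ c := by
      rw [tau_wk H (wk_GS h2), tau_cs H (GS_CS h1)]
      exact bt_lt H h1
    rw [sm, sm, ← h1.2.1, ih e, al, al, e _ h3, e _ ((tau_cs H (own_ns H a.2 l).1).trans_lt h3)]

theorem exists_fix (θ : Ω → S → ℝ) : ∃ f : Ω × Gam nxt → ℝ, ∀ p, f p = st ℓ x0 τ θ p f := by
  classical
  have wf : WellFounded (InvImage (· < ·) τ) := InvImage.wf _ wellFounded_lt
  let f : Ω × Gam nxt → ℝ := wf.fix (C := fun _ => ℝ) fun p r =>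
    st ℓ x0 τ θ p fun a => if h : τ a < τ p then r a h else 0
  refine ⟨f, fun p => ?_⟩
  have e : f p = st ℓ x0 τ θ p fun a => if τ a < τ p then f a else 0 := by
    refine (wf.fix_eq _ p).trans ?_
    simp only [dite_eq_ite, f]
  rw [e, st, st]
  split_ifs with h
  · obtain ⟨w, h1, h2, -⟩ := h.choose_spec
    rw [ph, ph, sm_congr H (gw_spec H h1).2.2 fun a ha => if_pos (tau_wk H (wk_NS h2) ▸ ha)]
  · rfl

variable {f : Ω × Gam nxt → ℝ} (hf : ∀ p, f p = st ℓ x0 τ θ p f)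
include hf

theorem f_eq {p q : Ω × Gam nxt} {w : List (S × Bool)} (hq : Gate τ q) (h : Wk (NS nxt τ) p w q)
    (hw : w.length ≤ 4 * ℓ p.1) :
    f p = ph ℓ x0 τ θ f q * cut (sInf {n | Rch τ p n}) (ℓ p.1) := by
  rw [hf, st]
  split_ifs with h1
  · obtain ⟨u, h2, h3, h4⟩ := h1.choose_spec
    rw [gate_eq H hq h2 ((h.rev (fold_NS H.hs)).append h3) (by
      rw [List.length_append, invRev_length, ell_tau H (tau_wk H (wk_NS h)).symm]; omega)]
  · obtain ⟨a, u, h2, h3, h4⟩ : Rch τ p (sInf {n | Rch τ p n}) :=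
      Nat.sInf_mem (s := {n | Rch τ p n}) ⟨_, q, w, hq, h, rfl⟩
    rw [cut_zero, mul_zero]
    by_contra hc
    exact h1 ⟨a, u, h2, h3, by omega⟩

theorem f_near {p q : Ω × Gam nxt} {w : List (S × Bool)} (hq : Gate τ q) (h : Wk (NS nxt τ) p w q)
    (hw : w.length ≤ ℓ p.1) : f p = ph ℓ x0 τ θ f q := by
  rw [f_eq H hf hq h (by omega), cut_one (H.hs.one_le _)
    ((Nat.sInf_le (s := {n | Rch τ p n}) ⟨q, w, hq, h, rfl⟩).trans hw), mul_one]

theorem f_first {p : Ω × Gam nxt} (h : Conn nxt (x0, 1) p) : f p = 0 := by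
  rw [hf, st, dif_neg]
  rintro ⟨q, w, h1, h2, -⟩
  exact not_first H h1 ((H.O.eq_iff _ _).1
    (((H.O.eq_iff _ _).2 h).trans (tau_wk H (wk_NS h2)).symm))

theorem f_lip0 {p p' q : Ω × Gam nxt} {l : S × Bool} {w : List (S × Bool)} (h : NS nxt τ p l p')
    (hq : Gate τ q) (hw : Wk (NS nxt τ) p w q) (hl : w.length ≤ 3 * ℓ p.1) :
    |f p' - f p| ≤ |ph ℓ x0 τ θ f q| / (2 * ℓ p.1) := by
  have e := ell_tau H (tau_cs H h.1).symm
  have h1 := H.hs.one_le p.1
  have h' := (fold_NS H.hs).symm h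
  have key : ∀ {a b : Ω × Gam nxt} {l : S × Bool}, NS nxt τ a l b → (∃ n, Rch τ b n) →
      sInf {n | Rch τ a n} ≤ sInf {n | Rch τ b n} + 1 := fun {a b l} hab hb => by
    obtain ⟨c, u, h2, h3, h4⟩ := Nat.sInf_mem (s := {n | Rch τ b n}) hb
    exact Nat.sInf_le (s := {n | Rch τ a n}) ⟨c, l :: u, h2, .cons hab h3, by simp [h4]⟩
  rw [f_eq H hf hq hw (by omega), f_eq H hf hq (.cons h' hw) (by simp; omega), ← mul_sub, abs_mul,
    e, div_eq_mul_one_div]
  exact mul_le_mul_of_nonneg_left (cut_lip h1 (key h ⟨_, q, _, hq, .cons h' hw, rfl⟩)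
    (key h' ⟨_, q, _, hq, hw, rfl⟩)) (abs_nonneg _)

theorem f_lip {p p' : Ω × Gam nxt} {l : S × Bool} (h : NS nxt τ p l p') : f p' - f p = 0 ∨
    ∃ q, Gate τ q ∧ τ q = τ p ∧ |f p' - f p| ≤ |ph ℓ x0 τ θ f q| / (2 * ℓ p.1) := by
  by_cases h1 : ∃ q w, Gate τ q ∧ Wk (NS nxt τ) p w q ∧ w.length ≤ 3 * ℓ p.1
  · obtain ⟨q, w, h2, h3, h4⟩ := h1
    exact Or.inr ⟨q, h2, tau_wk H (wk_NS h3), f_lip0 H hf h h2 h3 h4⟩
  by_cases h2 : ∃ q w, Gate τ q ∧ Wk (NS nxt τ) p' w q ∧ w.length ≤ 3 * ℓ p'.1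
  · obtain ⟨q, w, h3, h4, h5⟩ := h2
    refine Or.inr ⟨q, h3, (tau_wk H (wk_NS h4)).trans (tau_cs H h.1), ?_⟩
    rw [abs_sub_comm, ← ell_tau H (tau_cs H h.1).symm]
    exact f_lip0 H hf ((fold_NS H.hs).symm h) h3 h4 h5
  · left
    rw [hf p, hf p', st, st, dif_neg h1, dif_neg h2, sub_zero]

theorem al_gs {p q : Ω × Gam nxt} {l : S × Bool} (h : GS nxt τ p l q) :
    al x0 τ θ f p.2 l = f q - f p := by
  have e := tau_cs H (GS_CS h)
  obtain ⟨-, a2, a3⟩ := gw_spec H h.2.2.1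
  obtain ⟨-, b2, b3⟩ := gw_spec H h.2.2.2
  have h1 := H.hs.one_le p.1
  rw [f_near H hf h.2.2.1 (.nil _) (Nat.zero_le _), f_near H hf h.2.2.2 (.nil _) (Nat.zero_le _),
    ph, ph, e]
  rw [e] at b3
  rw [sm_mk (al_anti H f) _ (mk_eq H (wk_GS b3) (wk_GS (a3.snoc h)) (by
    rw [List.length_append, ← ell_tau H (tau_wk H (wk_GS a3)).symm]
    rw [ell_tau H e.symm] at b2
    simp only [List.length_singleton]
    omega)), sm_append, ← (wk_rd (wk_GS a3)).2]
  simp [sm]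

omit hf in
theorem tele {a b : Ω × Gam nxt} {u : List (S × Bool)} (h : Wk (NS nxt τ) a u b)
    (hb : Gate τ b ∨ Gate τ a) : sm (al x0 τ θ f) a.2 u = f b - f a := by
  have hb' : ¬ Conn nxt (x0, 1) b := hb.elim (not_first H) fun ha hc => not_first H ha
    ((H.O.eq_iff _ _).1 (((H.O.eq_iff _ _).2 hc).trans (tau_wk H (wk_NS h))))
  clear hb
  induction h with
  | nil => simp [sm]
  | @cons a b c l w h1 h2 ih =>
    have h3 : ¬ Conn nxt (x0, 1) a := fun hc => hb' ((H.O.eq_iff _ _).1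
      (((H.O.eq_iff _ _).2 hc).trans (tau_wk H (wk_NS (.cons h1 h2))).symm))
    rw [sm, ← h1.1.2, ih hb', al_ns H f h1, th, if_neg h3]
    ring

omit hf in
theorem run_len {p m : Ω × Gam nxt} {u : List (S × Bool)} {s : ℕ ×ₗ ℕ} {x y : Ω}
    (h : Wk (fun a l b => GS nxt τ a l b ∧ bt τ x0 a.2 l = s) p u m)
    (h' : Wk (NS nxt τ) (x, p.2) u (y, m.2)) (hr : Rd u) (hx : τ (x, p.2) < τ p) :
    u.length ≤ ℓ p.1 ∧ u.length ≤ ℓ x := by
  have h1 := wk_GS (h.mono fun _ _ _ h => h.1)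
  have h2 : p.1 ≠ x := fun e => by rw [← e] at hx; exact lt_irrefl _ hx
  exact ⟨piece H h1 (wk_NS h') hr h2, piece H (wk_NS h') h1 hr h2.symm⟩

theorem ascend (n : ℕ) : ∀ {p q : Ω × Gam nxt} {v : List (S × Bool)}, v.length ≤ n →
    Wk (GS nxt τ) p v q → Rd v → (∀ l v', v = l :: v' → ∃ x, τ (x, p.2) < bt τ x0 p.2 l) →
    sm (al x0 τ θ f) p.2 v = 0 := by
  induction n with
  | zero =>
    intro p q v hv _ _ _
    rw [List.length_eq_zero_iff.1 (Nat.le_zero.1 hv), sm]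
  | succ n ih =>
    intro p q v hv h hr h0
    rcases v with _ | ⟨l, v⟩
    · rfl
    have hg : Gate τ (own τ x0 p.2 l, p.2) := h0 l v rfl
    obtain ⟨b, hb, -⟩ := wk_cons.1 h
    obtain ⟨u, v', m, e, h1, h2, h3⟩ := split (x0 := x0) (bt τ x0 p.2 l) h
    have hu : u ≠ [] := by
      rintro rfl
      exact h3 l v e.symm (by rw [← wk_nil.1 h1])
    rw [e] at hr hv
    obtain ⟨y, hy⟩ := run H h1 _ rfl
    have h4 := (run_len H h1 hy hr.left' (bt_lt H hb)).2
    have h5 := tau_wk H (wk_NS hy)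
    rw [e, sm_append, ← (wk_rd (wk_GS (h1.mono fun _ _ _ h => h.1))).2, tele H hy (Or.inr hg),
      f_near H hf hg (hy.rev (fold_NS H.hs)) (by rw [invRev_length, ell_tau H h5.symm]; exact h4),
      f_near H hf hg (.nil _) (Nat.zero_le _), sub_self, zero_add]
    refine ih ?_ h2 hr.right' fun l' v'' e' => ⟨y, ?_⟩
    · have := List.length_pos_iff.2 hu
      rw [List.length_append] at hv
      omega
    · refine lt_of_le_of_ne (not_lt.1 fun hc => ?_) fun e'' => h3 l' v'' e' (e''.symm.trans h5)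
      have := long H hg (show Gate τ (y, m.2) from ⟨own τ x0 m.2 l', hc⟩) hy hr.left' hu
      have := H.hs.one_le (own τ x0 p.2 l)
      simp only at *
      omega

omit hf in
theorem run_max (α : Gam nxt → S × Bool → ℝ) {s : ℕ ×ₗ ℕ} {p m : Ω × Gam nxt}
    {u : List (S × Bool)} (h : Wk (fun a l b => GS nxt τ a l b ∧ bt τ x0 a.2 l = s) p u m) :
    sm α p.2 u = 0 ∨ ∃ a l, τ a = τ p ∧ bt τ x0 a.2 l = s ∧ |sm α p.2 u| ≤ |α a.2 l| * u.length := by
  induction h with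
  | nil => exact Or.inl rfl
  | @cons a b c l w h1 h2 ih =>
    right
    have h3 := abs_add_le (α a.2 l) (sm α b.2 w)
    have h4 : (0 : ℝ) ≤ w.length := Nat.cast_nonneg _
    have h5 := abs_nonneg (α a.2 l)
    rw [sm, ← h1.1.2.1, List.length_cons]
    push_cast
    rcases ih with e | ⟨a', l', e1, e2, e3⟩
    · refine ⟨a, l, rfl, h1.2, ?_⟩
      rw [e, add_zero]
      nlinarith
    · rcases le_total |α a.2 l| |α a'.2 l'| with h6 | h6
      · exact ⟨a', l', e1.trans (tau_cs H (GS_CS h1.1)), e2, by nlinarith⟩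
      · exact ⟨a, l, rfl, h1.2, by nlinarith⟩

theorem valley (n : ℕ) : ∀ {p q : Ω × Gam nxt} {v : List (S × Bool)}, v.length ≤ n →
    Wk (GS nxt τ) p v q → Rd v → sm (al x0 τ θ f) p.2 v = 0 ∨
    ∃ a l, ∃ k : ℕ, τ a = τ p ∧ bt τ x0 a.2 l < τ p ∧ k ≤ ℓ p.1 ∧ k ≤ ℓ (own τ x0 a.2 l) ∧
      |sm (al x0 τ θ f) p.2 v| ≤ |al x0 τ θ f a.2 l| * k := by
  induction n with
  | zero =>
    intro p q v hv _ _
    rw [List.length_eq_zero_iff.1 (Nat.le_zero.1 hv)]
    exact Or.inl rfl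
  | succ n ih =>
    intro p q v hv h hr
    rcases v with _ | ⟨l, v⟩
    · exact Or.inl rfl
    obtain ⟨b, hb, -⟩ := wk_cons.1 h
    obtain ⟨u, v', m, e, h1, h2, h3⟩ := split (x0 := x0) (bt τ x0 p.2 l) h
    have hu : u ≠ [] := by
      rintro rfl
      exact h3 l v e.symm (by rw [← wk_nil.1 h1])
    rw [e] at hr hv
    obtain ⟨y, hy⟩ := run H h1 _ rfl
    have h4 := run_len H h1 hy hr.left' (bt_lt H hb)
    have h5 := tau_wk H (wk_NS hy)
    have h6 := wk_GS (h1.mono fun _ _ _ h => h.1)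
    rw [e, sm_append, ← (wk_rd h6).2]
    by_cases hg : Gate τ (y, m.2)
    · rw [tele H hy (Or.inl hg), f_near H hf hg hy h4.2, f_near H hf hg (.nil _) (Nat.zero_le _),
        sub_self, zero_add, ← tau_wk H h6, ← ell_tau H (tau_wk H h6).symm]
      refine ih ?_ h2 hr.right'
      have := List.length_pos_iff.2 hu
      rw [List.length_append] at hv
      omega
    · rw [ascend H hf _ le_rfl h2 hr.right' fun l' v'' e' => ⟨y, lt_of_le_of_ne
        (not_lt.1 fun hc => hg ⟨_, hc⟩) fun e'' => h3 l' v'' e' (e''.symm.trans h5)⟩, add_zero]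
      refine (run_max H _ h1).imp_right fun ⟨a, l', e1, e2, e3⟩ =>
        ⟨a, l', _, e1, e2 ▸ bt_lt H hb, h4.1, ?_, e3⟩
      rw [show ℓ (own τ x0 a.2 l') = ℓ (own τ x0 p.2 l) from ell_tau H e2.symm]
      exact h4.2

theorem parent (g : Gam nxt) (l : S × Bool) (h : ¬ Conn nxt (x0, 1) (own τ x0 g l, g)) :
    al x0 τ θ f g l = 0 ∨ ∃ a l', τ a = bt τ x0 g l ∧ bt τ x0 a.2 l' < bt τ x0 g l ∧
      2 * |al x0 τ θ f g l| ≤ |al x0 τ θ f a.2 l'| ∧
      2 * ℓ a.1 * |al x0 τ θ f g l| ≤ |al x0 τ θ f a.2 l'| * ℓ (own τ x0 a.2 l') := by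
  have h1 := own_ns H g l
  have h2 : al x0 τ θ f g l = f (nex (own τ x0 g l, g) l) - f (own τ x0 g l, g) := by
    rw [al, th, if_neg h, add_zero]
  rcases f_lip H hf h1 with e | ⟨q, h3, h4, h5⟩
  · exact Or.inl (h2.trans e)
  obtain ⟨a1, -, a3⟩ := gw_spec H h3
  have h6 := tau_wk H (wk_GS a3)
  rw [← h2, ph] at h5
  rcases valley H hf _ le_rfl a3 a1 with e | ⟨a, l', k, b1, b2, b3, b4, b5⟩
  · rw [e, abs_zero, zero_div] at h5
    exact Or.inl (abs_nonpos_iff.1 h5)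
  have e1 : τ a = τ (own τ x0 g l, g) := b1.trans (h6.symm.trans h4)
  rw [← ell_tau H b1.symm] at b3
  rw [← ell_tau H e1.symm] at h5
  have c1 : (1 : ℝ) ≤ ℓ a.1 := by exact_mod_cast H.hs.one_le a.1
  have c2 : (k : ℝ) ≤ ℓ a.1 := by exact_mod_cast b3
  have c3 : (k : ℝ) ≤ ℓ (own τ x0 a.2 l') := by exact_mod_cast b4
  rw [le_div_iff₀ (by linarith)] at h5
  have c4 := abs_nonneg (al x0 τ θ f a.2 l')
  refine Or.inr ⟨a, l', e1, b2.trans_eq (h6.symm.trans h4), ?_, by nlinarith⟩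
  refine le_of_mul_le_mul_right ?_ (show (0 : ℝ) < ℓ a.1 by linarith)
  nlinarith

theorem al_le (hθ : ∀ x s, |θ x s| ≤ 1) (t : ℕ ×ₗ ℕ) :
    ∀ g l, bt τ x0 g l = t → |al x0 τ θ f g l| ≤ 1 := by
  induction t using WellFoundedLT.induction with
  | ind t ih =>
    rintro g l rfl
    by_cases h : Conn nxt (x0, 1) (own τ x0 g l, g)
    · rw [al, f_first H hf h, f_first H hf ((H.O.eq_iff _ _).1 (((H.O.eq_iff _ _).2 h).trans
        (tau_cs H (own_ns H g l).1).symm)), sub_self, zero_add, th, if_pos h]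
      split_ifs
      · exact hθ _ _
      · rw [abs_neg]; exact hθ _ _
    · rcases parent H hf g l h with e | ⟨a, l', -, b2, b3, -⟩
      · rw [e, abs_zero]; exact zero_le_one
      · linarith [ih _ b2 _ _ rfl, abs_nonneg (al x0 τ θ f g l)]

omit hf in
theorem darts_fin [Finite S] (a : Ω × Gam nxt) :
    {d : Gam nxt × (S × Bool) | bt τ x0 d.1 d.2 = τ a}.Finite :=
  (((cell_fin H a).image Prod.snd).prod Set.finite_univ).subset fun _ hd =>
    ⟨⟨_, hd, rfl⟩, trivial⟩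

theorem al_fin [Finite S] (hθ : ∀ x s, |θ x s| ≤ 1) (k : ℕ) :
    {d : Gam nxt × (S × Bool) | 1 < 2 ^ k * |al x0 τ θ f d.1 d.2|}.Finite := by
  induction k with
  | zero =>
    refine Set.finite_empty.subset fun d hd => ?_
    have := al_le H hf hθ _ d.1 d.2 rfl
    simp only [pow_zero, one_mul, Set.mem_ofPred_eq] at hd
    linarith
  | succ k ih =>
    refine ((darts_fin H (x0, 1)).union (ih.biUnion fun d' _ =>
      (H.fin (2 ^ k * ℓ (own τ x0 d'.1 d'.2))).biUnion fun y _ =>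
        darts_fin H (y, d'.1))).subset fun d hd => ?_
    simp only [Set.mem_ofPred_eq, pow_succ] at hd
    by_cases h : Conn nxt (x0, 1) (own τ x0 d.1 d.2, d.1)
    · exact Or.inl ((H.O.eq_iff _ _).2 h).symm
    rcases parent H hf d.1 d.2 h with e | ⟨a, l', b1, -, b3, b4⟩
    · rw [e, abs_zero, mul_zero] at hd
      linarith
    have c0 : (0 : ℝ) < 2 ^ k := by positivity
    have c1 := al_le H hf hθ _ a.2 l' rfl
    have c2 : (0 : ℝ) ≤ ℓ (own τ x0 a.2 l') := Nat.cast_nonneg _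
    have c3 : (0 : ℝ) ≤ ℓ a.1 := Nat.cast_nonneg _
    refine Or.inr (Set.mem_biUnion (x := (a.2, l')) ?_ (Set.mem_biUnion (x := a.1) ?_ b1.symm))
    · simp only [Set.mem_ofPred_eq]
      nlinarith
    · have c4 : (ℓ a.1 : ℝ) ≤ 2 ^ k * ℓ (own τ x0 a.2 l') := by
        have c5 : 2 * ℓ a.1 * |al x0 τ θ f d.1 d.2| ≤ ℓ (own τ x0 a.2 l') := by nlinarith
        nlinarith
      simp only [Set.mem_ofPred_eq]
      exact_mod_cast c4

end Pool.Agent.Lib.MZ.Flux

namespace Pool.Agent.Lib.MZ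

open Flux Pool.Agent.Lib.IT FreeGroup

theorem stFLUX : St_FLUX := by
  intro S Ω _ nxt ℓ x0 τ h1 h2 h3 h4 h5 θ hθ
  have H : Hyp nxt ℓ x0 τ := ⟨h1, h2, h3, h4, h5⟩
  obtain ⟨f, hf⟩ := exists_fix H θ
  refine ⟨cc _ (al_anti (θ := θ) H f), f, ⟨fun z r r' => ?_, fun r => ?_⟩, fun x y g s h => ?_⟩
  · obtain ⟨u, rfl⟩ := Quot.exists_rep r
    obtain ⟨w, rfl⟩ := Quot.exists_rep r'
    have e : FreeGroup.lift (PresentedGroup.of (rels := rels nxt)) = PresentedGroup.mk _ := by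
      ext s; exact FreeGroup.lift_apply_of
    rw [e]
    exact sm_append _ u w z
  · obtain ⟨w, rfl⟩ := Quot.exists_rep r
    refine sm_fin (fun l ε hε => ?_) w
    obtain ⟨k, hk⟩ := pow_unbounded_of_one_lt (1 / ε) (one_lt_two (α := ℝ))
    rw [div_lt_iff₀ hε] at hk
    refine ((al_fin H hf hθ k).image Prod.fst).subset fun g hg => ⟨(g, l), ?_, rfl⟩
    exact hk.trans_le (mul_le_mul_of_nonneg_left hg (by positivity))
  · have e : cc _ (al_anti (θ := θ) H f) g (.of s) = al x0 τ θ f g (s, true) := add_zero _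
    have hc : CS nxt (x, g) (s, true) (y, g * PresentedGroup.of s) := ⟨h, rfl⟩
    rw [e]
    by_cases hg : Gate τ (x, g) ∧ Gate τ (y, g * PresentedGroup.of s)
    · rw [if_neg (not_first H hg.1)]
      exact al_gs H hf ⟨h, rfl, hg⟩
    · rw [al_ns H f ⟨hc, hg⟩, th]
      split_ifs with h6 h7
      · rw [f_first H hf h6, f_first H hf ((h4.eq_iff _ _).1 (((h4.eq_iff _ _).2 h6).trans
          (tau_cs H hc).symm)), sub_self, zero_add]
      · exact absurd rfl h7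
      · exact add_zero _

end Pool.Agent.Lib.MZ
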