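import Pool.Agent.Lib.IT.G0
import Pool.Agent.Lib.IT.GK
import Pool.Agent.Lib.IT.GM
import Pool.Agent.Lib.IT.G3

/-! GEO+: the birth order, with short walks inside the gates. -/

namespace Pool.Agent.Lib.IT.Geo

open Pool.Agent.Lib.MP_f40e16_al FreeGroup Raw

variable {S Ω : Type} {nxt : Ω → S × Bool → Option Ω} {ℓ : Ω → ℕ} {x0 : Ω}

/-- two gate points of a copy are joined by a short reduced walk that stays inside the gate -/
def GateIn (nxt : Ω → S × Bool → Option Ω) (ℓ : Ω → ℕ) (τ : Ω × Gam nxt → ℕ ×ₗ ℕ) : Prop :=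
  ∀ p q, Conn nxt p q → Gate τ p → Gate τ q → ∃ w, IsReduced w ∧ w.length ≤ 5 * ℓ p.1 ∧
    rd nxt p.1 w = some q.1 ∧
    ∀ u v y, w = u ++ v → rd nxt p.1 u = some y → Gate τ (y, p.2 * val nxt u)

/-- the same in the abstract model -/
def DiamIn (M : Model nxt ℓ x0) : Prop :=
  ∀ s y z, Cp nxt (M.bx s) y → Cp nxt (M.bx s) z → M.Gt s y → M.Gt s z →
    ∃ w, IsReduced w ∧ w.length ≤ 5 * ℓ y ∧ Wk (XD nxt) y w z ∧
      ∀ u v a, w = u ++ v → Wk (XD nxt) y u a → M.Gt s a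

open GM in
theorem exists_modelP {R : Raw Ω} (hs : Small nxt ℓ) (hR : R.Sys nxt x0)
    (hG : ∀ t, R.Ex t → R.Good nxt ℓ t) : ∃ M : Model nxt ℓ x0, DiamIn M := by
  have hB : ∀ T, GB nxt ℓ R T := fun T t _ => hG t
  refine ⟨{
    Z := {u // ∃ T, R.Alive nxt T u}
    o := ⟨.root, toLex (0, 0), Or.inl rfl⟩
    T := {s // R.Ex s}
    tm := fun s => R.tm s.1
    bx := fun s => s.1.2
    ι := io nxt R
    ψ := fun u => psi nxt u.1
    t0 := ⟨_, ex_root hR⟩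
    tm_inj := fun s t h => Subtype.ext (tm_inj hR h)
    inj := fun s y y' h h' e => cell_inj hR s.2 (hG _ s.2) ((io_eq h h').1 e)
    fold := fun s s' y y' l z z' h h' e d d' => ?_
    uniq := fun s s' y h h' e => ?_
    compl := fun u x => ?_
    first := fun s => first hR s.1
    root := ⟨Cp.refl _, Subtype.ext ((io_val (s := ⟨_, ex_root hR⟩) (Cp.refl _)).trans
      (phi_root (hG _ (ex_root hR))))⟩
    psi_o := rfl
    psi_step := fun s y l z h d => ?_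
    conn := fun u => conn hR hG u.1 u.2
    Gt := fun s y => R.In nxt s.1 y ∧ s.1 ≠ (.root, x0)
    gt_iff := fun s y h => ⟨fun hi => ?_, ?_⟩
    old := fun s y l z h d hy hz => ?_
    one := fun s y l l' z z' h hy d d' hz hz' => ?_
    diam := fun s y z _ _ hy hz => ?_ }, fun s y z _ _ hy hz => ?_⟩
  · obtain ⟨T, hT⟩ := exists_gt (max (R.tm s.1) (R.tm s'.1))
    rw [io_eq h h'] at e
    exact (io_eq (h.step d) (h'.step d')).2 ((fold_dart hs hR (hB T)).func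
      ⟨s.1, y, z, (le_max_left _ _).trans_lt hT, s.2, h, d, rfl, rfl⟩
      ⟨s'.1, y', z', (le_max_right _ _).trans_lt hT, s'.2, h', d', e.symm, rfl⟩)
  · rw [io_eq h h'] at e
    exact Subtype.ext (tm_inj hR (le_antisymm (not_lt.1 (uniq_lt hs hR hG s'.2 s.2 h' e.symm))
      (not_lt.1 (uniq_lt hs hR hG s.2 s'.2 h e))))
  · obtain ⟨u, T, hT⟩ := u
    by_cases h : R.Sat nxt (R.tm (u, x)) (u, x)
    · obtain ⟨s, -, h2, h3, h4⟩ := h
      exact ⟨⟨s, h2⟩, h3, Subtype.ext ((io_val (s := ⟨s, h2⟩) h3).trans h4)⟩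
    · have h1 : R.Ex (u, x) := by
        refine (hR.ex_iff _).2 ⟨?_, h⟩
        rcases owner hR hT with h2 | ⟨s, y, -, h2, h3, -, h5, h6⟩
        · exact Or.inl h2
        · exact Or.inr ⟨s, y, h6 ▸ R.beta_lt_of_gen (u := u) (v := .node u x x) (Nat.lt_succ_self _),
            h2, h3, h5⟩
      exact ⟨⟨_, h1⟩, Cp.refl _, Subtype.ext ((io_val (s := ⟨_, h1⟩) (Cp.refl _)).trans
        (phi_root (hG _ h1)))⟩
  · obtain ⟨w, hw⟩ := id h
    simp only [io_val h, io_val (h.step d)]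
    rw [psi_cell hs hR s.1 hw, psi_cell hs hR s.1 (hw.snoc d), val_append, mul_assoc]
  · rcases (hR.phi_in _ y hi.1).alive hR s.2 with h1 | ⟨s', y', h1, h2, h3, h4⟩
    · exact ⟨⟨_, ex_root hR⟩, x0, (first hR _).lt_of_ne fun e => hi.2 (tm_inj hR e).symm, Cp.refl _,
        (io_eq (s := ⟨_, ex_root hR⟩) (Cp.refl _) h).2
          ((phi_root (hG _ (ex_root hR))).trans h1.symm)⟩
    · exact ⟨⟨s', h2⟩, y', h1, h3, (io_eq (s := ⟨s', h2⟩) h3 h).2 h4⟩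
  · rintro ⟨s', y', h1, h2, h3⟩
    rw [io_eq h2 h] at h3
    refine ⟨?_, fun e => (first hR s'.1).not_gt (e ▸ h1)⟩
    rw [← beta_lt_iff hR s.2, ← h3]
    exact (beta_le hR s'.2 y').trans_lt h1
  · obtain ⟨s', y', z', h1, h2, h3, h4, h5, -⟩ := gate_dart hs hR (hB _) (hG _ s.2) hy.1 hz.1 d
    exact ⟨⟨s', h2⟩, y', z', h1, h3, h4, (io_eq (s := ⟨s', h2⟩) h3 h).2 h5⟩
  · have h1 : ¬ R.In nxt s.1 y := fun h1 => hy ⟨h1, hz.2⟩
    have := desc_uniq hs hR (hB _) (hG _ s.2) (Desc.last d h1 hz.1) (Desc.last d' h1 hz'.1)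
      IsReduced.singleton IsReduced.singleton (hs.one_le y) (hs.one_le y)
    simpa using this
  · obtain ⟨w, -, h1, h2⟩ := gate_word hs hR (hB _) (hG _ s.2) hy.1 hz.1
    exact ⟨w, h1, pd_xd h2⟩
  · obtain ⟨w, h0, h1, h2⟩ := gate_word hs hR (hB _) (hG _ s.2) hy.1 hz.1
    refine ⟨w, h0, h1, pd_xd h2, ?_⟩
    rintro u v a rfl ha
    obtain ⟨b, hb, -⟩ := wk_append.1 h2
    have e : b.2 = a := (pd_xd hb).func (fold_xd hs) ha
    exact ⟨⟨b.1, e ▸ (hR.phi_in s.1 y hy.1).walk hb⟩, hy.2⟩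

open G3 in
theorem order_of_modelP (hs : Small nxt ℓ) (M : Model nxt ℓ x0) (hM : DiamIn M) :
    ∃ τ, Order nxt ℓ x0 τ ∧ GateIn nxt ℓ τ := by
  obtain ⟨θ, hθ, h1, hw⟩ := exists_theta hs M
  choose c hc hc' using fun p : Ω × Gam nxt => M.compl (θ p.2) p.1
  have ceq : ∀ {s x g}, Cp nxt (M.bx s) x → M.ι s x = θ g → c (x, g) = s := fun {s x g} h h' =>
    M.uniq _ _ x (hc (x, g)) h ((hc' (x, g)).trans h'.symm)
  have mv : ∀ {x y g w}, Wk (XD nxt) x w y → M.ι (c (x, g)) y = θ (g * val nxt w) :=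
    fun {x y g w} h => (hc' (x, g) ▸ img M (hc (x, g)) h).func (fold_MD hs M) (hw g w)
  have mv' : ∀ {x y g w}, Wk (XD nxt) x w y → c (y, g * val nxt w) = c (x, g) :=
    fun {x y g w} h => ceq (cp_walk (hc (x, g)) h) (mv h)
  have conn : ∀ p q, c p = c q ↔ Conn nxt p q := by
    rintro ⟨x, g⟩ ⟨y, g'⟩
    constructor
    · intro h
      obtain ⟨w, h2⟩ := hc (x, g)
      obtain ⟨w', h3⟩ := hc (y, g')
      rw [← h] at h3
      have h4 := (h2.rev (fold_XD hs)).append h3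
      exact ⟨_, (wk_iff_rd _ _ _ _).1 h4, hθ ((hc' (y, g')).symm.trans (h ▸ mv h4))⟩
    · rintro ⟨w, h2, h3⟩
      obtain rfl : g' = g * val nxt w := h3
      exact (mv' ((wk_iff_rd _ _ _ _).2 h2)).symm
  have gate : ∀ p, Gate (fun p => M.tm (c p)) p ↔ M.Gt (c p) p.1 := fun p => by
    rw [M.gt_iff _ _ (hc p)]
    constructor
    · rintro ⟨x, hx⟩
      exact ⟨_, x, hx, hc (x, p.2), (hc' (x, p.2)).trans (hc' p).symm⟩
    · rintro ⟨s, y, h2, h3, h4⟩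
      exact ⟨y, by simpa only [ceq h3 (h4.trans (hc' p))] using h2⟩
  refine ⟨fun p => M.tm (c p), ⟨fun p q => M.tm_inj.eq_iff.trans (conn p q), fun x y g h => ?_,
    fun p => ?_, fun x y g l h h2 h3 => ?_, fun x g l l' y y' h2 h h' h3 h4 => ?_,
    fun p q h h2 h3 => ?_⟩, fun p q h h2 h3 => ?_⟩
  · have h2 := (conn _ _).2 h
    exact M.inj _ x y (hc (x, g)) (h2 ▸ hc (y, g)) ((hc' (x, g)).trans (h2 ▸ (hc' (y, g)).symm))
  · simpa only [ceq M.root.1 (M.root.2.trans h1.symm)] using M.first (c p)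
  · rw [gate] at h2 h3
    rw [mv' (wk_single.2 h)] at h3
    obtain ⟨s, y', z', h4, h5, h6, h7⟩ := M.old _ x l y (hc (x, g)) h h2 h3
    exact ⟨y', Option.isSome_iff_exists.2 ⟨_, h6⟩,
      by simpa only [ceq h5 (h7.trans (hc' (x, g)))] using h4⟩
  · rw [gate] at h2 h3 h4
    rw [mv' (wk_single.2 h)] at h3
    rw [mv' (wk_single.2 h')] at h4
    exact M.one _ x l l' y y' (hc (x, g)) h2 h h' h3 h4
  · rw [gate] at h2 h3
    have h4 := (conn _ _).2 h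
    obtain ⟨w, h5, h6⟩ := M.diam _ p.1 q.1 (hc p) (h4 ▸ hc q) h2 (h4 ▸ h3)
    exact ⟨w, h5, (wk_iff_rd _ _ _ _).1 h6⟩
  · rw [gate] at h2 h3
    have h4 := (conn _ _).2 h
    obtain ⟨w, h0, h5, h6, h7⟩ := hM _ p.1 q.1 (hc p) (h4 ▸ hc q) h2 (h4 ▸ h3)
    refine ⟨w, h0, h5, (wk_iff_rd _ _ _ _).1 h6, fun u v y e hu => ?_⟩
    have h8 := (wk_iff_rd _ _ _ _).2 hu
    rw [gate, mv' (g := p.2) h8]
    exact h7 u v y e h8

theorem stGEOP (S Ω : Type) [Countable Ω] (nxt : Ω → S × Bool → Option Ω) (ℓ : Ω → ℕ)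
    (hs : Small nxt ℓ) (x0 : Ω) : ∃ τ, Order nxt ℓ x0 τ ∧ GateIn nxt ℓ τ := by
  obtain ⟨R, hR⟩ := stG0 S Ω nxt x0
  obtain ⟨M, hM⟩ := exists_modelP hs hR (stGK S Ω nxt ℓ x0 R hs hR)
  exact order_of_modelP hs M hM

end Pool.Agent.Lib.IT.Geo
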