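import Pool.Agent.Lib.MZ.Blue
import Pool.Agent.Lib.MZ.GeoP

/-! Block GEO2: birth order with connected gates. -/

namespace Pool.Agent.Lib.MZ

open Pool.Agent.Lib.IT Pool.Agent.Lib.IT.Geo
open Pool.Agent.Lib.MP_f40e16_al (Wk)

theorem wk_gs {S Ω : Type} {nxt : Ω → S × Bool → Option Ω} {τ : Ω × Gam nxt → ℕ ×ₗ ℕ}
    {w : List (S × Bool)} : ∀ {x y : Ω} {g : Gam nxt}, rd nxt x w = some y →
    (∀ u v z, w = u ++ v → rd nxt x u = some z → Gate τ (z, g * val nxt u)) →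
    Wk (GS nxt τ) (x, g) w (y, g * val nxt w) := by
  induction w with
  | nil =>
    intro x y g h _
    obtain rfl : x = y := by simpa [rd] using h
    rw [BIR.val_nil, mul_one]
    exact Wk.nil _
  | cons l w ih =>
    intro x y g h hg
    obtain ⟨z, h1, h2⟩ := BIR.rd_cons.1 h
    have h3 := hg [] _ x rfl rfl
    rw [BIR.val_nil, mul_one] at h3
    have h4 := hg [l] w z rfl (BIR.rd_cons.2 ⟨z, h1, rfl⟩)
    rw [BIR.val_cons l w, ← mul_assoc]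
    refine Wk.cons (b := (z, g * val nxt [l])) ⟨h1, rfl, h3, h4⟩ (ih h2 fun u v z' e hu => ?_)
    rw [mul_assoc, ← BIR.val_cons]
    exact hg (l :: u) v z' (by rw [e]; rfl) (BIR.rd_cons.2 ⟨z, h1, hu⟩)

theorem stGEO2 : St_GEO2 := by
  intro S Ω _ nxt ℓ hs x0
  obtain ⟨τ, O, h⟩ := stGEOP S Ω nxt ℓ hs x0
  refine ⟨τ, O, fun p q hc hp hq => ?_⟩
  obtain ⟨w, -, h1, h2, h3⟩ := h p q hc hp hq
  obtain ⟨w', k1, k2⟩ := hc
  refine ⟨w, h1, ?_⟩
  have := wk_gs h2 h3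
  rwa [BIR.val_eq hs.symm h2 k1, ← k2] at this

end Pool.Agent.Lib.MZ
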