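import Pool.Agent.Lib.MZ.Blue

/-! Block HOL: holonomy of closed words. -/

namespace Pool.Agent.Lib.MZ

open Pool.Agent.Lib.IT Filter

namespace HOL

section Cocy
variable {S Γ : Type} [Group Γ] {gen : S → Γ} {c : Γ → FreeGroup S → ℝ}

theorem c_one (h : Cocy gen c) (z : Γ) : c z 1 = 0 := by
  have := h.mul z 1 1
  simpa using this

theorem c_inv (h : Cocy gen c) (z : Γ) (r : FreeGroup S) :
    c (z * FreeGroup.lift gen r) r⁻¹ = -c z r := by
  have := h.mul z r r⁻¹
  rw [mul_inv_cancel, c_one h] at this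
  linarith

/-- relations whose holonomy lies in `A` -/
def NS (h : Cocy gen c) (A : AddSubgroup ℝ) : Subgroup (FreeGroup S) where
  carrier := {r | FreeGroup.lift gen r = 1 ∧ ∀ z, c z r ∈ A}
  one_mem' := ⟨map_one _, fun z => c_one h z ▸ A.zero_mem⟩
  mul_mem' := fun ha hb => ⟨by rw [map_mul, ha.1, hb.1, one_mul], fun z => by
    rw [h.mul]; exact A.add_mem (ha.2 _) (hb.2 _)⟩
  inv_mem' := fun {r} ha => ⟨by rw [map_inv, ha.1, inv_one], fun z => by
    have := c_inv h z r
    rw [ha.1, mul_one] at this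
    rw [this]; exact A.neg_mem (ha.2 z)⟩

instance (h : Cocy gen c) (A : AddSubgroup ℝ) : (NS h A).Normal :=
  ⟨fun r hr g => ⟨by simp [hr.1], fun z => by
    rw [h.mul, h.mul, map_mul, hr.1, mul_one, c_inv h, add_assoc, add_comm (c _ r), ← add_assoc,
      add_neg_cancel, zero_add]
    exact hr.2 _⟩⟩

end Cocy

variable {C W : Type} [Fintype C] [AddCommGroup W] {D : Data C W} {Γ : Type} [Group Γ]
  {gen : C × W → Γ} {m : ℕ} {ι : Fin (D.N m) → Γ} {c : Γ → FreeGroup (C × W) → ℝ}

theorem mk_false {S : Type} (s : S) : FreeGroup.mk [(s, false)] = (FreeGroup.of s)⁻¹ := rfl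

theorem mk_true {S : Type} (s : S) : FreeGroup.mk [(s, true)] = FreeGroup.of s := rfl

theorem copy_step (h : IsCopy D gen m ι) (a : Fin (D.N m)) (l : C × Bool) :
    ι a * FreeGroup.lift gen (FreeGroup.mk [((l.1, D.y m (edge (D.π m) a l)), l.2)]) =
      ι (step (D.π m) a l) := by
  obtain ⟨k, _ | _⟩ := l
  · have := h ((D.π m k).symm a) k
    rw [Equiv.apply_symm_apply] at this
    simp [mk_false, edge, step, this]
  · simp [mk_true, edge, step, h a k]

theorem copy_walk (h : IsCopy D gen m ι) (a : Fin (D.N m)) (w : List (C × Bool)) :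
    ι a * FreeGroup.lift gen (wd D m a w) = ι (walk (D.π m) a w) := by
  induction w generalizing a with
  | nil => simp [wd, walk]
  | cons l w ih => rw [wd, map_mul, ← mul_assoc, copy_step h, ih]; rfl

theorem c_step (hc : Cocy gen c) (h : IsCopy D gen m ι) {φ : Fin (D.N m) × C → ℝ}
    (hφ : ∀ e, c (ι e.1) (.of (e.2, D.y m e)) = φ e) (a : Fin (D.N m)) (l : C × Bool) :
    c (ι a) (FreeGroup.mk [((l.1, D.y m (edge (D.π m) a l)), l.2)]) =
      if l.2 then φ (edge (D.π m) a l) else -φ (edge (D.π m) a l) := by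
  obtain ⟨k, _ | _⟩ := l
  · have := h ((D.π m k).symm a) k
    rw [Equiv.apply_symm_apply] at this
    simp only [mk_false, edge, Bool.false_eq_true, if_false]
    rw [← hφ, ← c_inv hc, FreeGroup.lift_apply_of, ← this]
  · exact hφ (a, k)

theorem c_exact (hc : Cocy gen c) (h : IsCopy D gen m ι) {f : Fin (D.N m) → ℝ}
    (hf : ∀ e : Fin (D.N m) × C, c (ι e.1) (.of (e.2, D.y m e)) = f (D.π m e.2 e.1) - f e.1)
    (a : Fin (D.N m)) (w : List (C × Bool)) :
    c (ι a) (wd D m a w) = f (walk (D.π m) a w) - f a := by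
  induction w generalizing a with
  | nil => simp [wd, walk, c_one hc]
  | cons l w ih =>
    rw [wd, hc.mul, copy_step h, ih, c_step hc h hf]
    obtain ⟨k, _ | _⟩ := l <;> simp [edge, step, walk]

variable {θ : ∀ n, Fin (D.N n) × C → ZMod 2} (M : Mon D θ gen)

theorem copy0 (m : ℕ) : IsCopy D gen m (M.ι0 m) :=
  (M.first m).elim fun t ht => (M.B m).hom t m _ ht.1

theorem c_base (m : ℕ) (a : Fin (D.N m)) (w : List (C × Bool)) : ∃ k : ℤ,
    M.c m (M.ι0 m a) (wd D m a w) = k ∧ (k : ZMod 2) = (lab (D.π m) (θ m) a w).sum := by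
  induction w generalizing a with
  | nil => exact ⟨0, by simp [wd, c_one (M.cocy m)], by simp [lab]⟩
  | cons l w ih =>
    obtain ⟨k, h1, h2⟩ := ih (step (D.π m) a l)
    rw [wd, (M.cocy m).mul, copy_step (copy0 M m), h1, c_step (M.cocy m) (copy0 M m) (M.base m),
      lab, List.sum_cons, ← h2]
    split_ifs
    · exact ⟨(θ m (edge (D.π m) a l)).val + k, by simp, by simp⟩
    · exact ⟨-(θ m (edge (D.π m) a l)).val + k, by simp, by simp⟩

theorem c_closed {m : ℕ} {a : Fin (D.N m)} {w : List (C × Bool)} (h : walk (D.π m) a w = a)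
    (n : ℕ) (z : Γ) : M.c n z (wd D m a w) = 0 ∨
      (n = m ∧ M.c n z (wd D m a w) = M.c m (M.ι0 m a) (wd D m a w)) := by
  have h1 : IsCopy D gen m fun b => z * (M.ι0 m a)⁻¹ * M.ι0 m b := fun b k => by
    simp only [copy0 M m b k, mul_assoc]
  by_cases h2 : (⟨m, fun b => z * (M.ι0 m a)⁻¹ * M.ι0 m b⟩ : Σ m, Fin (D.N m) → Γ) = ⟨n, M.ι0 n⟩
  · obtain rfl : m = n := congrArg Sigma.fst h2
    have h3 := congrFun (eq_of_heq (Sigma.mk.inj h2).2) a
    rw [inv_mul_cancel_right] at h3
    exact Or.inr ⟨rfl, by rw [h3]⟩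
  · obtain ⟨f, hf⟩ := M.other n m _ h1 h2
    have h3 := c_exact (M.cocy n) h1 hf a w
    rw [inv_mul_cancel_right, h, sub_self] at h3
    exact Or.inl h3

include M in
theorem lift_closed {m : ℕ} {a : Fin (D.N m)} {w : List (C × Bool)} (h : walk (D.π m) a w = a) :
    FreeGroup.lift gen (wd D m a w) = 1 := by
  have := copy_walk (copy0 M m) a w
  rwa [h, mul_eq_left] at this

end HOL

open HOL in
theorem stHOL : St_HOL := by
  intro C W _ _ D θ Γ _ gen M
  refine ⟨fun m ι h => copy_walk h, c_base M, fun m a w h n z => (c_closed M h n z).imp_right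
    And.right, fun r hr n z => ?_, fun r hr => ?_⟩
  · have h1 : Subgroup.normalClosure (Rel D Set.univ) ≤ NS (M.cocy n) (.zmultiples 1) := by
      refine Subgroup.normalClosure_le_normal ?_
      rintro _ ⟨m, -, a, w, h, rfl⟩
      refine ⟨lift_closed M h, fun z => ?_⟩
      obtain ⟨k, hk, -⟩ := c_base M m a w
      rcases c_closed M h n z with h2 | ⟨-, h2⟩
      · exact h2 ▸ zero_mem _
      · exact ⟨k, by simp [h2, hk]⟩
    obtain ⟨k, hk⟩ := (h1 (M.pres r hr)).2 z
    exact ⟨k, by simpa using hk.symm⟩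
  · let N : Subgroup (FreeGroup (C × W)) :=
      { carrier := {r | ∀ᶠ n in atTop, r ∈ NS (M.cocy n) ⊥}
        one_mem' := .of_forall fun _ => one_mem _
        mul_mem' := fun ha hb => (Eventually.and ha hb).mono fun _ h => mul_mem h.1 h.2
        inv_mem' := fun ha => Eventually.mono ha fun _ h => inv_mem h }
    have hN : N.Normal := ⟨fun r hr g => Eventually.mono hr fun _ h =>
      Subgroup.Normal.conj_mem inferInstance r h g⟩
    have h1 : Subgroup.normalClosure (Rel D Set.univ) ≤ N := by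
      refine Subgroup.normalClosure_le_normal ?_
      rintro _ ⟨m, -, a, w, h, rfl⟩
      exact (eventually_gt_atTop m).mono fun n hn => ⟨lift_closed M h, fun z =>
        (c_closed M h n z).resolve_right fun h2 => hn.ne' h2.1⟩
    obtain ⟨n0, h2⟩ := eventually_atTop.1 (h1 (M.pres r hr))
    exact ⟨n0, fun n hn z => (h2 n hn).2 z⟩

end Pool.Agent.Lib.MZ
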