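import Pool.Agent.Lib.MZ.Blue
import Pool.Agent.Lib.IT.EXP

namespace Pool.Agent.Lib.MZ

open Finset Pool.Agent.Lib.IT

set_option linter.unusedSectionVars false
set_option linter.unusedVariables false

namespace KEY

variable {C W : Type} [Fintype C] [DecidableEq C] [Fintype W] [AddCommGroup W]
  {D : Data C W} {Γ : Type} [Group Γ] {gen : C × W → Γ} {I : Set ℕ}

open scoped Classical in
/-- a set with a small boundary contains most of a full copy -/
theorem key (h : Cfg gen (Xg D gen I)) {n0 : ℕ} (b : Birth D gen n0) (hC : Fintype.card C = 200)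
    (h2 : ∀ w : W, w + w = 0) (ω : Xg D gen I) (B : Finset Γ)
    (hB : {e : Γ × C | e.1 ∈ B ∧ sig h ω e.2 e.1 ∉ B}.ncard < B.card) :
    ∃ n ∈ I, ∃ ι : Fin (D.N n) → Γ, Full D gen ω.1 n ι ∧
      (∀ c a, sig h ω c (ι a) = ι (D.π n c a)) ∧
      7 * D.N n < 8 * (univ.filter fun a => ι a ∈ B).card := by
  have hσ : ∀ c g, sig h ω c g = g * gen (c, ω.1 g (c, true)) := fun _ _ => rfl
  set E := (B ×ˢ (univ : Finset C)).filter fun e => sig h ω e.2 e.1 ∈ B with hE
  have hE1 : 199 * B.card < E.card := by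
    have h3 := card_filter_add_card_filter_not (s := B ×ˢ (univ : Finset C))
      (fun e => sig h ω e.2 e.1 ∈ B)
    have h4 : {e : Γ × C | e.1 ∈ B ∧ sig h ω e.2 e.1 ∉ B} =
        ↑((B ×ˢ (univ : Finset C)).filter fun e => ¬ sig h ω e.2 e.1 ∈ B) := by
      ext e; simp
    rw [h4, Set.ncard_coe_finset] at hB
    rw [card_product, card_univ, hC, ← hE] at h3
    omega
  let T : Γ × C → ℕ ×ₗ ℕ := fun e => max (b.β e.1) (b.β (sig h ω e.2 e.1))
  have hT : ∀ e ∈ E, ∃ g ∈ B, b.β g = T e := by
    intro e he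
    rw [hE, mem_filter, mem_product] at he
    rcases max_choice (b.β e.1) (b.β (sig h ω e.2 e.1)) with h3 | h3
    · exact ⟨_, he.1.1, h3.symm⟩
    · exact ⟨_, he.2, h3.symm⟩
  obtain ⟨t, ht⟩ : ∃ t, 199 * (B.filter fun g => b.β g = t).card <
      (E.filter fun e => T e = t).card := by
    by_contra hc
    push Not at hc
    rw [card_eq_sum_card_fiberwise (s := E) (t := B.image b.β) (f := T)
      (fun e he => by simpa using hT e he), card_eq_sum_card_fiberwise (s := B) (t := B.image b.β)
      (f := b.β) (fun g hg => mem_image_of_mem _ hg), mul_sum] at hE1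
    exact absurd (sum_le_sum fun t _ => hc t) (not_le.2 hE1)
  cases hb : b.big t with
  | none =>
    exfalso
    obtain ⟨e, he⟩ := card_pos.1 (lt_of_le_of_lt (Nat.zero_le _) ht)
    rw [mem_filter] at he
    obtain ⟨g, hg, hg'⟩ := hT e he.1
    have h3 : 0 < (B.filter fun g => b.β g = t).card :=
      card_pos.2 ⟨g, mem_filter.2 ⟨hg, hg'.trans he.2⟩⟩
    have h4 : (E.filter fun e => T e = t).card ≤ 1 := by
      refine card_le_one.2 fun e1 h5 e2 h6 => ?_
      rw [mem_filter] at h5 h6
      have h7 := (b.edge_small e2.1 (e2.2, ω.1 e2.1 (e2.2, true))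
        (by rw [← hb]; exact congrArg b.big h6.2)).2 e1.1 (e1.2, ω.1 e1.1 (e1.2, true))
        (h5.2.trans h6.2.symm)
      exact Prod.ext h7.1 (congrArg Prod.fst h7.2)
    omega
  | some x =>
    obtain ⟨n, ι⟩ := x
    have hinj := b.inj t n ι hb
    have hcopy := b.hom t n ι hb
    have hle := b.le t n ι hb
    set U := univ.filter fun a => ι a ∈ B ∧ b.β (ι a) = t with hU
    have hU1 : U.card ≤ (B.filter fun g => b.β g = t).card :=
      card_le_card_of_injOn ι (fun a ha => by simpa [hU] using ha) hinj.injOn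
    let u : Fin (D.N n) × C → W := fun e => ω.1 (ι e.1) (e.2, true)
    set F1 := ((U ×ˢ (univ : Finset C)).filter fun e => D.π n e.2 e.1 ∈ U).filter
      fun e => u e = D.y n e with hF1
    let P : Fin (D.N n) → Fin (D.N n) × C := fun a =>
      if hp : ∃ p, b.β (ι (step (D.π n) a p)) < t then edge (D.π n) a hp.choose
      else (a, Classical.choice (Fintype.card_pos_iff.1 (by omega)))
    have hP : ∀ a ∈ U, ∀ p, b.β (ι (step (D.π n) a p)) < t → P a = edge (D.π n) a p := by
      intro a ha p hp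
      have hp' : ∃ p, b.β (ι (step (D.π n) a p)) < t := ⟨p, hp⟩
      simp only [P, dif_pos hp']
      rw [b.gate_one t n ι hb a (mem_filter.1 ha).2.2 _ _ hp'.choose_spec hp]
    have hsub : (E.filter fun e => T e = t) ⊆
        (F1 ∪ U.image P).image fun e => (ι e.1, e.2) := by
      rintro ⟨g, c⟩ he
      rw [mem_filter, hE, mem_filter, mem_product] at he
      obtain ⟨⟨⟨hg, -⟩, hg'⟩, het⟩ := he
      obtain ⟨a, rfl, ha⟩ := b.edge_big g (c, ω.1 g (c, true)) n ι
        (by rw [← hb]; exact congrArg b.big het)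
      have h3 : sig h ω c (ι a) = ι (D.π n c a) := by rw [hσ, hcopy a c]; exact congrArg _ (by rw [ha])
      refine mem_image.2 ⟨(a, c), ?_, rfl⟩
      simp only [T] at het
      simp only at hg hg'
      rw [h3] at het hg'
      by_cases h4 : b.β (ι a) = t
      · have haU : a ∈ U := mem_filter.2 ⟨mem_univ _, hg, h4⟩
        by_cases h5 : b.β (ι (D.π n c a)) = t
        · refine mem_union_left _ (mem_filter.2 ⟨mem_filter.2 ⟨mem_product.2 ⟨haU, mem_univ _⟩,
            mem_filter.2 ⟨mem_univ _, hg', h5⟩⟩, ha.symm⟩)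
        · exact mem_union_right _ (mem_image.2 ⟨a, haU,
            hP a haU (c, true) (lt_of_le_of_ne (hle _) h5)⟩)
      · have h5 : b.β (ι (D.π n c a)) = t := by
          rcases max_choice (b.β (ι a)) (b.β (ι (D.π n c a))) with h6 | h6
          · exact absurd (h6.symm.trans het) h4
          · exact h6.symm.trans het
        have haU : D.π n c a ∈ U := mem_filter.2 ⟨mem_univ _, hg', h5⟩
        refine mem_union_right _ (mem_image.2 ⟨_, haU, ?_⟩)
        rw [hP _ haU (c, false) (by simpa [step] using lt_of_le_of_ne (hle a) h4)]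
        simp [edge]
    have h3 : 198 * U.card < F1.card := by
      have h4 := (card_le_card hsub).trans (card_image_le.trans (card_union_le _ _))
      have h5 : (U.image P).card ≤ U.card := card_image_le
      omega
    have h4 : 7 * D.N n < 8 * U.card := by
      by_contra hc
      have h5 := D.dens n U (not_lt.1 hc)
      have h6 : F1.card ≤ inE (D.π n) U := card_filter_le _ _
      rw [hC] at h5
      omega
    have h5 : wt (u - D.y n) + F1.card ≤ Fintype.card (Fin (D.N n) × C) := by
      have h6 : {e | (u - D.y n) e ≠ 0} = ↑(univ.filter fun e => ¬ u e = D.y n e) := by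
        ext e; simp [sub_eq_zero]
      rw [wt, h6, Set.ncard_coe_finset, ← card_univ,
        ← card_filter_add_card_filter_not (s := univ) (fun e => u e = D.y n e), add_comm]
      exact Nat.add_le_add_right (card_le_card fun e he =>
        mem_filter.2 ⟨mem_univ _, (mem_filter.1 he).2⟩) _
    obtain ⟨hn, hu⟩ := EXP.eq_of_close h2 (ω.2.2 n ι hcopy) (u := u) (by
      rw [Fintype.card_prod, Fintype.card_fin, hC] at h5 ⊢
      omega)
    refine ⟨n, hn, ι, ⟨hcopy, hinj, fun e => congrFun hu e⟩, fun c a => ?_, h4.trans_le (Nat.mul_le_mul_left _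
      (card_le_card fun a ha => mem_filter.2 ⟨mem_univ _, (mem_filter.1 ha).2.1⟩))⟩
    rw [hσ, hcopy a c, ← hu]

end KEY

theorem stKEY (hCON : St_CON) : St_KEY := by
  classical
  intro C W _ _ _ _ D Γ _ gen h n0 b hC h2 ω g hg
  have horb : ∀ n (ι : Fin (D.N n) → Γ), (∀ c a, sig h ω c (ι a) = ι (D.π n c a)) → ∀ a,
      orb (sig h ω) (ι a) = ι '' Set.univ := fun n ι hι a => by
    rw [EXP.orb_map (D.π n) _ ι hι, hCON C _ _ (by omega) (D.dens n)]
  have h3 : {e : Γ × C | e.1 ∈ hg.toFinset ∧ sig h ω e.2 e.1 ∉ hg.toFinset} = ∅ := by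
    ext e
    simp only [Set.Finite.mem_toFinset, Set.mem_ofPred_eq, Set.mem_empty_iff_false, iff_false,
      not_and, not_not]
    exact fun he => EXP.orb_trans _ he ⟨[(e.2, true)], rfl⟩
  obtain ⟨n, hn, ι, hfull, hι, hcard⟩ := KEY.key h b hC h2 ω hg.toFinset (by
    rw [h3, Set.ncard_empty]
    exact card_pos.2 ⟨g, hg.mem_toFinset.2 ⟨[], rfl⟩⟩)
  obtain ⟨a, ha⟩ := card_pos.1 (show 0 < (univ.filter fun a => ι a ∈ hg.toFinset).card by omega)
  refine ⟨n, ι, hfull, ?_⟩
  rw [← EXP.orb_eq _ (hg.mem_toFinset.1 (mem_filter.1 ha).2), horb n ι hι, Set.image_univ]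

end Pool.Agent.Lib.MZ
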