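import Pool.Agent.Lib.MZ.Blue
import Pool.Agent.Lib.IT.ALG

/-! Block LAZ: the element `aX` acts as the lazy walk with flux. -/

namespace Pool.Agent.Lib.MZ

open Finset Pool.Agent.Lib.IT

namespace Laz

theorem exp_val (a : ZMod 2) (s : ℝ) :
    Complex.exp ((Real.pi * (a.val + s) : ℝ) * Complex.I) =
      sgn a * Complex.exp ((Real.pi * s : ℝ) * Complex.I) := by
  have h : a = 0 ∨ a = 1 := by revert a; decide
  rcases h with rfl | rfl
  · simp [sgn]
  · rw [Alg.sgn_of_ne one_ne_zero, show (1 : ZMod 2).val = 1 from rfl]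
    push_cast
    rw [mul_add, add_mul, Complex.exp_add, mul_one, Complex.exp_pi_mul_I]

theorem lift_mk {S Γ : Type} [Group Γ] (gen : S → Γ) (s : S) (b : Bool) :
    FreeGroup.lift gen (FreeGroup.mk [(s, b)]) = if b then gen s else (gen s)⁻¹ := by
  cases b <;> simp [FreeGroup.lift_mk]

end Laz

open Laz in
theorem stLAZ : St_LAZ := by
  intro C W _ _ _ Γ Γ' _ _ gen gen' pr X h h' h2 ω c t π _ hπ ξ z
  classical
  have := Alg.finite_dual (W := W)
  let : Fintype (W →+ ZMod 2) := Fintype.ofFinite _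
  let A : C × Bool → W → ℂ := fun p w =>
    Complex.exp ((Real.pi * (t * c z (FreeGroup.mk [((p.1, w), p.2)])) : ℝ) * Complex.I) *
      ξ (z * FreeGroup.lift gen (FreeGroup.mk [((p.1, w), p.2)]))
  have e1 : ∀ p w φ, π (Alg.tm h' p w φ) ξ z = sgn (φ (ω.1 z p)) * A p w := fun p w φ => by
    rw [hπ (Alg.tm h' p w φ) (FreeGroup.mk [((p.1, w), p.2)]) (by simp [Alg.tm]) ξ z, ph,
      exp_val, mul_assoc]
    congr 3
    simp [Alg.tm, co, coord, pb]
  have hc : (Fintype.card W : ℝ) ≠ 0 := Nat.cast_ne_zero.2 Fintype.card_ne_zero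
  have e2 : ∀ p w, ∑ φ : W →+ ZMod 2, (sgn (φ w) / Fintype.card W) • π (Alg.tm h' p w φ) ξ z =
      if ω.1 z p = w then A p w else 0 := fun p w => by
    have e : ∀ φ : W →+ ZMod 2, (sgn (φ w) / Fintype.card W) • π (Alg.tm h' p w φ) ξ z =
        (sgn (φ (w + ω.1 z p)) / Fintype.card W) • A p w := fun φ => by
      rw [e1, map_add, Alg.sgn_add, ← Complex.real_smul, smul_smul]
      congr 1
      ring
    have hi : w + ω.1 z p = 0 ↔ ω.1 z p = w :=
      ⟨fun hh => (add_left_cancel ((h2 w).trans hh.symm)).symm, fun hh => by rw [hh, h2]⟩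
    simp only [e, ← sum_smul, ← sum_div, Alg.sum_sgn h2, hi]
    split_ifs
    · rw [div_self hc, one_smul]
    · simp
  have e3 : ∀ p, A p (ω.1 z p) =
      Complex.exp ((Real.pi * (t * c z (FreeGroup.mk [((p.1, ω.1 z p), p.2)])) : ℝ) * Complex.I) *
        ξ (step (sig h ω) z p) := fun ⟨a, b⟩ => by
    simp only [A, lift_mk]
    cases b <;> rfl
  rw [Alg.aX_eq]
  simp only [rep, map_add, map_smul, map_sum, MonoidAlgebra.lift_single, map_one,
    _root_.add_apply, _root_.smul_apply, _root_.sum_apply, lp.coeFn_add, lp.coeFn_smul,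
    lp.coeFn_sum, Pi.add_apply, Pi.smul_apply, Finset.sum_apply]
  have e4 : ∀ x, (toB.comp π) x ξ = π x ξ := fun _ => rfl
  simp only [e4, e2, sum_ite_eq, mem_univ, if_true, e3, one_apply_eq_self]
  simp only [Complex.real_smul]
  push_cast
  ring

end Pool.Agent.Lib.MZ
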