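import Pool.Agent.Lib.MZ.Mon0

/-! Monomial representations on complex `l2` spaces with real scalars. -/

noncomputable section

open Filter Topology

namespace Pool.Agent.Lib.MZ.Mon

/-- complex `l2` -/
abbrev L2C (Z : Type) : Type := lp (fun _ : Z => ℂ) 2

section Wt

variable {Z : Type}

theorem hasSum_sq {E : Type} [NormedAddCommGroup E] (ξ : lp (fun _ : Z => E) 2) :
    HasSum (fun x => ‖ξ x‖ ^ 2) (‖ξ‖ ^ 2) := by
  have h := lp.hasSum_norm (p := 2) (by norm_num) ξ
  simpa only [ENNReal.toReal_ofNat, Real.rpow_ofNat] using h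

theorem mem_wt (e : Equiv.Perm Z) (d : Z → ℂ) {C : ℝ} (hd : ∀ z, ‖d z‖ ≤ C) (ξ : L2C Z) :
    Memℓp (fun z => d z * ξ (e z)) 2 := by
  refine memℓp_gen ?_
  simp only [ENNReal.toReal_ofNat, Real.rpow_ofNat]
  refine Summable.of_nonneg_of_le (fun _ => by positivity) (fun z => ?_)
    ((e.summable_iff.2 (hasSum_sq ξ).summable).mul_left (C ^ 2))
  rw [norm_mul, mul_pow]
  exact mul_le_mul_of_nonneg_right (pow_le_pow_left₀ (norm_nonneg _) (hd z) 2) (by positivity)

theorem norm_wt_le (e : Equiv.Perm Z) (d : Z → ℂ) {C : ℝ} (hC : 0 ≤ C) (hd : ∀ z, ‖d z‖ ≤ C)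
    (ξ η : L2C Z) (h : ∀ z, η z = d z * ξ (e z)) : ‖η‖ ≤ C * ‖ξ‖ := by
  refine (pow_le_pow_iff_left₀ (norm_nonneg _) (by positivity) two_ne_zero).1 ?_
  rw [mul_pow]
  refine hasSum_le (fun z => ?_) (hasSum_sq η) ((e.hasSum_iff.2 (hasSum_sq ξ)).mul_left (C ^ 2))
  rw [h, norm_mul, mul_pow]
  exact mul_le_mul_of_nonneg_right (pow_le_pow_left₀ (norm_nonneg _) (hd z) 2) (by positivity)

/-- norm bound for a weighted permutation operator -/
theorem opNorm_wt_le (e : Equiv.Perm Z) (d : Z → ℂ) {C : ℝ} (hC : 0 ≤ C) (hd : ∀ z, ‖d z‖ ≤ C)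
    (T : L2C Z →L[ℝ] L2C Z) (h : ∀ ξ z, T ξ z = d z * ξ (e z)) : ‖T‖ ≤ C :=
  T.opNorm_le_bound hC fun ξ => norm_wt_le e d hC hd ξ _ (h ξ)

/-- a weighted permutation operator -/
def wtOp (e : Equiv.Perm Z) (d : Z → ℂ) {C : ℝ} (hC : 0 ≤ C) (hd : ∀ z, ‖d z‖ ≤ C) :
    L2C Z →L[ℝ] L2C Z :=
  LinearMap.mkContinuous
    { toFun := fun ξ => ⟨fun z => d z * ξ (e z), mem_wt e d hd ξ⟩
      map_add' := fun ξ η => lp.ext (funext fun z => mul_add _ _ _)
      map_smul' := fun r ξ => lp.ext (funext fun z => mul_smul_comm r _ _) } C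
    fun ξ => norm_wt_le e d hC hd ξ _ fun _ => rfl

theorem wtOp_apply (e : Equiv.Perm Z) (d : Z → ℂ) {C : ℝ} (hC : 0 ≤ C) (hd : ∀ z, ‖d z‖ ≤ C)
    (ξ : L2C Z) (z : Z) : wtOp e d hC hd ξ z = d z * ξ (e z) := rfl

/-- a weighted permutation operator whose weight tends to zero is compact -/
theorem compact_wt (e : Equiv.Perm Z) (d : Z → ℂ) (hd : ∀ ε : ℝ, 0 < ε → {z | ε ≤ ‖d z‖}.Finite)
    (T : L2C Z →L[ℝ] L2C Z) (h : ∀ ξ z, T ξ z = d z * ξ (e z)) : IsCompactOperator T := by
  classical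
  have hcl := isClosed_setOf_isCompactOperator (𝕜₁ := ℝ) (𝕜₂ := ℝ) (σ₁₂ := RingHom.id ℝ)
    (M₁ := L2C Z) (M₂ := L2C Z)
  refine hcl.closure_subset (Metric.mem_closure_iff.2 fun ε hε => ?_)
  let s : Finset Z := (hd (ε / 2) (by positivity)).toFinset
  let ev : Z → (L2C Z →L[ℝ] ℂ) := fun z => lp.evalCLM ℝ (fun _ : Z => ℂ) 2 z
  let T0 : L2C Z →L[ℝ] L2C Z := ∑ z ∈ s, (lp.singleContinuousLinearMap ℝ (fun _ : Z => ℂ) 2 z).comp
    ((ev z).comp T)
  have h0 : ∀ ξ z, T0 ξ z = if z ∈ s then T ξ z else 0 := by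
    intro ξ z
    simp only [T0]
    rw [_root_.sum_apply, lp.coeFn_sum, Finset.sum_apply,
      ← Finset.sum_ite_eq s z (fun y => T ξ y)]
    refine Finset.sum_congr rfl fun y _ => ?_
    change (lp.single 2 y (T ξ y) : L2C Z) z = _
    rw [lp.single_apply, Pi.single_apply]
  refine ⟨T0, ?_, ?_⟩
  · have : ∀ t : Finset Z, IsCompactOperator (∑ z ∈ t,
        (lp.singleContinuousLinearMap ℝ (fun _ : Z => ℂ) 2 z).comp ((ev z).comp T) :
          L2C Z →L[ℝ] L2C Z) := by
      intro t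
      induction t using Finset.induction_on with
      | empty => simpa using isCompactOperator_zero
      | insert a t ha ih =>
        rw [Finset.sum_insert ha]
        refine IsCompactOperator.add ?_ ih
        exact (isCompactOperator_of_locallyCompactSpace_dom ((ev a).comp T)).clm_comp
          (lp.singleContinuousLinearMap ℝ (fun _ : Z => ℂ) 2 a)
    exact this s
  · rw [dist_eq_norm]
    refine lt_of_le_of_lt (opNorm_wt_le e (fun z => if z ∈ s then 0 else d z) (C := ε / 2)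
      (by positivity) (fun z => ?_) _ fun ξ z => ?_) (by linarith)
    · split_ifs with h1
      · rw [norm_zero]; positivity
      · exact (not_le.1 fun h2 => h1 ((Set.Finite.mem_toFinset _).2 h2)).le
    · rw [_root_.sub_apply, lp.coeFn_sub, Pi.sub_apply, h0, h]
      split_ifs <;> simp

end Wt

/-- a right action with a unitary cocycle -/
structure Mono (G Z : Type) [Group G] where
  act : Z → G → Z
  u : Z → G → ℂ
  act_mul : ∀ z g h, act z (g * h) = act (act z g) h
  act_one : ∀ z, act z 1 = z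
  u_mul : ∀ z g h, u z (g * h) = u z g * u (act z g) h
  u_norm : ∀ z g, ‖u z g‖ = 1

namespace Mono

variable {G Z Z' : Type} [Group G] (M : Mono G Z)

theorem act_inv (z : Z) (g : G) : M.act (M.act z g) g⁻¹ = z := by
  rw [← M.act_mul, mul_inv_cancel, M.act_one]

theorem act_inv' (z : Z) (g : G) : M.act (M.act z g⁻¹) g = z := by
  rw [← M.act_mul, inv_mul_cancel, M.act_one]

theorem u_one (z : Z) : M.u z 1 = 1 := by
  have h := M.u_mul z 1 1
  rw [mul_one, M.act_one] at h
  have h0 : M.u z 1 ≠ 0 := fun e => by simpa [e] using M.u_norm z 1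
  exact (mul_eq_left₀ h0).1 h.symm

/-- the permutation attached to a group element -/
def perm (g : G) : Equiv.Perm Z :=
  ⟨fun z => M.act z g, fun z => M.act z g⁻¹, fun z => M.act_inv z g, fun z => M.act_inv' z g⟩

/-- the operator attached to a group element -/
def op (g : G) : L2C Z →L[ℝ] L2C Z :=
  wtOp (M.perm g) (fun z => M.u z g) zero_le_one fun z => (M.u_norm z g).le

@[simp] theorem op_apply (g : G) (ξ : L2C Z) (z : Z) : M.op g ξ z = M.u z g * ξ (M.act z g) := rfl

theorem op_one : M.op 1 = 1 :=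
  ContinuousLinearMap.ext fun ξ => lp.ext (funext fun z => by
    rw [op_apply, M.u_one, M.act_one, one_mul]; rfl)

theorem op_mul (g h : G) : M.op (g * h) = M.op g * M.op h :=
  ContinuousLinearMap.ext fun ξ => lp.ext (funext fun z => by
    rw [mul_apply_eq_comp, op_apply, op_apply, op_apply, M.u_mul, M.act_mul, mul_assoc])

theorem norm_op_apply (g : G) (ξ : L2C Z) : ‖M.op g ξ‖ = ‖ξ‖ := by
  refine (pow_left_inj₀ (norm_nonneg _) (norm_nonneg _) two_ne_zero).1 ?_
  refine (hasSum_sq (M.op g ξ)).unique ?_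
  have : HasSum (fun z => ‖ξ (M.act z g)‖ ^ 2) (‖ξ‖ ^ 2) := (M.perm g).hasSum_iff.2 (hasSum_sq ξ)
  simpa only [op_apply, norm_mul, M.u_norm, one_mul] using this

/-- the representation by operators -/
def hom : G →* (L2C Z →L[ℝ] L2C Z) := ⟨⟨M.op, M.op_one⟩, M.op_mul⟩

/-- the isometry attached to a group element -/
def iso (g : G) : L2C Z ≃ₗᵢ[ℝ] L2C Z where
  toFun := M.op g
  invFun := M.op g⁻¹
  map_add' := map_add _
  map_smul' := map_smul _
  left_inv ξ := by
    rw [← mul_apply_eq_comp, ← op_mul, inv_mul_cancel, op_one]; rfl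
  right_inv ξ := by
    rw [← mul_apply_eq_comp, ← op_mul, mul_inv_cancel, op_one]; rfl
  norm_map' := M.norm_op_apply g

@[simp] theorem iso_apply (g : G) (ξ : L2C Z) : M.iso g ξ = M.op g ξ := rfl

/-- the representation by isometries -/
def rep : G →* (L2C Z ≃ₗᵢ[ℝ] L2C Z) where
  toFun := M.iso
  map_one' := LinearIsometryEquiv.ext fun ξ => by rw [iso_apply, op_one]; rfl
  map_mul' g h := LinearIsometryEquiv.ext fun ξ => by rw [iso_apply, op_mul]; rfl

@[simp] theorem rep_apply (g : G) (ξ : L2C Z) : M.rep g ξ = M.op g ξ := rfl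

theorem rep_clm (g : G) : (M.rep g : L2C Z →L[ℝ] L2C Z) = M.op g := rfl

/-- the representation of the group algebra -/
def alg : MonoidAlgebra ℝ G →ₐ[ℝ] (L2C Z →L[ℝ] L2C Z) := MonoidAlgebra.lift ℝ _ G M.hom

theorem alg_single (g : G) (r : ℝ) : M.alg (MonoidAlgebra.single g r) = r • M.op g :=
  MonoidAlgebra.lift_single _ _ _

theorem alg_eq (a : MonoidAlgebra ℝ G) : M.alg a = ∑ g ∈ a.coeff.support, a.coeff g • M.op g :=
  MonoidAlgebra.lift_apply _ _

theorem alg_apply (a : MonoidAlgebra ℝ G) (ξ : L2C Z) (z : Z) :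
    M.alg a ξ z = ∑ g ∈ a.coeff.support, a.coeff g • (M.u z g * ξ (M.act z g)) := by
  rw [alg_eq, _root_.sum_apply, lp.coeFn_sum, Finset.sum_apply]
  rfl

/-- pull back along a homomorphism -/
def comap {H : Type} [Group H] (q : H →* G) : Mono H Z where
  act z h := M.act z (q h)
  u z h := M.u z (q h)
  act_mul z g h := by rw [map_mul, M.act_mul]
  act_one z := by rw [map_one, M.act_one]
  u_mul z g h := by rw [map_mul, M.u_mul]
  u_norm z g := M.u_norm _ _

theorem comap_op {H : Type} [Group H] (q : H →* G) (h : H) : (M.comap q).op h = M.op (q h) := rfl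

theorem comap_alg {H : Type} [Group H] (q : H →* G) (a : MonoidAlgebra ℝ H) :
    (M.comap q).alg a = M.alg (MonoidAlgebra.mapDomainAlgHom ℝ ℝ q a) := by
  induction a using MonoidAlgebra.induction_linear with
  | zero => simp
  | add a b ha hb => rw [map_add, map_add, map_add, ha, hb]
  | single g r =>
    rw [alg_single, comap_op, ← alg_single]
    simp

/-- weak containment in the regular representation -/
theorem norm_alg_le (z0 : Z) (trans : ∀ z, ∃ g, M.act z0 g = z)
    (lf : ∀ s : Finset G, (∀ g ∈ s, M.act z0 g = z0) →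
      ((Subgroup.closure (s : Set G) : Subgroup G) : Set G).Finite) (a : MonoidAlgebra ℝ G) :
    ‖M.alg a‖ ≤ ‖IT.LIM.Lam a‖ := by
  refine wc M.act M.u M.act_mul M.act_one M.u_mul M.u_norm z0 trans lf a.coeff.support a.coeff _
    (M.alg_apply a) _ fun ξ x => ?_
  rw [IT.LIM.Lam_eq, _root_.sum_apply, lp.coeFn_sum, Finset.sum_apply]
  rfl

end Mono

theorem redAlg_subset {G : Type} [Group G] :
    IT.redAlg G ⊆ closure (Set.range (IT.LIM.Lam (G := G))) := by
  refine closure_mono fun T hT => ?_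
  induction hT using Submodule.span_induction with
  | mem T hT =>
    obtain ⟨g, hg⟩ := hT
    refine ⟨MonoidAlgebra.single g 1, ?_⟩
    rw [IT.LIM.Lam_single, one_smul]
    exact ContinuousLinearMap.ext fun ξ => lp.ext (funext fun x => (hg ξ x).symm)
  | zero => exact ⟨0, map_zero _⟩
  | add S T _ _ hS hT =>
    obtain ⟨a, rfl⟩ := hS
    obtain ⟨b, rfl⟩ := hT
    exact ⟨a + b, map_add _ _ _⟩
  | smul r T _ hT =>
    obtain ⟨a, rfl⟩ := hT
    exact ⟨r • a, map_smul _ _ _⟩

theorem span_subset {G Z : Type} [Group G] (M : Mono G Z) :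
    closure (Submodule.span ℝ (Set.range M.op) : Set (L2C Z →L[ℝ] L2C Z)) ⊆
      closure (Set.range M.alg) := by
  refine closure_mono fun T hT => ?_
  induction hT using Submodule.span_induction with
  | mem T hT =>
    obtain ⟨g, rfl⟩ := hT
    exact ⟨MonoidAlgebra.single g 1, by rw [M.alg_single, one_smul]⟩
  | zero => exact ⟨0, map_zero _⟩
  | add S T _ _ hS hT =>
    obtain ⟨a, rfl⟩ := hS
    obtain ⟨b, rfl⟩ := hT
    exact ⟨a + b, map_add _ _ _⟩
  | smul r T _ hT =>
    obtain ⟨a, rfl⟩ := hT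
    exact ⟨r • a, map_smul _ _ _⟩

/-- the representation extends to the reduced algebra -/
theorem Mono.exists_Psi {G Z : Type} [Group G] (M : Mono G Z) (z0 : Z)
    (trans : ∀ z, ∃ g, M.act z0 g = z)
    (lf : ∀ s : Finset G, (∀ g ∈ s, M.act z0 g = z0) →
      ((Subgroup.closure (s : Set G) : Subgroup G) : Set G).Finite)
    (R : Subalgebra ℝ (IT.L2 G →L[ℝ] IT.L2 G)) (hR : (R : Set _) ⊆ IT.redAlg G) :
    ∃ Ψ : R →ₐ[ℝ] (L2C Z →L[ℝ] L2C Z), ∀ (T : R) a, ‖Ψ T - M.alg a‖ ≤ ‖T.1 - IT.LIM.Lam a‖ :=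
  exists_ext _ _ (M.norm_alg_le z0 trans lf) R (hR.trans redAlg_subset)

/-! ### invariant subsets -/

section Sub

variable {Z Z' : Type}

theorem mem_ext (e : Z' → Z) (he : Function.Injective e) (ξ : L2C Z') :
    Memℓp (Function.extend e ξ (0 : Z → ℂ)) 2 := by
  refine memℓp_gen ?_
  simp only [ENNReal.toReal_ofNat, Real.rpow_ofNat]
  refine (he.summable_iff fun z hz => ?_).1 ?_
  · rw [Function.extend_apply' _ _ _ hz]; simp
  · simpa only [Function.comp_def, he.extend_apply] using (hasSum_sq ξ).summable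

/-- extension by zero along an injection -/
def ext0 (e : Z' → Z) (he : Function.Injective e) : L2C Z' →ₗᵢ[ℝ] L2C Z where
  toFun ξ := ⟨Function.extend e ξ 0, mem_ext e he ξ⟩
  map_add' ξ η := lp.ext (funext fun z => by
    change Function.extend e (ξ + η : L2C Z') 0 z = Function.extend e ξ 0 z + Function.extend e η 0 z
    by_cases hz : ∃ a, e a = z
    · obtain ⟨a, rfl⟩ := hz
      simp only [he.extend_apply]; rfl
    · simp only [Function.extend_apply' _ _ _ hz]; simp)
  map_smul' r ξ := lp.ext (funext fun z => by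
    change Function.extend e (r • ξ : L2C Z') 0 z = r • Function.extend e ξ 0 z
    by_cases hz : ∃ a, e a = z
    · obtain ⟨a, rfl⟩ := hz
      simp only [he.extend_apply]; rfl
    · simp only [Function.extend_apply' _ _ _ hz]; simp)
  norm_map' ξ := by
    refine (pow_left_inj₀ (norm_nonneg _) (norm_nonneg _) two_ne_zero).1 ?_
    refine (hasSum_sq _).unique ((he.hasSum_iff fun z hz => ?_).1 ?_)
    · change ‖Function.extend e ξ 0 z‖ ^ 2 = 0
      rw [Function.extend_apply' _ _ _ hz]; simp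
    · have : ((fun z => ‖Function.extend e ξ (0 : Z → ℂ) z‖ ^ 2) ∘ e) = fun a => ‖ξ a‖ ^ 2 :=
        funext fun a => by simp only [Function.comp_def, he.extend_apply]
      exact this ▸ hasSum_sq ξ

theorem ext0_apply (e : Z' → Z) (he : Function.Injective e) (ξ : L2C Z') (a : Z') :
    ext0 e he ξ (e a) = ξ a := he.extend_apply _ _ _

theorem ext0_apply' (e : Z' → Z) (he : Function.Injective e) (ξ : L2C Z') {z : Z}
    (hz : ¬ ∃ a, e a = z) : ext0 e he ξ z = 0 := Function.extend_apply' _ _ _ hz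

variable {G : Type} [Group G] (M : Mono G Z) (M' : Mono G Z') (e : Z' → Z)
  (he : Function.Injective e) (h1 : ∀ a g, M.act (e a) g = e (M'.act a g))
  (h2 : ∀ a g, M.u (e a) g = M'.u a g)

include h1 h2

theorem op_ext0 (g : G) (ξ : L2C Z') : M.op g (ext0 e he ξ) = ext0 e he (M'.op g ξ) := by
  refine lp.ext (funext fun z => ?_)
  by_cases hz : ∃ a, e a = z
  · obtain ⟨a, rfl⟩ := hz
    rw [Mono.op_apply, h1, h2, ext0_apply, ext0_apply, Mono.op_apply]
  · rw [Mono.op_apply, ext0_apply' _ _ _ hz, ext0_apply', mul_zero]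
    rintro ⟨a, ha⟩
    exact hz ⟨M'.act a g⁻¹, by rw [← h1, ha, M.act_inv]⟩

theorem alg_ext0 (a : MonoidAlgebra ℝ G) (ξ : L2C Z') :
    M.alg a (ext0 e he ξ) = ext0 e he (M'.alg a ξ) := by
  rw [M.alg_eq, M'.alg_eq, _root_.sum_apply, _root_.sum_apply, map_sum]
  refine Finset.sum_congr rfl fun g _ => ?_
  rw [_root_.smul_apply, _root_.smul_apply, map_smul,
    op_ext0 M M' e he h1 h2]

include he in
theorem norm_alg_sub_le (a : MonoidAlgebra ℝ G) : ‖M'.alg a‖ ≤ ‖M.alg a‖ :=
  ContinuousLinearMap.opNorm_le_bound _ (norm_nonneg _) fun ξ => by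
    rw [← (ext0 e he).norm_map, ← alg_ext0 M M' e he h1 h2, ← (ext0 e he).norm_map ξ]
    exact (M.alg a).le_opNorm _

include he in
/-- compression to an invariant subset -/
theorem exists_Pi (A : Subalgebra ℝ (L2C Z →L[ℝ] L2C Z))
    (hA : (A : Set _) ⊆ closure (Set.range M.alg)) :
    ∃ P : A →ₐ[ℝ] (L2C Z' →L[ℝ] L2C Z'), ∀ (T : A) a, ‖P T - M'.alg a‖ ≤ ‖T.1 - M.alg a‖ :=
  exists_ext _ _ (norm_alg_sub_le M M' e he h1 h2) A hA

end Sub

end Pool.Agent.Lib.MZ.Mon
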