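import Pool.Agent.Lib.MZ.Blue
import Pool.Agent.Lib.MZ.Mon1

/-! Blocks MON, WC, PSI. -/

namespace Pool.Agent.Lib.MZ

open Pool.Agent.Lib.IT

theorem norm_phase (a : ℝ) : ‖Complex.exp (a * Complex.I)‖ = 1 := Complex.norm_exp_ofReal_mul_I a

theorem norm_phase_sub (a b : ℝ) :
    ‖Complex.exp (a * Complex.I) - Complex.exp (b * Complex.I)‖ ≤ |a - b| := by
  have h : Complex.exp (a * Complex.I) - Complex.exp (b * Complex.I) =
      Complex.exp (b * Complex.I) * (Complex.exp (Complex.I * ((a - b : ℝ) : ℂ)) - 1) := by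
    rw [mul_sub, mul_one, ← Complex.exp_add]
    congr 2
    push_cast
    ring
  rw [h, norm_mul, norm_phase, one_mul]
  exact Real.norm_exp_I_mul_ofReal_sub_one_le

theorem stMON : St_MON := by
  intro Z
  refine ⟨fun σ u => ?_, fun σ u u' T T' h h' => ?_⟩
  · let A := Mon.wtOp σ (fun z => Complex.exp (u z * Complex.I)) zero_le_one
      fun z => (norm_phase _).le
    let B := Mon.wtOp σ.symm (fun z => Complex.exp ((-u (σ.symm z) : ℝ) * Complex.I)) zero_le_one
      fun z => (norm_phase _).le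
    have e : ∀ a : ℝ, Complex.exp ((-a : ℝ) * Complex.I) * Complex.exp (a * Complex.I) = 1 := by
      intro a
      rw [← Complex.exp_add]
      simp
    have h1 : ∀ ξ, B (A ξ) = ξ := fun ξ => lp.ext (funext fun z => by
      simp only [A, B, Mon.wtOp_apply, Equiv.apply_symm_apply]
      rw [← mul_assoc, e, one_mul])
    have h2 : ∀ ξ, A (B ξ) = ξ := fun ξ => lp.ext (funext fun z => by
      simp only [A, B, Mon.wtOp_apply, Equiv.symm_apply_apply]
      rw [← mul_assoc, mul_comm (Complex.exp _), e, one_mul])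
    have nA : ∀ ξ, ‖A ξ‖ ≤ ‖ξ‖ := fun ξ => by
      simpa using Mon.norm_wt_le σ _ zero_le_one (fun z => (norm_phase (u z)).le) ξ (A ξ)
        fun _ => rfl
    have nB : ∀ ξ, ‖B ξ‖ ≤ ‖ξ‖ := fun ξ => by
      simpa using Mon.norm_wt_le σ.symm _ zero_le_one
        (fun z => (norm_phase (-u (σ.symm z))).le) ξ (B ξ) fun _ => rfl
    exact ⟨{ toFun := A
             invFun := B
             map_add' := map_add _
             map_smul' := map_smul _
             left_inv := h1
             right_inv := h2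
             norm_map' := fun ξ => le_antisymm (nA ξ) (by
               conv_lhs => rw [← h1 ξ]
               exact nB _) }, fun _ _ => rfl⟩
  · have key : ∀ ξ z, (toB T - toB T') ξ z =
        (Complex.exp (u z * Complex.I) - Complex.exp (u' z * Complex.I)) * ξ (σ z) := by
      intro ξ z
      rw [sub_mul, ← h ξ z, ← h' ξ z]
      rfl
    refine ⟨fun δ h0 hδ => Mon.opNorm_wt_le σ _ h0
      (fun z => (norm_phase_sub _ _).trans (hδ z)) _ key, fun hf => Mon.compact_wt σ _
        (fun ε hε => (hf ε hε).subset fun z hz => ?_) _ key⟩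
    exact le_trans hz (norm_phase_sub _ _)

theorem stWC : St_WC := by
  classical
  intro G Z _ π σ u z0 hm h1 hmul htr lf b
  refine Mon.wc (fun z g => σ g z) (fun z g => Complex.exp (u g z * Complex.I))
    (fun z g h => hmul g h z) h1 (fun z g h => ?_) (fun z g => norm_phase _) z0 htr lf
    b.coeff.support b.coeff _ (fun ξ z => ?_) _ fun ξ x => ?_
  · have e := hm (g * h) (lp.single 2 (σ (g * h) z) 1) z
    rw [map_mul, LinearIsometryEquiv.coe_mul, Function.comp_apply, hm g, hm h, ← hmul,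
      lp.single_apply_self, mul_one, mul_one] at e
    exact e.symm
  · rw [rep, MonoidAlgebra.lift_apply, Finsupp.sum, _root_.sum_apply, lp.coeFn_sum,
      Finset.sum_apply]
    refine Finset.sum_congr rfl fun g _ => ?_
    rw [← hm g ξ z]
    rfl
  · rw [LIM.Lam_eq, _root_.sum_apply, lp.coeFn_sum, Finset.sum_apply]
    rfl

theorem stPSI : St_PSI := by
  classical
  intro G E _ _ _ _ T hT
  let R : Subalgebra ℝ (L2 G →L[ℝ] L2 G) := (LIM.Lam (G := G)).range.topologicalClosure
  have hR : (R : Set (L2 G →L[ℝ] L2 G)) = closure (Set.range (LIM.Lam (G := G))) := rfl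
  obtain ⟨Ψ, hΨ⟩ := Mon.exists_ext LIM.Lam T hT R hR.subset
  have mem : ∀ x ∈ redAlg G, x ∈ R := fun x hx => Mon.redAlg_subset hx
  refine ⟨fun x => if h : x ∈ R then Ψ ⟨x, h⟩ else 0, fun b => ?_, fun x hx y hy => ?_⟩
  · have hb : LIM.Lam b ∈ R := subset_closure ⟨b, rfl⟩
    have := hΨ ⟨_, hb⟩ b
    rw [sub_self, norm_zero, norm_le_zero_iff, sub_eq_zero] at this
    simp only [dif_pos hb, this]
  · have h1 := mem x hx
    have h2 := mem y hy
    simp only [dif_pos h1, dif_pos h2, dif_pos (R.add_mem h1 h2), dif_pos (R.mul_mem h1 h2)]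
    refine ⟨map_add Ψ ⟨x, h1⟩ ⟨y, h2⟩, map_mul Ψ ⟨x, h1⟩ ⟨y, h2⟩, ?_⟩
    have := hΨ (⟨x, h1⟩ - ⟨y, h2⟩) 0
    rwa [map_zero, map_zero, sub_zero, sub_zero, map_sub] at this

end Pool.Agent.Lib.MZ
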