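import Pool.Agent.Lib.MZ.Blue

/-! Block MONS: the monster group with its birth orders, base copies and flux cocycles. -/

namespace Pool.Agent.Lib.MZ

open Finset Pool.Agent.Lib.IT Pool.Agent.Lib.IT.BIR

namespace MONS

variable {C W : Type} [Fintype C] [AddCommGroup W] {D : Data C W}

theorem girth12 (hg : ∀ n, Girth (D.π n) (12 * D.ℓ n)) (x : Om D) (w : List ((C × W) × Bool))
    (hr : FreeGroup.IsReduced w) (hw : w ≠ []) (h : rd (nx D) x w = some x) :
    12 * el D x < w.length := by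
  rcases x with ⟨n, a⟩ | x
  · obtain ⟨i1, -, i3⟩ := rd_inl h
    have e : walk (D.π n) a (col w) = a := by simpa [eq_comm] using i1
    simpa [col, el] using hg n a (col w) (i3 hr) (by simpa [col] using hw) e
  · exfalso
    have h1 := len_inr hr h
    have h2 := (small (D := D)).girth _ w hr hw h
    have h3 := el_pos (D := D) (.inr x)
    omega

theorem fin_el [Finite W] (hl : StrictMono D.ℓ) (L : ℕ) : {x : Om D | el D x ≤ L}.Finite := by
  have h1 : (⋃ n ∈ Set.Iic L, Set.range fun a : Fin (D.N n) => (Sum.inl ⟨n, a⟩ : Om D)).Finite :=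
    (Set.finite_Iic L).biUnion fun n _ => Set.finite_range _
  refine (h1.union (Set.finite_range Sum.inr)).subset ?_
  rintro (⟨n, a⟩ | x) hx
  · exact Or.inl (Set.mem_biUnion (show n ∈ Set.Iic L from (hl.le_apply).trans hx) ⟨a, rfl⟩)
  · exact Or.inr ⟨x, rfl⟩

theorem lift_gn : FreeGroup.lift (gn D) = PresentedGroup.mk (rels (nx D)) := by
  ext s
  rw [FreeGroup.lift_apply_of]
  rfl

theorem mk_wd {n : ℕ} {w : List ((C × W) × Bool)} : ∀ {a : Fin (D.N n)} {y : Om D},
    rd (nx D) (.inl ⟨n, a⟩) w = some y → FreeGroup.mk w = wd D n a (col w) := by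
  induction w with
  | nil => intro a y _; rfl
  | cons l w ih =>
    intro a y h
    obtain ⟨u, h1, h2⟩ := rd_cons.1 h
    obtain ⟨e, rfl⟩ := nx_inl.1 h1
    have h3 := ih h2
    simp only [col, List.map_cons, wd] at h3 ⊢
    rw [← h3, e, FreeGroup.mul_mk]
    rfl

/-- potential on the one edge graphs -/
def pot (x : (C × W) × Bool) : FreeGroup (C × W) := if x.2 then .of x.1 else 1

theorem mk_inr {w : List ((C × W) × Bool)} : ∀ {x x' : (C × W) × Bool},
    rd (nx D) (.inr x) w = some (.inr x') → pot x * FreeGroup.mk w = pot x' := by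
  induction w with
  | nil =>
    intro x x' h
    obtain rfl : x = x' := by simpa [rd] using h
    exact mul_one _
  | cons l w ih =>
    intro x x' h
    obtain ⟨u, h1, h2⟩ := rd_cons.1 h
    obtain ⟨rfl, rfl⟩ := nx_inr.1 h1
    rw [← ih h2, ← List.singleton_append, ← FreeGroup.mul_mk, ← mul_assoc]
    congr 1
    obtain ⟨s, b⟩ := l
    cases b
    · have : FreeGroup.mk [(s, false)] = (FreeGroup.of s)⁻¹ := rfl
      simp [pot, this]
    · have : FreeGroup.mk [(s, true)] = FreeGroup.of s := rfl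
      simp [pot, this]

theorem pres (r : FreeGroup (C × W)) (h : FreeGroup.lift (gn D) r = 1) :
    r ∈ Subgroup.normalClosure (Rel D Set.univ) := by
  rw [lift_gn, PresentedGroup.mk_eq_one_iff] at h
  refine Subgroup.normalClosure_le_normal ?_ h
  rintro _ ⟨x, w, hw, rfl⟩
  rcases x with ⟨n, a⟩ | x
  · refine Subgroup.subset_normalClosure ⟨n, trivial, a, col w, ?_, mk_wd hw⟩
    simpa [eq_comm] using (rd_inl hw).1
  · have : FreeGroup.mk w = 1 := by simpa using mk_inr hw
    rw [this]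
    exact one_mem _

/-- the signing as a function on the labelled graph -/
def th (θ : ∀ n, Fin (D.N n) × C → ZMod 2) : Om D → C × W → ℝ
  | .inl x, s => (θ x.1 (x.2, s.1)).val
  | .inr _, _ => 0

theorem th_le (θ : ∀ n, Fin (D.N n) × C → ZMod 2) (x : Om D) (s : C × W) : |th θ x s| ≤ 1 := by
  rcases x with x | x
  · have h := ZMod.val_lt (θ x.1 (x.2, s.1))
    have h' : (θ x.1 (x.2, s.1)).val ≤ 1 := by omega
    simp only [th, Nat.abs_cast]
    exact_mod_cast h'
  · simp [th]

end MONS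

open MONS in
theorem stMONS (hG : St_GEO2) (hF : St_FLUX) (hC : St_CON) : St_MONS := by
  classical
  intro C W _ _ _ _ D θ h3 hg hl
  have hc : ∀ n a, orb (D.π n) a = Set.univ := fun n => hC C _ _ h3 (D.dens n)
  choose τ O hD using fun n0 =>
    hG _ _ _ _ (small (D := D)) (.inl ⟨n0, ⟨0, D.pos n0⟩⟩)
  choose c f hco hcf using fun n0 => hF _ _ _ _ _ (τ n0) (small (D := D)) (girth12 hg)
    (fin_el hl) (O n0) (hD n0) (th θ) (th_le θ)
  choose ι0 h1 h2 using fun n0 => exists_copy hc (⟨0, D.pos n0⟩ : Fin (D.N n0)) 1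
  have h4 : ∀ n b, Conn (nx D) (.inl ⟨n, ⟨0, D.pos n⟩⟩, 1) (.inl ⟨n, b⟩, ι0 n b) := fun n b =>
    h2 n ▸ conn_copy hc (h1 n) _ b
  have h5 : ∀ n b, τ n (.inl ⟨n, b⟩, ι0 n b) = τ n (.inl ⟨n, ⟨0, D.pos n⟩⟩, 1) := fun n b =>
    (((O n).eq_iff _ _).2 (h4 n b)).symm
  refine ⟨Gam (nx D), inferInstance, gn D, ⟨
    { B := fun n => birth hc (O n)
      ι0 := ι0
      c := c
      surj := ?_
      pres := pres
      first := fun n => ⟨_, bg_of (O n) (h1 n) (h5 n), fun a =>
        le_antisymm (h5 n a ▸ bt_le (τ n) _ _) ((O n).first _)⟩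
      cocy := hco
      base := fun n e => ?_
      other := fun n m ι hι hne => ⟨fun a => f n (.inl ⟨m, a⟩, ι a), fun e => ?_⟩ }⟩⟩
  · rw [lift_gn]
    exact PresentedGroup.mk_surjective _
  · have h6 := hcf n _ _ (ι0 n e.1) _ (nx_port e.1 (e.2, true))
    rw [if_pos (h4 n e.1)] at h6
    exact h6
  · have h6 := hcf n _ _ (ι e.1) _ (nx_port e.1 (e.2, true))
    rw [if_neg] at h6
    · simp only
      rw [hι e.1 e.2]
      exact h6
    · intro h7
      have h8 := bg_of (O n) hι fun b =>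
        (((O n).eq_iff _ _).2 (conn_copy hc hι b e.1)).trans (((O n).eq_iff _ _).2 h7).symm
      rw [bg_of (O n) (h1 n) (h5 n)] at h8
      exact hne (Option.some.inj h8).symm

end Pool.Agent.Lib.MZ
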