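import Pool.Agent.Lib.MZ.Fin46
import Pool.Agent.Lib.IT.LIM

/-! From a compact path of representations to the non-surjectivity statement. -/

noncomputable section

open Function Filter Topology

namespace Pool.Agent.Lib.MZ.Rep46

open BCH IT IT.LIM

/-- an isometry as an operator -/
def ul {E : Type} [NormedAddCommGroup E] [NormedSpace ℝ E] : (E ≃ₗᵢ[ℝ] E) →* (E →L[ℝ] E) where
  toFun u := u.toLinearIsometry.toContinuousLinearMap
  map_one' := rfl
  map_mul' _ _ := rfl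

@[simp] theorem ul_apply {E : Type} [NormedAddCommGroup E] [NormedSpace ℝ E] (u : E ≃ₗᵢ[ℝ] E)
    (v : E) : ul u v = u v := rfl

variable {H : Type} [Group H]

/-- the representation of the group algebra -/
def hat {E : Type} [NormedAddCommGroup E] [NormedSpace ℝ E] (σ : H →* (E ≃ₗᵢ[ℝ] E)) :
    MonoidAlgebra ℝ H →ₐ[ℝ] (E →L[ℝ] E) := MonoidAlgebra.lift ℝ _ H (ul.comp σ)

theorem hat_single {E : Type} [NormedAddCommGroup E] [NormedSpace ℝ E] (σ : H →* (E ≃ₗᵢ[ℝ] E))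
    (h : H) (r : ℝ) : hat σ (MonoidAlgebra.single h r) = r • ul (σ h) :=
  MonoidAlgebra.lift_single _ _ _

section Ext
variable {A B1 B2 : Type} [Ring A] [Algebra ℝ A] [NormedRing B1] [NormedAlgebra ℝ B1]
  [NormedRing B2] [NormedAlgebra ℝ B2] [CompleteSpace B2]

theorem exists_val (u : A →ₐ[ℝ] B1) (v : A →ₐ[ℝ] B2) (h : ∀ b, ‖v b‖ ≤ ‖u b‖) {r : B1}
    (hr : r ∈ closure (Set.range u)) : ∃ y : B2, ∀ b, ‖y - v b‖ ≤ ‖r - u b‖ := by
  obtain ⟨x, hx, hl⟩ := mem_closure_iff_seq_limit.1 hr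
  choose b hb using hx
  have hd : ∀ b b', ‖v b - v b'‖ ≤ ‖u b - u b'‖ := fun b b' => by
    rw [← map_sub, ← map_sub]; exact h _
  have hc : CauchySeq fun n => v (b n) := by
    have := hl.cauchySeq
    rw [Metric.cauchySeq_iff] at this ⊢
    intro ε hε
    obtain ⟨N, hN⟩ := this ε hε
    refine ⟨N, fun m hm n hn => lt_of_le_of_lt ?_ (hN m hm n hn)⟩
    rw [dist_eq_norm, dist_eq_norm, ← hb m, ← hb n]
    exact hd _ _
  obtain ⟨y, hy⟩ := cauchySeq_tendsto_of_complete hc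
  refine ⟨y, fun c => le_of_tendsto_of_tendsto' (hy.sub_const (v c)).norm
    (hl.sub_const (u c)).norm fun n => ?_⟩
  rw [← hb n]
  exact hd _ _

omit [CompleteSpace B2] in
theorem tendsto_val (u : A →ₐ[ℝ] B1) (v : A →ₐ[ℝ] B2) {r : B1} {y : B2}
    (h : ∀ b, ‖y - v b‖ ≤ ‖r - u b‖) {b : ℕ → A} (hb : Tendsto (fun n => u (b n)) atTop (𝓝 r)) :
    Tendsto (fun n => v (b n)) atTop (𝓝 y) := by
  rw [tendsto_iff_norm_sub_tendsto_zero] at hb ⊢
  refine squeeze_zero (fun _ => norm_nonneg _) (fun n => ?_) hb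
  rw [norm_sub_rev, norm_sub_rev (u _)]
  exact h _

theorem exists_seq (u : A →ₐ[ℝ] B1) {r : B1} (hr : r ∈ closure (Set.range u)) :
    ∃ b : ℕ → A, Tendsto (fun n => u (b n)) atTop (𝓝 r) := by
  obtain ⟨x, hx, hl⟩ := mem_closure_iff_seq_limit.1 hr
  choose b hb using hx
  exact ⟨b, by simpa only [hb] using hl⟩

/-- extension of a dominated homomorphism to the closure -/
theorem exists_hom (u : A →ₐ[ℝ] B1) (v : A →ₐ[ℝ] B2) (h : ∀ b, ‖v b‖ ≤ ‖u b‖)
    (R : Subalgebra ℝ B1) (hR : (R : Set B1) ⊆ closure (Set.range u)) :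
    ∃ Ψ : R →+* B2, ∀ (r : R) b, ‖Ψ r - v b‖ ≤ ‖r.1 - u b‖ := by
  choose y hy using fun r : R => exists_val u v h (hR r.2)
  choose b hb using fun r : R => exists_seq u (hR r.2)
  have hv := fun r => tendsto_val u v (hy r) (hb r)
  refine ⟨{ toFun := y, map_one' := ?_, map_mul' := fun r r' => ?_, map_zero' := ?_,
            map_add' := fun r r' => ?_ }, hy⟩
  · have := hy 1 1
    simpa [sub_eq_zero] using this
  · refine tendsto_nhds_unique (tendsto_val u v (hy (r * r')) (b := fun n => b r n * b r' n) ?_) ?_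
    · simpa only [map_mul, MulMemClass.coe_mul] using (hb r).mul (hb r')
    · simpa only [map_mul] using (hv r).mul (hv r')
  · have := hy 0 0
    simpa using this
  · refine tendsto_nhds_unique (tendsto_val u v (hy (r + r')) (b := fun n => b r n + b r' n) ?_) ?_
    · simpa only [map_add, AddMemClass.coe_add] using (hb r).add (hb r')
    · simpa only [map_add] using (hv r).add (hv r')

end Ext

section Sum
variable {T : Type} {K : T → Type} [∀ τ, NormedAddCommGroup (K τ)]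
  [∀ τ, InnerProductSpace ℝ (K τ)]

/-- a family of isometries acting on the Hilbert sum -/
def dgL (u : ∀ τ, K τ ≃ₗᵢ[ℝ] K τ) : lp K 2 →L[ℝ] lp K 2 :=
  lp.mapCLM 2 (fun τ => ul (u τ)) zero_le_one fun τ =>
    (u τ).toLinearIsometry.norm_toContinuousLinearMap_le

theorem dgL_apply (u : ∀ τ, K τ ≃ₗᵢ[ℝ] K τ) (ξ : lp K 2) (τ : T) : dgL u ξ τ = u τ (ξ τ) := rfl

/-- the same as an isometric equivalence -/
def dg (u : ∀ τ, K τ ≃ₗᵢ[ℝ] K τ) : lp K 2 ≃ₗᵢ[ℝ] lp K 2 where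
  toFun := dgL u
  invFun := dgL fun τ => (u τ).symm
  map_add' := map_add _
  map_smul' := map_smul _
  left_inv ξ := by ext τ; simp [dgL_apply]
  right_inv ξ := by ext τ; simp [dgL_apply]
  norm_map' ξ := by
    show ‖dgL u ξ‖ = ‖ξ‖
    rw [lp.norm_eq_tsum_rpow (by norm_num), lp.norm_eq_tsum_rpow (by norm_num)]
    simp [dgL_apply]

/-- the sum of a family of representations -/
def sumRep (σ : ∀ τ, H →* (K τ ≃ₗᵢ[ℝ] K τ)) : H →* (lp K 2 ≃ₗᵢ[ℝ] lp K 2) where
  toFun h := dg fun τ => σ τ h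
  map_one' := by ext ξ τ; show σ τ 1 (ξ τ) = ξ τ; simp
  map_mul' g h := by ext ξ τ; show σ τ (g * h) (ξ τ) = σ τ g (σ τ h (ξ τ)); simp

open scoped Classical in
/-- inclusion of a summand -/
def inc (K : T → Type) [∀ τ, NormedAddCommGroup (K τ)] [∀ τ, InnerProductSpace ℝ (K τ)] (τ : T) :
    K τ →ₗᵢ[ℝ] lp K 2 := ⟨lp.lsingle 2 τ, fun x => lp.norm_single (by norm_num) τ x⟩

theorem sumRep_inc (σ : ∀ τ, H →* (K τ ≃ₗᵢ[ℝ] K τ)) (h : H) (τ : T) (x : K τ) :
    sumRep σ h (inc K τ x) = inc K τ (σ τ h x) := by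
  classical
  ext τ'
  show σ τ' h (lp.single 2 τ x τ') = lp.single 2 τ (σ τ h x) τ'
  by_cases e : τ' = τ
  · subst e; simp
  · simp [lp.single_apply, Pi.single_eq_of_ne e]

end Sum

section Sub
variable {E K : Type} [NormedAddCommGroup E] [NormedSpace ℝ E] [NormedAddCommGroup K]
  [NormedSpace ℝ K]

theorem norm_le_of_inter (j : E →ₗᵢ[ℝ] K) {S : K →L[ℝ] K} {T : E →L[ℝ] E}
    (h : ∀ x, S (j x) = j (T x)) : ‖T‖ ≤ ‖S‖ :=
  T.opNorm_le_bound (norm_nonneg _) fun x => by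
    rw [← j.norm_map, ← h, ← j.norm_map x]; exact S.le_opNorm _

theorem hat_inter (j : E →ₗᵢ[ℝ] K) {ρ : H →* (K ≃ₗᵢ[ℝ] K)}
    (v : MonoidAlgebra ℝ H →ₐ[ℝ] (E →L[ℝ] E))
    (h : ∀ g x, ρ g (j x) = j (v (MonoidAlgebra.single g 1) x)) (b : MonoidAlgebra ℝ H) (x : E) :
    hat ρ b (j x) = j (v b x) := by
  induction b using MonoidAlgebra.induction_linear with
  | zero => simp
  | add b b' hb hb' => simp [hb, hb']
  | single g r =>
    have h1 : MonoidAlgebra.single g r = r • MonoidAlgebra.single g (1 : ℝ) := by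
      rw [MonoidAlgebra.smul_single, smul_eq_mul, mul_one]
    rw [hat_single, h1, map_smul]
    simp [h]

theorem span_sub (ρ : H →* (K ≃ₗᵢ[ℝ] K)) :
    (Submodule.span ℝ (Set.range fun h => ul (ρ h)) : Set (K →L[ℝ] K)) ⊆ Set.range (hat ρ) := by
  have : Submodule.span ℝ (Set.range fun h => ul (ρ h)) ≤ LinearMap.range (hat ρ).toLinearMap := by
    rw [Submodule.span_le]
    rintro _ ⟨h, rfl⟩
    exact ⟨MonoidAlgebra.single h 1, by simp [hat_single]⟩
  exact this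

end Sub

variable {G : Type} [Group G]

/-- the regular representation as a representation by isometries -/
def lamI : G →* (L2 G ≃ₗᵢ[ℝ] L2 G) where
  toFun g :=
    { toFun := lam g
      invFun := lam g⁻¹
      map_add' := map_add _
      map_smul' := map_smul _
      left_inv := fun ξ => by ext x; simp [lam_apply]
      right_inv := fun ξ => by ext x; simp [lam_apply]
      norm_map' := norm_lamL g }
  map_one' := by ext ξ x; show lam 1 ξ x = ξ x; simp [lam_apply]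
  map_mul' g h := by ext ξ x; show lam (g * h) ξ x = lam g (lam h ξ) x; simp [lam_apply, mul_assoc]

/-- the regular representation pulled back along `q` -/
def LamQ (q : H →* G) : MonoidAlgebra ℝ H →ₐ[ℝ] (L2 G →L[ℝ] L2 G) :=
  Lam.comp (MonoidAlgebra.mapDomainAlgHom ℝ ℝ q)

theorem LamQ_single (q : H →* G) (h : H) (r : ℝ) :
    LamQ q (MonoidAlgebra.single h r) = r • lam (q h) := by
  simp [LamQ, Lam_single]

theorem redAlg_sub (q : H →* G) (hq : Surjective q) : redAlg G ⊆ closure (Set.range (LamQ q)) := by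
  refine closure_mono ?_
  have : Submodule.span ℝ {T : L2 G →L[ℝ] L2 G | ∃ g : G, ∀ (ξ : L2 G) (x : G),
      T ξ x = ξ (g⁻¹ * x)} ≤ LinearMap.range (LamQ q).toLinearMap := by
    rw [Submodule.span_le]
    rintro T ⟨g, hg⟩
    obtain ⟨h, rfl⟩ := hq g
    refine ⟨MonoidAlgebra.single h 1, ?_⟩
    ext ξ x
    simp [LamQ_single, lam_apply, hg]
  exact this

/-- the two kinds of summands -/
def Fam (G E : Type) : Option ℝ → Type
  | none => L2 G
  | some _ => E

variable {E : Type} [NormedAddCommGroup E] [InnerProductSpace ℝ E] [CompleteSpace E]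

instance : ∀ τ, NormedAddCommGroup (Fam G E τ)
  | none => inferInstanceAs (NormedAddCommGroup (L2 G))
  | some _ => inferInstanceAs (NormedAddCommGroup E)

instance : ∀ τ, InnerProductSpace ℝ (Fam G E τ)
  | none => inferInstanceAs (InnerProductSpace ℝ (L2 G))
  | some _ => inferInstanceAs (InnerProductSpace ℝ E)

instance : ∀ τ, CompleteSpace (Fam G E τ)
  | none => inferInstanceAs (CompleteSpace (L2 G))
  | some _ => inferInstanceAs (CompleteSpace E)

/-- the family of representations -/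
def famRep (q : H →* G) (σ : ℝ → H →* (E ≃ₗᵢ[ℝ] E)) : ∀ τ, H →* (Fam G E τ ≃ₗᵢ[ℝ] Fam G E τ)
  | none => lamI.comp q
  | some s => σ s

omit [CompleteSpace E] in
theorem cont_hat (σ : ℝ → H →* (E ≃ₗᵢ[ℝ] E)) (hc : ∀ h, Continuous fun s => ul (σ s h))
    (b : MonoidAlgebra ℝ H) : Continuous fun s => hat (σ s) b := by
  induction b using MonoidAlgebra.induction_linear with
  | zero => simpa using continuous_const
  | add b b' hb hb' => simp only [map_add]; exact hb.add hb'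
  | single g r => simp only [hat_single]; exact (hc g).const_smul r

omit [CompleteSpace E] in
theorem cpt_hat (σ σ' : H →* (E ≃ₗᵢ[ℝ] E)) (hk : ∀ h, IsCompactOperator (ul (σ h) - ul (σ' h)))
    (b : MonoidAlgebra ℝ H) : hat σ b - hat σ' b ∈ Fin46.Kp E := by
  induction b using MonoidAlgebra.induction_linear with
  | zero => simp
  | add b b' hb hb' =>
    rw [map_add, map_add, add_sub_add_comm]
    exact (Fin46.Kp E).add_mem hb hb'
  | single g r =>
    rw [hat_single, hat_single, ← smul_sub]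
    exact Fin46.mem_Kp.2 ((hk g).smul r)

theorem cpt_lim {S T : ℕ → E →L[ℝ] E} {s t : E →L[ℝ] E} (hs : Tendsto S atTop (𝓝 s))
    (ht : Tendsto T atTop (𝓝 t)) (h : ∀ n, S n - T n ∈ Fin46.Kp E) : IsCompactOperator (s - t) :=
  isClosed_setOfPred_isCompactOperator.mem_of_tendsto (hs.sub ht)
    (Eventually.of_forall fun n => Fin46.mem_Kp.1 (h n))

/-- The main reduction. -/
theorem glue (q : H →* G) (hq : Surjective q) (σ : ℝ → H →* (E ≃ₗᵢ[ℝ] E))
    (hc : ∀ h, Continuous fun s => ul (σ s h))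
    (hk : ∀ s h, IsCompactOperator (ul (σ s h) - ul (σ 0 h)))
    (hw0 : ∀ b, ‖hat (σ 0) b‖ ≤ ‖LamQ q b‖) (hw1 : ∀ b, ‖hat (σ 1) b‖ ≤ ‖LamQ q b‖)
    (a : MonoidAlgebra ℝ H) (p : L2 G →L[ℝ] L2 G) (hpp : p * p = p)
    (ht : Tendsto (fun m : ℕ => LamQ q (a ^ m)) atTop (𝓝 p))
    (h0 : ∃ v, v ≠ 0 ∧ hat (σ 0) a v = v) (h1 : ∀ v, hat (σ 1) a v = v → v = 0) :
    ∃ (K : Type) (_ : NormedAddCommGroup K) (_ : InnerProductSpace ℝ K) (_ : CompleteSpace K)
      (ρ : H →* (K ≃ₗᵢ[ℝ] K)) (j : L2 G →ₗᵢ[ℝ] K), (∀ h ξ, ρ h (j ξ) = j (lam (q h) ξ)) ∧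
      ∀ (A : Subalgebra ℝ (K →L[ℝ] K)) (R : Subalgebra ℝ (L2 G →L[ℝ] L2 G)),
        (A : Set (K →L[ℝ] K)) ⊆ closure (Submodule.span ℝ (Set.range fun h => ul (ρ h))) →
        (R : Set (L2 G →L[ℝ] L2 G)) ⊆ redAlg G → ∀ (hp : p ∈ R) (Φ : A →+* R),
        (∀ c ξ, c.1 (j ξ) = j ((Φ c).1 ξ)) →
        ∀ x : K0 A, K0.map (Φ : A →ₙ+* R) x ≠ cls1 (⟨p, hp⟩ : R) := by
  let ρ := sumRep (famRep q σ)
  let j : L2 G →ₗᵢ[ℝ] lp (Fam G E) 2 := inc (Fam G E) none
  have hj : ∀ h ξ, ρ h (j ξ) = j (lam (q h) ξ) := fun h ξ =>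
    sumRep_inc (K := Fam G E) (famRep q σ) h none ξ
  refine ⟨lp (Fam G E) 2, inferInstance, inferInstance, inferInstance, ρ, j, hj, ?_⟩
  intro A R hA hR hp Φ hΦ
  have hA' : (A : Set _) ⊆ closure (Set.range (hat ρ)) := hA.trans (closure_mono (span_sub ρ))
  have hR' := hR.trans (redAlg_sub q hq)
  have hle : ∀ s b, ‖hat (σ s) b‖ ≤ ‖hat ρ b‖ := fun s b =>
    norm_le_of_inter (inc (Fam G E) (some s)) (hat_inter _ (hat (σ s)) (fun g x => by
      rw [hat_single, one_smul]; exact sumRep_inc (K := Fam G E) (famRep q σ) g (some s) x) b)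
  choose P hP using fun s => exists_hom (hat ρ) (hat (σ s)) (hle s) A hA'
  obtain ⟨Ψ0, hΨ0⟩ := exists_hom (LamQ q) (hat (σ 0)) hw0 R hR'
  obtain ⟨Ψ1, hΨ1⟩ := exists_hom (LamQ q) (hat (σ 1)) hw1 R hR'
  choose b hb using fun c : A => exists_seq (hat ρ) (hA' c.2)
  have hb' : ∀ c, Tendsto (fun n => LamQ q (b c n)) atTop (𝓝 (Φ c).1) := fun c =>
    tendsto_val (hat ρ) (LamQ q) (fun d => norm_le_of_inter j fun x => by
      have := hat_inter j (LamQ q) (fun g x => by rw [LamQ_single, one_smul, hj]) d x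
      simp [hΦ, this]) (hb c)
  have hPt := fun s c => tendsto_val (hat ρ) (hat (σ s)) (hP s c) (hb c)
  refine Fin46.fin Φ P Ψ0 Ψ1 ⟨p, hp⟩ (Subtype.ext hpp) (fun c => ?_) (fun s c => ?_)
    (fun c => tendsto_nhds_unique (tendsto_val _ _ (hΨ0 _) (hb' c)) (hPt 0 c))
    (fun c => tendsto_nhds_unique (tendsto_val _ _ (hΨ1 _) (hb' c)) (hPt 1 c)) (fun r => ?_) ?_ ?_
  · refine TendstoUniformly.continuous (F := fun n s => hat (σ s) (b c n)) (p := atTop) ?_
      (Eventually.of_forall fun n => cont_hat σ hc _).frequently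
    rw [Metric.tendstoUniformly_iff]
    intro ε hε
    filter_upwards [Metric.tendsto_nhds.1 (hb c) ε hε] with n hn s
    rw [dist_comm, dist_eq_norm] at hn
    rw [dist_eq_norm]
    exact (hP s c _).trans_lt hn
  · exact cpt_lim (S := fun n => hat (σ s) (b c n)) (T := fun n => hat (σ 0) (b c n))
      (hPt s c) (hPt 0 c) fun n => cpt_hat (σ s) (σ 0) (hk s) (b c n)
  · obtain ⟨d, hd⟩ := exists_seq (LamQ q) (hR' r.2)
    exact cpt_lim (S := fun n => hat (σ 1) (d n)) (T := fun n => hat (σ 0) (d n))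
      (tendsto_val (LamQ q) (hat (σ 1)) (hΨ1 r) hd)
      (tendsto_val (LamQ q) (hat (σ 0)) (hΨ0 r) hd) fun n => cpt_hat (σ 1) (σ 0) (hk 1) (d n)
  · have h2 := tendsto_val (LamQ q) (hat (σ 1)) (b := fun m => a ^ m) (hΨ1 ⟨p, hp⟩) ht
    have h3 : hat (σ 1) a * Ψ1 ⟨p, hp⟩ = Ψ1 ⟨p, hp⟩ := by
      refine tendsto_nhds_unique (h2.const_mul (hat (σ 1) a)) ?_
      simpa only [Function.comp_def, pow_succ', map_mul] using h2.comp (tendsto_add_atTop_nat 1)
    ext v
    exact h1 _ (DFunLike.congr_fun h3 v)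
  · obtain ⟨v, hv, hv'⟩ := h0
    have h2 := ((ContinuousLinearMap.apply ℝ E v).continuous.tendsto _).comp
      (tendsto_val (LamQ q) (hat (σ 0)) (b := fun m => a ^ m) (hΨ0 ⟨p, hp⟩) ht)
    have h3 : ∀ m : ℕ, hat (σ 0) (a ^ m) v = v := fun m => by
      induction m with
      | zero => simp
      | succ m ih => rw [pow_succ, map_mul, mul_apply_eq_comp, hv', ih]
    intro h
    simp only [Function.comp_def, ContinuousLinearMap.apply_apply, h3, h] at h2
    exact hv (tendsto_nhds_unique tendsto_const_nhds h2)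

end Pool.Agent.Lib.MZ.Rep46
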