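import Pool.Agent.Lib.MZ.Blue
import Pool.Agent.Lib.MZ.Rep46

/-! Blocks FIN and OUT. -/

noncomputable section

namespace Pool.Agent.Lib.MZ

open Pool.Agent.Lib.IT Filter Topology Rep46

theorem stFIN : St_FIN := fun _ _ _ _ _ _ _ _ P Φ Ψ0 Ψ1 p hp hc hk hΨ h0 h1 hp1 hp0 x =>
  Fin46.fin Φ P Ψ0 Ψ1 p hp hc hk h0 h1 hΨ hp1 hp0 x

section
variable {G E : Type} [Group G] [NormedAddCommGroup E] [InnerProductSpace ℝ E]

theorem ul_norm (u : E ≃ₗᵢ[ℝ] E) : ‖ul u‖ ≤ 1 := u.toLinearIsometry.norm_toContinuousLinearMap_le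

theorem ul_inv_sub (u v : E ≃ₗᵢ[ℝ] E) : ul u⁻¹ - ul v⁻¹ = -(ul u⁻¹ * (ul u - ul v) * ul v⁻¹) := by
  rw [mul_sub, sub_mul, mul_assoc _ (ul v), ← map_mul, ← map_mul, ← map_mul]
  simp

/-- the group of paths -/
def PathG (π0 π1 : G →* (E ≃ₗᵢ[ℝ] E)) : Subgroup (G × (ℝ → (E ≃ₗᵢ[ℝ] E))) where
  carrier := {x | x.2 0 = π0 x.1 ∧ x.2 1 = π1 x.1 ∧ (Continuous fun t => ul (x.2 t)) ∧
    ∀ t, ul (x.2 t) - ul (x.2 0) ∈ Fin46.Kp E}
  one_mem' := ⟨by simp, by simp, by simpa using continuous_const, fun t => by simp⟩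
  mul_mem' := by
    rintro x y ⟨a0, a1, a2, a3⟩ ⟨b0, b1, b2, b3⟩
    refine ⟨by simp [a0, b0], by simp [a1, b1], ?_, fun t => ?_⟩
    · simp only [Prod.snd_mul, Pi.mul_apply, map_mul]
      exact a2.mul b2
    · have : ul ((x * y).2 t) - ul ((x * y).2 0) =
          (ul (x.2 t) - ul (x.2 0)) * ul (y.2 t) + ul (x.2 0) * (ul (y.2 t) - ul (y.2 0)) := by
        simp only [Prod.snd_mul, Pi.mul_apply, map_mul]
        noncomm_ring
      rw [this]
      exact (Fin46.Kp E).add_mem ((Fin46.Kp E).mul_mem_right _ _ (a3 t))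
        ((Fin46.Kp E).mul_mem_left _ _ (b3 t))
  inv_mem' := by
    rintro x ⟨a0, a1, a2, a3⟩
    refine ⟨by simp [a0], by simp [a1], ?_, fun t => ?_⟩
    · rw [continuous_iff_continuousAt]
      intro t
      rw [ContinuousAt, tendsto_iff_norm_sub_tendsto_zero]
      refine squeeze_zero (fun _ => norm_nonneg _) (fun s => ?_)
        (tendsto_iff_norm_sub_tendsto_zero.1 (a2.tendsto t))
      show ‖ul (x.2 s)⁻¹ - ul (x.2 t)⁻¹‖ ≤ _
      rw [ul_inv_sub, norm_neg]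
      refine (norm_mul_le _ _).trans ((mul_le_of_le_one_right (norm_nonneg _) (ul_norm _)).trans ?_)
      exact (norm_mul_le _ _).trans (mul_le_of_le_one_left (norm_nonneg _) (ul_norm _))
    · show ul (x.2 t)⁻¹ - ul (x.2 0)⁻¹ ∈ _
      rw [ul_inv_sub]
      exact (Fin46.Kp E).neg_mem
        ((Fin46.Kp E).mul_mem_right _ _ ((Fin46.Kp E).mul_mem_left _ _ (a3 t)))

theorem hat_comp {H : Type} [Group H] (q : H →* G) (π : G →* (E ≃ₗᵢ[ℝ] E))
    (b : MonoidAlgebra ℝ H) :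
    hat (π.comp q) b = rep π (MonoidAlgebra.mapDomainAlgHom ℝ ℝ q b) := by
  induction b using MonoidAlgebra.induction_linear with
  | zero => simp
  | add b b' hb hb' => simp only [map_add, hb, hb']
  | single g r =>
    rw [hat_single]
    simp only [MonoidAlgebra.mapDomainAlgHom_apply, MonoidAlgebra.mapDomain_single, rep,
      MonoidAlgebra.lift_single]
    rfl

end

theorem stOUT : St_OUT := by
  intro G E _ _ _ _ a p hpp ht F π0 π1 U hU
  let q : PathG π0 π1 →* G := (MonoidHom.fst _ _).comp (PathG π0 π1).subtype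
  let s : G → PathG π0 π1 := fun g =>
    ⟨(g, U g), hU.zero g, hU.one g, hU.cont g, fun t => Fin46.mem_Kp.2 (hU.cpt g t)⟩
  let σ : ℝ → PathG π0 π1 →* (E ≃ₗᵢ[ℝ] E) := fun t =>
    (Pi.evalMonoidHom _ t).comp ((MonoidHom.snd _ _).comp (PathG π0 π1).subtype)
  have hq : Function.Surjective q := fun g => ⟨s g, rfl⟩
  have e0 : σ 0 = π0.comp q := MonoidHom.ext fun x => x.2.1
  have e1 : σ 1 = π1.comp q := MonoidHom.ext fun x => x.2.2.1
  have hs : ∀ b, ∃ b', MonoidAlgebra.mapDomainAlgHom ℝ ℝ q b' = b := fun b => by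
    induction b using MonoidAlgebra.induction_linear with
    | zero => exact ⟨0, map_zero _⟩
    | add b b' hb hb' =>
      obtain ⟨c, rfl⟩ := hb
      obtain ⟨c', rfl⟩ := hb'
      exact ⟨c + c', map_add _ _ _⟩
    | single g r => exact ⟨MonoidAlgebra.single (s g) r, by simp [q, s]⟩
  obtain ⟨a', ha'⟩ := hs a
  obtain ⟨K, i1, i2, i3, ρ, j, hj, h⟩ := glue q hq σ (fun x => x.2.2.2.1)
    (fun t x => Fin46.mem_Kp.1 (x.2.2.2.2 t))
    (fun b => by rw [e0, hat_comp]; exact hU.wc0 _) (fun b => by rw [e1, hat_comp]; exact hU.wc1 _)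
    a' p hpp (by simpa only [LamQ, AlgHom.comp_apply, map_pow, ha'] using ht)
    (by rw [e0, hat_comp, ha']; exact hU.fix0) (by rw [e1, hat_comp, ha']; exact hU.fix1)
  exact ⟨PathG π0 π1, inferInstance, q, s, K, i1, i2, i3, ρ, j, fun g => rfl,
    fun g hg g' hg' => Subtype.ext (Prod.ext rfl (funext fun t => hU.mul g hg g' hg' t)), hj, h⟩

end Pool.Agent.Lib.MZ
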