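import Mathlib

/-! A signing of a coloured permutation graph that is far from all coboundaries on large sets. -/

namespace Pool.Agent.Lib.MZ.Sign63

open Finset

theorem inside_card {C : Type} [Fintype C] [DecidableEq C] {n : ℕ} (π : C → Equiv.Perm (Fin n))
    (U : Finset (Fin n)) (hU : 3 * n ≤ 4 * U.card) :
    Fintype.card C * n ≤
      2 * ((U ×ˢ (univ : Finset C)).filter fun e => π e.2 e.1 ∈ U).card := by
  rw [card_eq_sum_card_fiberwise (f := Prod.snd) (t := univ) (fun _ _ => mem_univ _), mul_sum,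
    ← card_univ, ← smul_eq_mul, ← sum_const]
  refine sum_le_sum fun c _ => ?_
  have h1 : (U.filter fun a => π c a ∈ U).card ≤
      (((U ×ˢ (univ : Finset C)).filter fun e => π e.2 e.1 ∈ U).filter fun e => e.2 = c).card := by
    refine card_le_card_of_injOn (fun a => (a, c)) ?_ ?_
    · intro a ha
      simpa using ha
    · intro a _ b _ h
      exact (Prod.ext_iff.1 h).1
  have h2 : (U.filter fun a => ¬ π c a ∈ U).card ≤ Uᶜ.card := by
    refine card_le_card_of_injOn (π c) ?_ (π c).injective.injOn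
    intro a ha
    simp only [coe_filter, Set.mem_ofPred_eq] at ha
    simpa using ha.2
  have h3 := card_filter_add_card_filter_not (s := U) (fun a => π c a ∈ U)
  have h4 := card_compl U
  have h5 := card_le_univ U
  rw [Fintype.card_fin] at h4 h5
  omega

theorem sum_weight {E : Type} [Fintype E] [DecidableEq E] (I : Finset E) (b : E → ZMod 2) :
    ∑ θ : E → ZMod 2, (1 / 2 : ℝ) ^ (I.filter fun e => θ e ≠ b e).card =
      2 ^ Fintype.card E * (3 / 4) ^ I.card := by
  have h1 : ∀ θ : E → ZMod 2, (1 / 2 : ℝ) ^ (I.filter fun e => θ e ≠ b e).card =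
      ∏ e, if e ∈ I ∧ θ e ≠ b e then (1 / 2 : ℝ) else 1 := by
    intro θ
    rw [← prod_filter, prod_const]
    congr 2
    ext e
    simp
  have h2 : ∀ e, ∑ v : ZMod 2, (if e ∈ I ∧ v ≠ b e then (1 / 2 : ℝ) else 1) =
      2 * if e ∈ I then (3 / 4 : ℝ) else 1 := by
    intro e
    have hu : (univ : Finset (ZMod 2)) = {b e, b e + 1} := by
      generalize b e = x
      revert x
      decide
    have hne : b e ≠ b e + 1 := by
      generalize b e = x
      revert x
      decide
    rw [hu, sum_pair hne]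
    by_cases he : e ∈ I
    · simp only [he, true_and, ne_eq, not_true_eq_false, if_false, hne.symm, not_false_eq_true,
        if_true]
      norm_num
    · simp only [he, false_and, if_false]
      norm_num
  simp only [h1]
  rw [← Fintype.piFinset_univ,
    ← prod_univ_sum (fun _ => univ) fun e v => if e ∈ I ∧ v ≠ b e then (1 / 2 : ℝ) else 1]
  simp only [h2]
  rw [prod_mul_distrib, prod_const, card_univ, ← prod_filter, prod_const]
  congr 2
  simp

theorem sign {C : Type} [Fintype C] [DecidableEq C] (hC : Fintype.card C = 200) (n : ℕ)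
    (hn : 0 < n) (π : C → Equiv.Perm (Fin n)) :
    ∃ θ : Fin n × C → ZMod 2, ∀ (U : Finset (Fin n)) (s : Fin n → ZMod 2), 3 * n ≤ 4 * U.card →
      n ≤ ((U ×ˢ (univ : Finset C)).filter
        fun e => π e.2 e.1 ∈ U ∧ θ e ≠ s e.1 + s (π e.2 e.1)).card := by
  by_contra hcon
  push Not at hcon
  set M : ℝ := 2 ^ Fintype.card (Fin n × C) with hM
  have hM0 : 0 < M := by positivity
  let I : Finset (Fin n) → Finset (Fin n × C) := fun U =>
    (U ×ˢ (univ : Finset C)).filter fun e => π e.2 e.1 ∈ U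
  let w : Finset (Fin n) × (Fin n → ZMod 2) → (Fin n × C → ZMod 2) → ℝ := fun x θ =>
    (1 / 2 : ℝ) ^ ((I x.1).filter fun e => θ e ≠ x.2 e.1 + x.2 (π e.2 e.1)).card
  let P : Finset (Finset (Fin n) × (Fin n → ZMod 2)) := univ.filter fun x => 3 * n ≤ 4 * x.1.card
  have h1 : ∀ θ, (1 / 2 : ℝ) ^ n ≤ ∑ x ∈ P, w x θ := by
    intro θ
    obtain ⟨U, s, hU, hs⟩ := hcon θ
    refine le_trans ?_ (single_le_sum (f := fun x => w x θ) (fun x _ => by positivity)
      (show (U, s) ∈ P by simpa [P] using hU))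
    refine pow_le_pow_of_le_one (by norm_num) (by norm_num) ?_
    simp only [I, filter_filter]
    exact hs.le
  have h2 : ∀ x ∈ P, ∑ θ, w x θ ≤ M * ((3 / 4) ^ 100) ^ n := by
    intro x hx
    have hx' : 3 * n ≤ 4 * x.1.card := by simpa [P] using hx
    have := inside_card π x.1 hx'
    rw [hC] at this
    simp only [w]
    rw [sum_weight (I x.1) fun e => x.2 e.1 + x.2 (π e.2 e.1), ← pow_mul]
    refine mul_le_mul_of_nonneg_left ?_ hM0.le
    refine pow_le_pow_of_le_one (by norm_num) (by norm_num) ?_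
    simp only [I]
    omega
  have h3 : (P.card : ℝ) ≤ 4 ^ n := by
    have : P.card ≤ 2 ^ n * 2 ^ n := by
      refine (card_le_univ P).trans ?_
      simp [Fintype.card_prod, Fintype.card_finset, ZMod.card]
    calc (P.card : ℝ) ≤ ((2 ^ n * 2 ^ n : ℕ) : ℝ) := by exact_mod_cast this
      _ = 4 ^ n := by push_cast; rw [← mul_pow]; norm_num
  have h4 : M * (1 / 2) ^ n ≤ 4 ^ n * (M * ((3 / 4) ^ 100) ^ n) := by
    calc M * (1 / 2) ^ n = ∑ _θ : Fin n × C → ZMod 2, (1 / 2 : ℝ) ^ n := by
          rw [sum_const, card_univ, Fintype.card_fun, ZMod.card, nsmul_eq_mul]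
          push_cast
          rfl
      _ ≤ ∑ θ, ∑ x ∈ P, w x θ := sum_le_sum fun θ _ => h1 θ
      _ = ∑ x ∈ P, ∑ θ, w x θ := sum_comm
      _ ≤ ∑ _x ∈ P, M * ((3 / 4) ^ 100) ^ n := sum_le_sum h2
      _ = P.card * (M * ((3 / 4) ^ 100) ^ n) := by rw [sum_const, nsmul_eq_mul]
      _ ≤ _ := mul_le_mul_of_nonneg_right h3 (by positivity)
  have h5 : (4 * (3 / 4) ^ 100 : ℝ) ^ n < (1 / 2) ^ n :=
    pow_lt_pow_left₀ (by norm_num) (by positivity) hn.ne'
  rw [mul_left_comm, ← mul_pow] at h4
  exact absurd (le_of_mul_le_mul_left h4 hM0) (not_le.2 h5)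

end Pool.Agent.Lib.MZ.Sign63
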