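import Pool.Agent.Lib.MZ.REP1
import Pool.Agent.Lib.MZ.Sign63

/-! REP2: weak containment; SIGN. -/

namespace Pool.Agent.Lib.MZ

open Finset Pool.Agent.Lib.IT

theorem finite_of_sq {G : Type} [Group G] (s : Finset G)
    (h : ∀ g ∈ Subgroup.closure (s : Set G), g * g = 1) :
    (Subgroup.closure (s : Set G) : Set G).Finite := by
  have h2 : ∀ g : Subgroup.closure (s : Set G), g * g = 1 := fun g => Subtype.ext (h g g.2)
  have hi : ∀ g : Subgroup.closure (s : Set G), g⁻¹ = g := fun g =>
    inv_eq_of_mul_eq_one_right (h2 g)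
  let _ : CommGroup (Subgroup.closure (s : Set G)) :=
    { (inferInstance : Group (Subgroup.closure (s : Set G))) with
      mul_comm := fun a b => by rw [← hi (a * b), mul_inv_rev, hi, hi] }
  have hf : Group.FG (Subgroup.closure (s : Set G)) := Group.closure_finset_fg s
  have := CommGroup.finite_of_fg_isMulTorsion (Subgroup.closure (s : Set G)) fun g =>
    isOfFinOrder_iff_pow_eq_one.2 ⟨2, two_pos, by rw [sq, h2]⟩
  exact Set.toFinite _

theorem stREP265 (hWC : St_WC) (hHOL : St_HOL) : St_REP2 := by
  intro C W _ _ D θ Γ Γ' _ _ gen gen' pr M X h h' hT ω c t π hπ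
  obtain ⟨-, -, -, h4, -⟩ := hHOL C W D θ Γ gen M
  choose sec hsec using hT.surj
  have hl : ∀ g, FreeGroup.lift gen (sec g) = pr g := fun g => by
    rw [← REP1.pr_lift hT.pr_gen, hsec]
  refine hWC _ Γ π (fun g z => z * pr g.right)
    (fun g => ph h pr ω c t (Multiplicative.toAdd g.left) (sec g.right)) 1
    (fun g => by simpa only [hl] using hπ g _ (hsec _)) (fun z => by simp)
    (fun g g' z => by simp [mul_assoc]) (fun z => ?_) fun s hs => finite_of_sq s fun g hg => ?_
  · obtain ⟨r, rfl⟩ := M.surj z
    exact ⟨.inr (FreeGroup.lift gen' r), by simp [REP1.pr_lift hT.pr_gen]⟩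
  · have h1 : pr g.right = 1 := by
      have : Subgroup.closure (s : Set (Gg h')) ≤ (pr.comp SemidirectProduct.rightHom).ker :=
        (Subgroup.closure_le _).2 fun x hx => by simpa using hs x hx
      exact this hg
    refine SemidirectProduct.ext ?_ ?_
    · apply Multiplicative.toAdd.injective
      refine Subtype.ext (AddMonoidHom.ext fun x => ?_)
      have e : sh h' g.right x = x := by
        obtain ⟨_, u, hu, rfl⟩ := x
        ext k p
        simp [sh, h1]
      have e2 : (Multiplicative.toAdd (g * g).left).1 x = (Multiplicative.toAdd g.left).1 x +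
          (Multiplicative.toAdd g.left).1 (sh h' g.right x) := rfl
      rw [e2, e]
      exact CharTwo.add_self_eq_zero _
    · have e : FreeGroup.lift gen (sec g.right) = 1 := by rw [hl, h1]
      have := (hT.ker (sec g.right * sec g.right)).2 ⟨by rw [map_mul, e, one_mul], fun n z => by
        obtain ⟨k, hk⟩ := h4 _ e n z
        exact ⟨k, by rw [(M.cocy n).mul, e, mul_one, hk, two_mul]⟩⟩
      rwa [map_mul, hsec] at this

theorem stSIGN65 : St_SIGN := by
  classical
  intro C _ n π hC hn
  obtain ⟨θ, hθ⟩ := Sign63.sign hC n hn π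
  exact ⟨θ, fun U s hU => by convert hθ U s hU⟩

end Pool.Agent.Lib.MZ
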