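import Pool.Agent.Lib.MZ.Blue

/-! Block TW: the twisted group. -/

namespace Pool.Agent.Lib.MZ

open Pool.Agent.Lib.IT

namespace TW

variable {S Γ : Type} [Group Γ] {gen : S → Γ}

theorem c_one {c : Γ → FreeGroup S → ℝ} (h : Cocy gen c) (z : Γ) : c z 1 = 0 := by
  have := h.mul z 1 1
  simp only [mul_one, map_one] at this
  linarith

theorem c_inv {c : Γ → FreeGroup S → ℝ} (h : Cocy gen c) (z : Γ) (r : FreeGroup S) :
    c (z * FreeGroup.lift gen r) r⁻¹ = -c z r := by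
  have := h.mul z r r⁻¹
  rw [mul_inv_cancel, c_one h] at this
  linarith

/-- the kernel of the twisted presentation -/
def K (gen : S → Γ) (c : ℕ → Γ → FreeGroup S → ℝ) (h : ∀ n, Cocy gen (c n)) :
    Subgroup (FreeGroup S) where
  carrier := {r | FreeGroup.lift gen r = 1 ∧ ∀ n z, ∃ k : ℤ, c n z r = 2 * k}
  one_mem' := ⟨map_one _, fun n z => ⟨0, by simp [c_one (h n)]⟩⟩
  mul_mem' := by
    rintro r r' ⟨h1, h2⟩ ⟨h3, h4⟩
    refine ⟨by rw [map_mul, h1, h3, one_mul], fun n z => ?_⟩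
    obtain ⟨k, hk⟩ := h2 n z
    obtain ⟨k', hk'⟩ := h4 n z
    refine ⟨k + k', ?_⟩
    rw [(h n).mul, h1, mul_one, hk, hk']
    push_cast
    ring
  inv_mem' := by
    rintro r ⟨h1, h2⟩
    refine ⟨by rw [map_inv, h1, inv_one], fun n z => ?_⟩
    obtain ⟨k, hk⟩ := h2 n z
    refine ⟨-k, ?_⟩
    have := c_inv (h n) z r
    rw [h1, mul_one] at this
    rw [this, hk]
    push_cast
    ring

theorem K_normal (gen : S → Γ) (c : ℕ → Γ → FreeGroup S → ℝ) (h : ∀ n, Cocy gen (c n)) :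
    (K gen c h).Normal := by
  refine ⟨?_⟩
  rintro r ⟨h1, h2⟩ g
  refine ⟨by rw [map_mul, map_mul, h1, mul_one, ← map_mul, mul_inv_cancel, map_one],
    fun n z => ?_⟩
  obtain ⟨k, hk⟩ := h2 n (z * FreeGroup.lift gen g)
  refine ⟨k, ?_⟩
  rw [(h n).mul, (h n).mul, map_mul, h1, mul_one, c_inv (h n), hk]
  ring

theorem cfg_pull {C W Γ' : Type} [Fintype C] [AddCommGroup W] [Group Γ'] {gen : C × W → Γ}
    {gen' : C × W → Γ'} {pr : Γ' →* Γ} (hs : Function.Surjective pr)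
    (hg : ∀ s, pr (gen' s) = gen s) {X : AddSubgroup (Γ → C × Bool → W)} (h : Cfg gen X) :
    Cfg gen' (pull pr X) := by
  classical
  refine ⟨?_, ?_, ?_⟩
  · rintro _ ⟨ω, hω, rfl⟩ g c w
    simp only [map_mul, hg]
    exact h.mat ω hω _ c w
  · rintro _ ⟨ω, hω, rfl⟩ γ
    exact ⟨_, h.shift ω hω (pr γ), funext fun g => by simp only [map_mul]⟩
  · intro ω hω
    obtain ⟨sec, hsec⟩ := hs.hasRightInverse
    refine ⟨fun x => ω (sec x), h.closed _ fun s => ?_, funext fun g => ?_⟩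
    · obtain ⟨_, ⟨ω0, h0, rfl⟩, h1⟩ := hω (s.image sec)
      refine ⟨ω0, h0, fun x hx => ?_⟩
      exact (congrArg ω0 (hsec x)).symm.trans (h1 _ (Finset.mem_image_of_mem _ hx))
    · obtain ⟨_, ⟨ω0, h0, rfl⟩, h1⟩ := hω {g, sec (pr g)}
      exact ((h1 g (by simp)).symm.trans (congrArg ω0 (hsec _)).symm).trans
        (h1 (sec (pr g)) (by simp))

end TW

theorem stTW : St_TW := by
  intro C W _ _ D θ Γ _ gen M X h
  have := TW.K_normal gen M.c M.cocy
  have hl : FreeGroup.lift (fun s => QuotientGroup.mk' (TW.K gen M.c M.cocy) (FreeGroup.of s)) =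
      QuotientGroup.mk' (TW.K gen M.c M.cocy) := by
    ext s
    simp
  have hs : Function.Surjective (FreeGroup.lift
      fun s => QuotientGroup.mk' (TW.K gen M.c M.cocy) (FreeGroup.of s)) := by
    rw [hl]
    exact QuotientGroup.mk'_surjective _
  have hg : ∀ s, QuotientGroup.lift (TW.K gen M.c M.cocy) (FreeGroup.lift gen) (fun _ hr => hr.1)
      (QuotientGroup.mk' (TW.K gen M.c M.cocy) (FreeGroup.of s)) = gen s := fun s => by simp
  refine ⟨FreeGroup (C × W) ⧸ TW.K gen M.c M.cocy, inferInstance,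
    fun s => QuotientGroup.mk' _ (FreeGroup.of s),
    QuotientGroup.lift _ (FreeGroup.lift gen) fun _ hr => hr.1, ⟨hs, hg, fun r => ?_⟩, ?_,
    TW.cfg_pull (fun x => ?_) hg h⟩
  · rw [hl, QuotientGroup.mk'_apply, QuotientGroup.eq_one_iff]
    rfl
  · rw [← FreeGroup.range_lift_eq_closure, MonoidHom.range_eq_top]
    exact hs
  · obtain ⟨r, rfl⟩ := M.surj x
    exact ⟨QuotientGroup.mk r, by simp⟩

end Pool.Agent.Lib.MZ
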