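import Pool.Agent.Lib.IT.ALG
import Pool.Agent.Lib.IT.CFG
import Pool.Agent.Lib.IT.CHE
import Pool.Agent.Lib.IT.CONN
import Pool.Agent.Lib.IT.EXP
import Pool.Agent.Lib.IT.HAAR2
import Pool.Agent.Lib.IT.LIM2
import Pool.Agent.Lib.IT.MEA
import Pool.Agent.Lib.IT.PAR
import Pool.Agent.Lib.IT.POI4
import Pool.Agent.Lib.IT.PRO
import Pool.Agent.Lib.MZ.DAT
import Pool.Agent.Lib.MZ.DBL
import Pool.Agent.Lib.MZ.EXPT
import Pool.Agent.Lib.MZ.EXT1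
import Pool.Agent.Lib.MZ.FIX
import Pool.Agent.Lib.MZ.FLUX
import Pool.Agent.Lib.MZ.GEO2
import Pool.Agent.Lib.MZ.HOL
import Pool.Agent.Lib.MZ.KEY
import Pool.Agent.Lib.MZ.LAZ
import Pool.Agent.Lib.MZ.MON
import Pool.Agent.Lib.MZ.MONS
import Pool.Agent.Lib.MZ.OUT
import Pool.Agent.Lib.MZ.REP265
import Pool.Agent.Lib.MZ.TW

/-! All blocks together. -/

namespace Pool.Agent.Lib.MZ

open Pool.Agent.Lib.IT

theorem stMX : St_MX :=
  main_of stDAT stSIGN65 stDBL (stMONS stGEO2 stFLUX stCON) stTW (stKEY stCON) stEXT1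
    (stEXPT (stEXP stCON) (stKEY stCON) stHOL) (stREP1 stMON stHOL) (stREP265 stWC stHOL) stLAZ
    stFIX stOUT stCFG (stCHE POI4.stPOI4) stHAAR2 stALG stMEA (stPRO2 stALG stPAR stLIM2)

end Pool.Agent.Lib.MZ
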