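import Pool.Agent.Lib.MZ.Defs

/-! Blueprint: block `X` is `theorem stX (earlier blocks) : St_X` in `Lib/MZ/X.lean`. -/

namespace Pool.Agent.Lib.MZ

open Finset Pool.Agent.Lib.IT Filter Topology MeasureTheory

/-- GEO2: birth order with connected gates -/
def St_GEO2 : Prop := ∀ (S Ω : Type) [Countable Ω] (nxt : Ω → S × Bool → Option Ω) (ℓ : Ω → ℕ),
  Small nxt ℓ → ∀ x0, ∃ τ, Order nxt ℓ x0 τ ∧ Diam nxt ℓ τ

open scoped Classical in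
/-- FLUX: a cochain tending to zero with flux through the first copy only -/
def St_FLUX : Prop := ∀ (S Ω : Type) [Finite S] (nxt : Ω → S × Bool → Option Ω) (ℓ : Ω → ℕ)
  (x0 : Ω) (τ : Ω × Gam nxt → ℕ ×ₗ ℕ), Small nxt ℓ →
  (∀ x w, FreeGroup.IsReduced w → w ≠ [] → rd nxt x w = some x → 12 * ℓ x < w.length) →
  (∀ L, {x | ℓ x ≤ L}.Finite) → Order nxt ℓ x0 τ → Diam nxt ℓ τ →
  ∀ θ : Ω → S → ℝ, (∀ x s, |θ x s| ≤ 1) →
  ∃ (c : Gam nxt → FreeGroup S → ℝ) (f : Ω × Gam nxt → ℝ), Cocy PresentedGroup.of c ∧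
    ∀ x y g s, nxt x (s, true) = some y → c g (.of s) =
      if Conn nxt (x0, 1) (x, g) then θ x s else f (y, g * PresentedGroup.of s) - f (x, g)

/-- DAT: the data with larger girth -/
def St_DAT : Prop := ∀ (C W : Type) [Fintype C] [DecidableEq C] [Fintype W] [AddCommGroup W],
  Fintype.card C = 200 → (∀ w : W, w + w = 0) → 2 * 800 ^ 200 < Fintype.card W →
  ∃ D : Data C W, (∀ n, Girth (D.π n) (12 * D.ℓ n)) ∧ StrictMono D.ℓ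

/-- SIGN: a random signing -/
def St_SIGN : Prop := ∀ (C : Type) [Fintype C] (n : ℕ) (π : C → Equiv.Perm (Fin n)),
  Fintype.card C = 200 → 0 < n → ∃ θ, Sgn π θ

/-- DBL: the double cover expands -/
def St_DBL : Prop := ∀ (C : Type) [Fintype C] (n : ℕ) (π : C → Equiv.Perm (Fin n))
  (θ : Fin n × C → ZMod 2), Fintype.card C = 200 → Dens π → Sgn π θ → Dbl π θ

/-- MONS: the monster with its cocycles (from GEO2, FLUX, CON) -/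
def St_MONS : Prop := ∀ (C W : Type) [Fintype C] [DecidableEq C] [Fintype W] [AddCommGroup W]
  (D : Data C W) (θ : ∀ n, Fin (D.N n) × C → ZMod 2), 3 ≤ Fintype.card C →
  (∀ n, Girth (D.π n) (12 * D.ℓ n)) → StrictMono D.ℓ →
  ∃ (Γ : Type) (_ : Group Γ) (gen : C × W → Γ), Nonempty (Mon D θ gen)

/-- TW: the twisted group -/
def St_TW : Prop := ∀ (C W : Type) [Fintype C] [AddCommGroup W] (D : Data C W)
  (θ : ∀ n, Fin (D.N n) × C → ZMod 2) (Γ : Type) [Group Γ] (gen : C × W → Γ) (M : Mon D θ gen)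
  (X : AddSubgroup (Γ → C × Bool → W)), Cfg gen X →
  ∃ (Γ' : Type) (_ : Group Γ') (gen' : C × W → Γ') (pr : Γ' →* Γ), Twist M gen' pr ∧
    Subgroup.closure (Set.range gen') = ⊤ ∧ Cfg gen' (pull pr X)

/-- HOL: holonomy of closed words -/
def St_HOL : Prop := ∀ (C W : Type) [Fintype C] [AddCommGroup W] (D : Data C W)
  (θ : ∀ n, Fin (D.N n) × C → ZMod 2) (Γ : Type) [Group Γ] (gen : C × W → Γ) (M : Mon D θ gen),
  (∀ m ι, IsCopy D gen m ι → ∀ a w,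
    ι a * FreeGroup.lift gen (wd D m a w) = ι (walk (D.π m) a w)) ∧
  (∀ m a w, ∃ k : ℤ, M.c m (M.ι0 m a) (wd D m a w) = k ∧
    (k : ZMod 2) = (lab (D.π m) (θ m) a w).sum) ∧
  (∀ m a w, walk (D.π m) a w = a → ∀ n z, M.c n z (wd D m a w) = 0 ∨
    M.c n z (wd D m a w) = M.c m (M.ι0 m a) (wd D m a w)) ∧
  (∀ r, FreeGroup.lift gen r = 1 → ∀ n z, ∃ k : ℤ, M.c n z r = k) ∧
  ∀ r, FreeGroup.lift gen r = 1 → ∃ n0, ∀ n, n0 ≤ n → ∀ z, M.c n z r = 0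

/-- KEY: finite orbits are full copies (from CON; `EXP.key` with two more outputs) -/
def St_KEY : Prop := ∀ (C W : Type) [Fintype C] [DecidableEq C] [Fintype W] [AddCommGroup W]
  (D : Data C W) (Γ : Type) [Group Γ] (gen : C × W → Γ) (h : Cfg gen (Xg D gen Set.univ))
  (n0 : ℕ) (_ : Birth D gen n0), Fintype.card C = 200 → (∀ w : W, w + w = 0) →
  ∀ ω g, (orb (sig h ω) g).Finite →
    ∃ n ι, Full D gen ω.1 n ι ∧ orb (sig h ω) g = Set.range ι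

/-- EXT1: a configuration with exactly one full copy -/
def St_EXT1 : Prop := ∀ (C W : Type) [Fintype C] [AddCommGroup W] (D : Data C W) (Γ : Type)
  [Group Γ] (gen : C × W → Γ) (n : ℕ) (B : Birth D gen n) (t : ℕ ×ₗ ℕ) (ι0 : Fin (D.N n) → Γ),
  1 ≤ Fintype.card C → B.big t = some ⟨n, ι0⟩ → (∀ a, B.β (ι0 a) = t) →
  ∃ ω ∈ Xg D gen Set.univ, Full D gen ω n ι0 ∧
    ∀ m ι, Full D gen ω m ι → (⟨m, ι⟩ : Σ m, Fin (D.N m) → Γ) = ⟨n, ι0⟩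

/-- EXPT: uniform expansion for the twisted group (from EXP, KEY, HOL) -/
def St_EXPT : Prop := ∀ (C W : Type) [Fintype C] [DecidableEq C] [Fintype W] [AddCommGroup W]
  (D : Data C W) (θ : ∀ n, Fin (D.N n) × C → ZMod 2) (Γ Γ' : Type) [Group Γ] [Group Γ']
  (gen : C × W → Γ) (gen' : C × W → Γ') (pr : Γ' →* Γ) (M : Mon D θ gen)
  (_ : Cfg gen (Xg D gen Set.univ)) (h' : Cfg gen' (pull pr (Xg D gen Set.univ))),
  Fintype.card C = 200 → (∀ w : W, w + w = 0) → Twist M gen' pr →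
  (∀ n, Dbl (D.π n) (θ n)) → ∀ ω, Expands (sig h' ω)

/-- MON: monomial operators -/
def St_MON : Prop := ∀ Z : Type,
  (∀ (σ : Equiv.Perm Z) (u : Z → ℝ), ∃ T, IsMon T σ u) ∧
  ∀ (σ : Equiv.Perm Z) (u u' : Z → ℝ) (T T' : EC Z ≃ₗᵢ[ℝ] EC Z), IsMon T σ u → IsMon T' σ u' →
    (∀ δ, 0 ≤ δ → (∀ z, |u z - u' z| ≤ δ) → ‖toB T - toB T'‖ ≤ δ) ∧
    ((∀ ε, 0 < ε → {z | ε ≤ |u z - u' z|}.Finite) → IsCompactOperator (toB T - toB T'))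

/-- WC: transitive monomial representations with locally finite stabilizers are weakly contained
in the regular representation -/
def St_WC : Prop := ∀ (G Z : Type) [Group G] (π : G →* (EC Z ≃ₗᵢ[ℝ] EC Z)) (σ : G → Z → Z)
  (u : G → Z → ℝ) (z0 : Z), (∀ g, IsMon (π g) (σ g) (u g)) → (∀ z, σ 1 z = z) →
  (∀ g g' z, σ (g * g') z = σ g' (σ g z)) → (∀ z, ∃ g, σ g z0 = z) →
  (∀ s : Finset G, (∀ g ∈ s, σ g z0 = z0) → (Subgroup.closure (s : Set G) : Set G).Finite) →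
  ∀ b, ‖rep π b‖ ≤ ‖LIM.Lam b‖

/-- REP1: the path of flux representations (from MON, HOL) -/
def St_REP1 : Prop := ∀ (C W : Type) [Fintype C] [AddCommGroup W]
  (D : Data C W) (θ : ∀ n, Fin (D.N n) × C → ZMod 2) (Γ Γ' : Type) [Group Γ] [Group Γ']
  (gen : C × W → Γ) (gen' : C × W → Γ') (pr : Γ' →* Γ) (M : Mon D θ gen)
  (X : AddSubgroup (Γ → C × Bool → W)) (h : Cfg gen X) (h' : Cfg gen' (pull pr X)),
  Twist M gen' pr → ∀ F : Finset (Gg h'), ∃ n, ∀ ω : X,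
  ∃ (π0 π1 : Gg h' →* (EC Γ ≃ₗᵢ[ℝ] EC Γ)) (U : Gg h' → ℝ → (EC Γ ≃ₗᵢ[ℝ] EC Γ)),
    IsFl h h' ω (M.c n) 0 π0 ∧ IsFl h h' ω (M.c n) 1 π1 ∧ (∀ g, U g 0 = π0 g) ∧
    (∀ g, U g 1 = π1 g) ∧ (∀ g ∈ F, ∀ g' ∈ F, ∀ t, U (g * g') t = U g t * U g' t) ∧
    (∀ g, Continuous fun t => toB (U g t)) ∧
    ∀ g t, IsCompactOperator (toB (U g t) - toB (U g 0))

/-- REP2: both ends are weakly contained in the regular representation (from WC, HOL) -/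
def St_REP2 : Prop := ∀ (C W : Type) [Fintype C] [AddCommGroup W]
  (D : Data C W) (θ : ∀ n, Fin (D.N n) × C → ZMod 2) (Γ Γ' : Type) [Group Γ] [Group Γ']
  (gen : C × W → Γ) (gen' : C × W → Γ') (pr : Γ' →* Γ) (M : Mon D θ gen)
  (X : AddSubgroup (Γ → C × Bool → W)) (h : Cfg gen X) (h' : Cfg gen' (pull pr X)),
  Twist M gen' pr → ∀ ω c t π, IsFl h h' ω c t π → ∀ b, ‖rep π b‖ ≤ ‖LIM.Lam b‖

/-- LAZ: the element `aX` acts as the lazy walk with flux -/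
def St_LAZ : Prop := ∀ (C W : Type) [Fintype C] [Fintype W] [AddCommGroup W]
  (Γ Γ' : Type) [Group Γ] [Group Γ'] (gen : C × W → Γ) (gen' : C × W → Γ') (pr : Γ' →* Γ)
  (X : AddSubgroup (Γ → C × Bool → W)) (h : Cfg gen X) (h' : Cfg gen' (pull pr X)),
  (∀ w : W, w + w = 0) → ∀ ω c t π, Cocy gen c → IsFl h h' ω c t π →
  IsLz h ω c t (rep π (aX h'))

/-- FIX: fixed vectors of the lazy walks with flux `0` and `π` -/
def St_FIX : Prop := ∀ (C W : Type) [Fintype C] [AddCommGroup W] (D : Data C W) (Γ : Type)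
  [Group Γ] (gen : C × W → Γ) (X : AddSubgroup (Γ → C × Bool → W)) (h : Cfg gen X) (ω : X)
  (c : Γ → FreeGroup (C × W) → ℝ) (n : ℕ) (ι0 : Fin (D.N n) → Γ) (θ : Fin (D.N n) × C → ZMod 2),
  1 ≤ Fintype.card C → Full D gen ω.1 n ι0 →
  (∀ g, (orb (sig h ω) g).Finite → orb (sig h ω) g = Set.range ι0) → Sgn (D.π n) θ →
  (∀ e, c (ι0 e.1) (.of (e.2, D.y n e)) = (θ e).val) →
  (∀ T, IsLz h ω c 0 T → ∃ ξ, ξ ≠ 0 ∧ T ξ = ξ) ∧
    ∀ T, IsLz h ω c 1 T → ∀ η, T η = η → η = 0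

/-- PSI: extension to the reduced algebra -/
def St_PSI : Prop := ∀ (G E : Type) [Group G] [NormedAddCommGroup E] [NormedSpace ℝ E]
  [CompleteSpace E] (T : MonoidAlgebra ℝ G →ₐ[ℝ] (E →L[ℝ] E)), (∀ b, ‖T b‖ ≤ ‖LIM.Lam b‖) →
  ∃ Ψ : (L2 G →L[ℝ] L2 G) → (E →L[ℝ] E), (∀ b, Ψ (LIM.Lam b) = T b) ∧
    ∀ x ∈ redAlg G, ∀ y ∈ redAlg G,
      Ψ (x + y) = Ψ x + Ψ y ∧ Ψ (x * y) = Ψ x * Ψ y ∧ ‖Ψ x - Ψ y‖ ≤ ‖x - y‖

/-- FIN: the abstract index obstruction -/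
def St_FIN : Prop := ∀ (A B E : Type) [Ring A] [Ring B] [NormedAddCommGroup E] [NormedSpace ℝ E]
  [CompleteSpace E] (P : ℝ → A →+* (E →L[ℝ] E)) (Φ : A →+* B) (Ψ0 Ψ1 : B →+* (E →L[ℝ] E)) (p : B),
  p * p = p → (∀ a, Continuous fun t => P t a) → (∀ t a, IsCompactOperator (P t a - P 0 a)) →
  (∀ b, IsCompactOperator (Ψ1 b - Ψ0 b)) → (∀ a, Ψ0 (Φ a) = P 0 a) → (∀ a, Ψ1 (Φ a) = P 1 a) →
  Ψ1 p = 0 → Ψ0 p ≠ 0 → ∀ x : BCH.K0 A, BCH.K0.map (Φ : A →ₙ+* B) x ≠ BCH.cls1 p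

/-- OUT: the direct sum of all representations of the path (from PSI, FIN) -/
def St_OUT : Prop := ∀ (G E : Type) [Group G] [NormedAddCommGroup E] [InnerProductSpace ℝ E]
  [CompleteSpace E] (a : MonoidAlgebra ℝ G) (p : L2 G →L[ℝ] L2 G), p * p = p →
  Tendsto (fun m : ℕ => LIM.Lam (a ^ m)) atTop (𝓝 p) →
  ∀ (F : Finset G) (π0 π1 : G →* (E ≃ₗᵢ[ℝ] E)) (U : G → ℝ → (E ≃ₗᵢ[ℝ] E)),
    Core a F π0 π1 U → Obs p F

/-- block PRO of `IT` with the operator norm limit (`IT.stPRO2`) -/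
def St_PRO2 : Prop := ∀ (C W : Type) [Fintype C] [Fintype W] [AddCommGroup W] (Γ : Type) [Group Γ]
  (gen : C × W → Γ) (X : AddSubgroup (Γ → C × Bool → W)) (h : Cfg gen X)
  (m : MeasurableSpace X) (μ : Measure X) (ρ : ℝ), (∀ w : W, w + w = 0) → Haar X m μ → 0 ≤ ρ →
  ρ < 1 → (∀ ω, Converges (sig h ω) ρ) →
  Integrable (fun ω => 1 / ((orb (sig h ω) 1).ncard : ℝ)) μ →
  ∃ p ∈ redAlg (Gg h), p * p = p ∧ IsSelfAdjoint p ∧
    tr p = ∫ ω, 1 / ((orb (sig h ω) 1).ncard : ℝ) ∂μ ∧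
    ∀ T : MonoidAlgebra ℝ (Gg h) →ₐ[ℝ] (L2 (Gg h) →L[ℝ] L2 (Gg h)),
      (∀ g ξ x, T (MonoidAlgebra.single g 1) ξ x = ξ (g⁻¹ * x)) →
      Tendsto (fun m : ℕ => T (aX h ^ m)) atTop (nhds p)

/-- the theorem -/
def St_MX : Prop := ∃ (G : Type) (_ : Group G), Group.FG G ∧
  ∃ p ∈ redAlg G, p * p = p ∧ ∀ F : Finset G, Obs p F

theorem main_of (hDAT : St_DAT) (hSIGN : St_SIGN) (hDBL : St_DBL) (hMONS : St_MONS) (hTW : St_TW)
    (hKEY : St_KEY) (hEXT1 : St_EXT1) (hEXPT : St_EXPT) (hREP1 : St_REP1) (hREP2 : St_REP2)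
    (hLAZ : St_LAZ) (hFIX : St_FIX) (hOUT : St_OUT) (hCFG : St_CFG) (hCHE : St_CHE)
    (hHAAR : St_HAAR) (hALG : St_ALG) (hMEA : St_MEA) (hPRO : St_PRO2) : St_MX := by
  classical
  obtain ⟨C, iC, hC⟩ : ∃ (C : Type) (_ : Fintype C), Fintype.card C = 200 :=
    ⟨Fin 200, inferInstance, Fintype.card_fin _⟩
  obtain ⟨W, iW, gW, h2, hW⟩ : ∃ (W : Type) (_ : Fintype W) (_ : AddCommGroup W),
      (∀ w : W, w + w = 0) ∧ 2 * 800 ^ 200 < Fintype.card W := by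
    have hx : ∀ x : ℕ, ∃ b : ℕ, x < 2 ^ b := fun x => ⟨x, Nat.lt_two_pow_self⟩
    obtain ⟨b, hb⟩ := hx (2 * 800 ^ 200)
    refine ⟨Fin b → ZMod 2, inferInstance, inferInstance, fun w => ?_, ?_⟩
    · ext i; exact CharTwo.add_self_eq_zero _
    · simpa [Fintype.card_fun, ZMod.card] using hb
  obtain ⟨D, hg, hl⟩ := hDAT C W hC h2 hW
  choose θ hθ using fun n => hSIGN C (D.N n) (D.π n) hC (D.pos n)
  obtain ⟨Γ, iΓ, gen, ⟨M⟩⟩ := hMONS C W D θ (by omega) hg hl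
  have h := hCFG C W D Γ gen Set.univ
  obtain ⟨Γ', iΓ', gen', pr, hT, hgen, h'⟩ := hTW C W D θ Γ gen M _ h
  obtain ⟨m, μ, hμ⟩ := hHAAR C W Γ' gen' _ h'
  obtain ⟨ρ, h0, h1, hρ⟩ := hCHE C (by omega)
  have hE := hEXPT C W D θ Γ Γ' gen gen' pr M h h' hC h2 hT
    fun n => hDBL C _ _ _ hC (D.dens n) (hθ n)
  obtain ⟨Q, -, -, hQ⟩ := hMEA C W
  obtain ⟨p, hp, hpp, -, -, hlim⟩ := hPRO C W Γ' gen' _ h' m μ ρ h2 hμ h0 h1
    (fun ω => hρ _ _ (hE ω)) (hQ Γ' gen' _ h' m μ hμ).1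
  refine ⟨Gg h', inferInstance, (hALG C W Γ' gen' _ h' h2).1 hgen, p, hp, hpp, fun F => ?_⟩
  obtain ⟨n, hn⟩ := hREP1 C W D θ Γ Γ' gen gen' pr M _ h h' hT F
  obtain ⟨t, ht, ht'⟩ := M.first n
  obtain ⟨ω, hω, hf, hu⟩ := hEXT1 C W D Γ gen n (M.B n) t (M.ι0 n) (by omega) ht ht'
  obtain ⟨π0, π1, U, a0, a1, a2, a3, a4, a5, a6⟩ := hn ⟨ω, hω⟩
  obtain ⟨b0, b1⟩ := hFIX C W D Γ gen _ h ⟨ω, hω⟩ (M.c n) n (M.ι0 n) (θ n) (by omega) hf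
    (fun g hg => by
      obtain ⟨k, ι, c1, c2⟩ := hKEY C W D Γ gen h n (M.B n) hC h2 _ g hg
      have c3 := hu k ι c1
      rw [c2]
      exact congrArg (fun x : Σ m, Fin (D.N m) → Γ => Set.range x.2) c3) (hθ n) (M.base n)
  exact hOUT _ _ (aX h') p hpp (hlim _ fun g ξ x => by rw [LIM.Lam_single, one_smul]; rfl) F π0 π1 U
    ⟨a2, a3, a4, a5, a6, hREP2 C W D θ Γ Γ' gen gen' pr M _ h h' hT _ _ _ _ a0,
      hREP2 C W D θ Γ Γ' gen gen' pr M _ h h' hT _ _ _ _ a1,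
      b0 _ (hLAZ C W Γ Γ' gen gen' pr _ h h' h2 _ _ _ _ (M.cocy n) a0),
      b1 _ (hLAZ C W Γ Γ' gen gen' pr _ h h' h2 _ _ _ _ (M.cocy n) a1)⟩

end Pool.Agent.Lib.MZ
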