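import Pool.Agent.Lib.IT.BIR
import Pool.Agent.Lib.IT.Geo0
import Pool.Agent.Lib.IT.LIM
import Pool.Agent.Lib.BCH.KApi

/-! Definitions for the flux obstruction (see b169_MXZ2_h65.md). -/

namespace Pool.Agent.Lib.MZ

open Finset Pool.Agent.Lib.IT
open Pool.Agent.Lib.MP_f40e16_al (Wk)

section Geo
variable {S Ω Γ : Type} [Group Γ]

/-- steps inside the gate -/
def GS (nxt : Ω → S × Bool → Option Ω) (τ : Ω × Gam nxt → ℕ ×ₗ ℕ) (p : Ω × Gam nxt) (l : S × Bool)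
    (q : Ω × Gam nxt) : Prop :=
  nxt p.1 l = some q.1 ∧ q.2 = p.2 * val nxt [l] ∧ Gate τ p ∧ Gate τ q

/-- gate points are joined by a short walk inside the gate -/
def Diam (nxt : Ω → S × Bool → Option Ω) (ℓ : Ω → ℕ) (τ : Ω × Gam nxt → ℕ ×ₗ ℕ) : Prop :=
  ∀ p q, Conn nxt p q → Gate τ p → Gate τ q → ∃ w, w.length ≤ 5 * ℓ p.1 ∧ Wk (GS nxt τ) p w q

/-- sums along words of a real cochain on the Cayley graph which tends to zero at infinity -/
structure Cocy (gen : S → Γ) (c : Γ → FreeGroup S → ℝ) : Prop where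
  mul : ∀ z r r', c z (r * r') = c z r + c (z * FreeGroup.lift gen r) r'
  fin : ∀ r ε, 0 < ε → {z | ε ≤ |c z r|}.Finite

end Geo

section Sign
variable {C : Type} [Fintype C] {n : ℕ}

open scoped Classical in
/-- a signing which is far from the coboundaries on all large sets -/
def Sgn (π : C → Equiv.Perm (Fin n)) (θ : Fin n × C → ZMod 2) : Prop :=
  ∀ (U : Finset (Fin n)) (s : Fin n → ZMod 2), 3 * n ≤ 4 * U.card →
    n ≤ ((U ×ˢ (univ : Finset C)).filter fun e => π e.2 e.1 ∈ U ∧ θ e ≠ s e.1 + s (π e.2 e.1)).card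

/-- sets of at most half of the double cover have a large boundary -/
def Dbl (π : C → Equiv.Perm (Fin n)) (θ : Fin n × C → ZMod 2) : Prop :=
  ∀ U : Finset (Fin n × ZMod 2), U.card ≤ n → U.card ≤
    {e : (Fin n × ZMod 2) × C | e.1 ∈ U ∧ (π e.2 e.1.1, e.1.2 + θ (e.1.1, e.2)) ∉ U}.ncard

end Sign

section Data
variable {C W : Type} [Fintype C] [AddCommGroup W] {Γ Γ' : Type} [Group Γ] [Group Γ']

/-- the word read along a walk in graph `n` -/
def wd (D : Data C W) (n : ℕ) : Fin (D.N n) → List (C × Bool) → FreeGroup (C × W)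
  | _, [] => 1
  | a, l :: w => FreeGroup.mk [((l.1, D.y n (edge (D.π n) a l)), l.2)] * wd D n (step (D.π n) a l) w

/-- closed words of the graphs with number in `J` -/
def Rel (D : Data C W) (J : Set ℕ) : Set (FreeGroup (C × W)) :=
  {r | ∃ n ∈ J, ∃ a w, walk (D.π n) a w = a ∧ r = wd D n a w}

/-- the monster group with its birth orders, base copies and flux cocycles -/
structure Mon (D : Data C W) (θ : ∀ n, Fin (D.N n) × C → ZMod 2) (gen : C × W → Γ) where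
  B : ∀ n, Birth D gen n
  ι0 : ∀ n, Fin (D.N n) → Γ
  c : ℕ → Γ → FreeGroup (C × W) → ℝ
  surj : Function.Surjective (FreeGroup.lift gen)
  pres : ∀ r, FreeGroup.lift gen r = 1 → r ∈ Subgroup.normalClosure (Rel D Set.univ)
  first : ∀ n, ∃ t, (B n).big t = some ⟨n, ι0 n⟩ ∧ ∀ a, (B n).β (ι0 n a) = t
  cocy : ∀ n, Cocy gen (c n)
  base : ∀ n e, c n (ι0 n e.1) (.of (e.2, D.y n e)) = (θ n e).val
  other : ∀ n m ι, IsCopy D gen m ι → (⟨m, ι⟩ : Σ m, Fin (D.N m) → Γ) ≠ ⟨n, ι0 n⟩ →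
    ∃ f : Fin (D.N m) → ℝ, ∀ e, c n (ι e.1) (.of (e.2, D.y m e)) = f (D.π m e.2 e.1) - f e.1

/-- `Γ'` is the extension of `Γ` with one flux variable of order two for each copy -/
structure Twist {D : Data C W} {θ : ∀ n, Fin (D.N n) × C → ZMod 2} {gen : C × W → Γ}
    (M : Mon D θ gen) (gen' : C × W → Γ') (pr : Γ' →* Γ) : Prop where
  surj : Function.Surjective (FreeGroup.lift gen')
  pr_gen : ∀ s, pr (gen' s) = gen s
  ker : ∀ r, FreeGroup.lift gen' r = 1 ↔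
    FreeGroup.lift gen r = 1 ∧ ∀ n z, ∃ k : ℤ, M.c n z r = 2 * k

/-- pull back of configurations -/
def pull (pr : Γ' →* Γ) (X : AddSubgroup (Γ → C × Bool → W)) :
    AddSubgroup (Γ' → C × Bool → W) where
  carrier := {ω | ∃ ω0 ∈ X, ω = fun g => ω0 (pr g)}
  add_mem' := by
    rintro _ _ ⟨u, hu, rfl⟩ ⟨v, hv, rfl⟩
    exact ⟨u + v, X.add_mem hu hv, rfl⟩
  zero_mem' := ⟨0, X.zero_mem, rfl⟩
  neg_mem' := by
    rintro _ ⟨u, hu, rfl⟩
    exact ⟨-u, X.neg_mem hu, rfl⟩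

/-- the copy `ι` of graph `n` is full for `ω` -/
def Full (D : Data C W) (gen : C × W → Γ) (ω : Γ → C × Bool → W) (n : ℕ)
    (ι : Fin (D.N n) → Γ) : Prop :=
  IsCopy D gen n ι ∧ Function.Injective ι ∧ ∀ e, ω (ι e.1) (e.2, true) = D.y n e

/-- the configuration seen from `z`, pulled back -/
def pb {gen : C × W → Γ} {X : AddSubgroup (Γ → C × Bool → W)} (h : Cfg gen X) (pr : Γ' →* Γ)
    (ω : X) (z : Γ) : pull pr X :=
  ⟨fun g => ω.1 (z * pr g), _, h.shift ω.1 ω.2 z, rfl⟩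

/-- the phase of the element `(v, r)` at the point `z` for the flux `π t` -/
noncomputable def ph {gen : C × W → Γ} {X : AddSubgroup (Γ → C × Bool → W)} (h : Cfg gen X)
    (pr : Γ' →* Γ) (ω : X) (c : Γ → FreeGroup (C × W) → ℝ) (t : ℝ) (v : Vg (pull pr X))
    (r : FreeGroup (C × W)) (z : Γ) : ℝ :=
  Real.pi * ((v.1 (pb h pr ω z)).val + t * c z r)

end Data

section Rep
variable {G E : Type} [Group G] [NormedAddCommGroup E] [InnerProductSpace ℝ E]

/-- an isometry as an operator -/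
def toB : (E ≃ₗᵢ[ℝ] E) →* (E →L[ℝ] E) where
  toFun U := U.toContinuousLinearEquiv.toContinuousLinearMap
  map_one' := rfl
  map_mul' _ _ := rfl

/-- the representation of the group algebra -/
noncomputable def rep (π : G →* (E ≃ₗᵢ[ℝ] E)) : MonoidAlgebra ℝ G →ₐ[ℝ] (E →L[ℝ] E) :=
  MonoidAlgebra.lift ℝ _ G (toB.comp π)

/-- two representations weakly contained in the regular one, which see a different number of
vectors fixed by `a`, joined by a path `U` of compact perturbations, multiplicative on `F` -/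
structure Core (a : MonoidAlgebra ℝ G) (F : Finset G) (π0 π1 : G →* (E ≃ₗᵢ[ℝ] E))
    (U : G → ℝ → (E ≃ₗᵢ[ℝ] E)) : Prop where
  zero : ∀ g, U g 0 = π0 g
  one : ∀ g, U g 1 = π1 g
  mul : ∀ g ∈ F, ∀ g' ∈ F, ∀ t, U (g * g') t = U g t * U g' t
  cont : ∀ g, Continuous fun t => toB (U g t)
  cpt : ∀ g t, IsCompactOperator (toB (U g t) - toB (U g 0))
  wc0 : ∀ b, ‖rep π0 b‖ ≤ ‖LIM.Lam b‖
  wc1 : ∀ b, ‖rep π1 b‖ ≤ ‖LIM.Lam b‖
  fix0 : ∃ ξ, ξ ≠ 0 ∧ rep π0 a ξ = ξ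
  fix1 : ∀ η, rep π1 a η = η → η = 0

/-- complex valued square summable functions, as a real Hilbert space -/
abbrev EC (Z : Type) : Type := lp (fun _ : Z => ℂ) 2

/-- `T` is the monomial operator with permutation `σ` and phase `u` -/
def IsMon {Z : Type} (T : EC Z ≃ₗᵢ[ℝ] EC Z) (σ : Z → Z) (u : Z → ℝ) : Prop :=
  ∀ ξ z, T ξ z = Complex.exp (u z * Complex.I) * ξ (σ z)

/-- the obstruction: a representation `ρ` of a group `H` over `G`, in which `F` lifts, which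
contains the regular representation of `G` and whose algebra does not see the class of `p` -/
def Obs (p : L2 G →L[ℝ] L2 G) (F : Finset G) : Prop :=
  ∃ (H : Type) (_ : Group H) (q : H →* G) (s : G → H) (K : Type) (_ : NormedAddCommGroup K)
    (_ : InnerProductSpace ℝ K) (_ : CompleteSpace K) (ρ : H →* (K ≃ₗᵢ[ℝ] K))
    (j : L2 G →ₗᵢ[ℝ] K), (∀ g, q (s g) = g) ∧ (∀ g ∈ F, ∀ g' ∈ F, s (g * g') = s g * s g') ∧
    (∀ x ξ, ρ x (j ξ) = j (LIM.lam (q x) ξ)) ∧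
    ∀ (A : Subalgebra ℝ (K →L[ℝ] K)) (R : Subalgebra ℝ (L2 G →L[ℝ] L2 G)),
      (A : Set (K →L[ℝ] K)) ⊆
        closure (Submodule.span ℝ (Set.range fun x => toB (ρ x)) : Set (K →L[ℝ] K)) →
      (R : Set (L2 G →L[ℝ] L2 G)) ⊆ redAlg G → ∀ (hp : p ∈ R) (Φ : A →+* R),
      (∀ c ξ, c.1 (j ξ) = j ((Φ c).1 ξ)) →
      ∀ x : BCH.K0 A, BCH.K0.map (Φ : A →ₙ+* R) x ≠ BCH.cls1 (⟨p, hp⟩ : R)

end Rep

section Tw
variable {C W : Type} [Fintype C] [AddCommGroup W] {Γ Γ' : Type} [Group Γ] [Group Γ']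
  {gen : C × W → Γ} {gen' : C × W → Γ'} {pr : Γ' →* Γ} {X : AddSubgroup (Γ → C × Bool → W)}

/-- `π` is the representation given by the configuration `ω` and the flux `π t` -/
def IsFl (h : Cfg gen X) (h' : Cfg gen' (pull pr X)) (ω : X) (c : Γ → FreeGroup (C × W) → ℝ)
    (t : ℝ) (π : Gg h' →* (EC Γ ≃ₗᵢ[ℝ] EC Γ)) : Prop :=
  ∀ (x : Gg h') (r : FreeGroup (C × W)), FreeGroup.lift gen' r = x.right →
    IsMon (π x) (fun z => z * FreeGroup.lift gen r)
      (ph h pr ω c t (Multiplicative.toAdd x.left) r)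

/-- `T` is the lazy walk with flux `π t` -/
def IsLz (h : Cfg gen X) (ω : X) (c : Γ → FreeGroup (C × W) → ℝ) (t : ℝ)
    (T : EC Γ →L[ℝ] EC Γ) : Prop :=
  ∀ ξ z, T ξ z = ξ z / 2 + (∑ p : C × Bool,
    Complex.exp ((Real.pi * (t * c z (FreeGroup.mk [((p.1, ω.1 z p), p.2)])) : ℝ) * Complex.I) *
      ξ (step (sig h ω) z p)) / (4 * Fintype.card C)

end Tw

end Pool.Agent.Lib.MZ

theorem Pool.Agent.Lib.MZ.Defs.rlz0 : True := by
  have := @Pool.Agent.Lib.MZ.wd.eq_def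
  trivial
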