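import Pool.Agent.Lib.MZ.Blue
import Pool.Agent.Lib.IT.EXT

/-! Block EXT1: a configuration with exactly one full copy. -/

namespace Pool.Agent.Lib.MZ

open Finset Pool.Agent.Lib.IT

namespace EXT7

section
variable {C W : Type} [Fintype C] [AddCommGroup W] {D : Data C W} {Γ : Type} [Group Γ]
  {gen : C × W → Γ} {n0 : ℕ}

/-- what the word chosen on a new copy has to satisfy -/
def ExtSpec (B : Birth D gen n0) (I : ℕ ×ₗ ℕ) (t : ℕ ×ₗ ℕ) (n : ℕ) (ι : Fin (D.N n) → Γ)
    (prev : Γ → C × Bool → W) (u : Fin (D.N n) × C → W) : Prop :=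
  (t ≠ I → u ∈ D.code n) ∧ (∀ a c, B.β (ι a) < t → u (a, c) = prev (ι a) (c, true)) ∧
    (∀ a c, ¬ B.β (ι a) < t → B.β (ι (D.π n c a)) < t →
      u (a, c) = prev (ι (D.π n c a)) (c, false)) ∧
    (t = I → u = D.y n)

theorem ext_exists (B : Birth D gen n0) (I : ℕ ×ₗ ℕ) (t : ℕ ×ₗ ℕ) (n : ℕ) (ι : Fin (D.N n) → Γ)
    (ht : B.big t = some ⟨n, ι⟩) (hI : t = I → ∀ a, B.β (ι a) = t) (prev : Γ → C × Bool → W) :
    ∃ u, ExtSpec B I t n ι prev u := by
  classical
  by_cases h0 : t = I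
  · refine ⟨D.y n, fun h => absurd h0 h, fun a c h => ?_, fun a c _ h => ?_, fun _ => rfl⟩
    · exact absurd (hI h0 a) h.ne
    · exact absurd (hI h0 _) h.ne
  · set P : Finset (Fin (D.N n)) := univ.filter fun a => B.β (ι a) < t with hP
    set E : Finset (Fin (D.N n) × C) :=
      (P ×ˢ univ) ∪ (P ×ˢ univ).image (fun e => ((D.π n e.2).symm e.1, e.2)) with hE
    have hPc : P.card ≤ (2 * Fintype.card C + 1) ^ (5 * D.ℓ n) := B.gate_card t n ι ht
    have hEc : E.card ≤ 2 * (P.card * Fintype.card C) := by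
      have h1 : (P ×ˢ (univ : Finset C)).card = P.card * Fintype.card C := by
        rw [card_product, card_univ]
      have h2 := card_union_le (P ×ˢ (univ : Finset C))
        ((P ×ˢ univ).image (fun e => ((D.π n e.2).symm e.1, e.2)))
      have h3 := card_image_le (s := P ×ˢ (univ : Finset C))
        (f := fun e => ((D.π n e.2).symm e.1, e.2))
      rw [hE]
      omega
    have hle : 16 * E.card ≤ Fintype.card (Fin (D.N n) × C) := by
      rw [Fintype.card_prod, Fintype.card_fin]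
      have h4 := D.gate n
      calc 16 * E.card ≤ 32 * P.card * Fintype.card C := by nlinarith
        _ ≤ D.N n * Fintype.card C := Nat.mul_le_mul_right _ (by omega)
    obtain ⟨u, hu, huE⟩ := (D.good n).onto E hle (fun e =>
      if B.β (ι e.1) < t then prev (ι e.1) (e.2, true) else prev (ι (D.π n e.2 e.1)) (e.2, false))
    refine ⟨u, fun _ => hu, fun a c h => ?_, fun a c h h' => ?_, fun h => absurd h h0⟩
    · rw [huE (a, c) (mem_union_left _ (by simp [hP, h]))]
      simp [h]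
    · rw [huE (a, c) (mem_union_right _ (mem_image.2 ⟨(D.π n c a, c), by simp [hP, h'], by simp⟩))]
      simp [h]

open scoped Classical in
/-- the word on a new copy -/
noncomputable def extU (B : Birth D gen n0) (I : ℕ ×ₗ ℕ) (t : ℕ ×ₗ ℕ) (n : ℕ)
    (ι : Fin (D.N n) → Γ) (prev : Γ → C × Bool → W) : Fin (D.N n) × C → W :=
  if h : ∃ u, ExtSpec B I t n ι prev u then h.choose else 0

theorem extU_spec (B : Birth D gen n0) (I : ℕ ×ₗ ℕ) (t : ℕ ×ₗ ℕ) (n : ℕ) (ι : Fin (D.N n) → Γ)
    (ht : B.big t = some ⟨n, ι⟩) (hI : t = I → ∀ a, B.β (ι a) = t) (prev : Γ → C × Bool → W) :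
    ExtSpec B I t n ι prev (extU B I t n ι prev) := by
  have h := ext_exists B I t n ι ht hI prev
  unfold extU
  rw [dif_pos h]
  exact h.choose_spec

open scoped Classical in
/-- one step of the recursion -/
noncomputable def extS (B : Birth D gen n0) (I : ℕ ×ₗ ℕ) (t : ℕ ×ₗ ℕ)
    (prev : Γ → C × Bool → W) (g : Γ) (p : C × Bool) : W :=
  (B.big t).elim (extW B t prev) fun x =>
    if h : ∃ a, x.2 a = g then extU B I t x.1 x.2 prev (edge (D.π x.1) h.choose p) else 0

open scoped Classical in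
theorem ext_rec (B : Birth D gen n0) (I : ℕ ×ₗ ℕ) : ∃ ω : Γ → C × Bool → W,
    ∀ g, ω g = extS B I (B.β g) (fun g' => if B.β g' < B.β g then ω g' else 0) g := by
  have wf : WellFounded (InvImage (· < ·) B.β) := InvImage.wf _ wellFounded_lt
  refine ⟨wf.fix (C := fun _ => C × Bool → W) fun g r =>
    extS B I (B.β g) (fun g' => if h : B.β g' < B.β g then r g' h else 0) g, fun g => ?_⟩
  rw [wf.fix_eq]
  simp only [dite_eq_ite]

open scoped Classical in
theorem ext_main (B : Birth D gen n0) (I : ℕ ×ₗ ℕ)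
    (hI : ∀ t n ι, B.big t = some ⟨n, ι⟩ → t = I → ∀ a, B.β (ι a) = t) :
    ∃ ω ∈ Xg D gen Set.univ, ∀ t n ι, B.big t = some ⟨n, ι⟩ →
      (t = I → (fun e : Fin (D.N n) × C => ω (ι e.1) (e.2, true)) = D.y n) ∧
      (t ≠ I → (fun e : Fin (D.N n) × C => ω (ι e.1) (e.2, true)) ∈ D.code n) := by
  obtain ⟨ω, hω⟩ := ext_rec B I
  set pv : ℕ ×ₗ ℕ → Γ → C × Bool → W := fun t g' => if B.β g' < t then ω g' else 0 with hpv
  have hpl : ∀ t g, B.β g < t → pv t g = ω g := fun t g h => if_pos h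
  have hborn : ∀ t n ι, B.big t = some ⟨n, ι⟩ → ∀ a p, B.β (ι a) = t →
      ω (ι a) p = extU B I t n ι (pv t) (edge (D.π n) a p) := by
    intro t n ι ht a p ha
    have hex : ∃ a', ι a' = ι a := ⟨a, rfl⟩
    rw [hω (ι a), ha]
    unfold extS
    rw [ht]
    simp only [Option.elim_some]
    rw [dif_pos hex, B.inj t n ι ht hex.choose_spec]
  have hfw : ∀ t n ι, B.big t = some ⟨n, ι⟩ → ∀ a c,
      ω (ι a) (c, true) = extU B I t n ι (pv t) (a, c) := by
    intro t n ι ht a c
    rcases (B.le t n ι ht a).lt_or_eq with h | h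
    · rw [(extU_spec B I t n ι ht (hI t n ι ht) (pv t)).2.1 a c h, hpl t _ h]
    · rw [hborn t n ι ht a _ h]
      rfl
  have hsm : ∀ g p, B.big (B.β g) = none → ω g p = extW B (B.β g) (pv (B.β g)) := by
    intro g p hg
    rw [hω g]
    unfold extS
    rw [hg]
    rfl
  refine ⟨ω, ⟨fun g c w => ?_, fun n ι hι => ?_⟩, fun t n ι ht => ?_⟩
  · rcases hb : B.big (max (B.β g) (B.β (g * gen (c, w)))) with _ | ⟨n, ι⟩
    · obtain ⟨-, huniq⟩ := B.edge_small g (c, w) hb
      set t := max (B.β g) (B.β (g * gen (c, w))) with ht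
      have hex : ∃ e : Γ × (C × W), max (B.β e.1) (B.β (e.1 * gen e.2)) = t := ⟨(g, (c, w)), rfl⟩
      obtain ⟨e1, e2⟩ := huniq _ _ hex.choose_spec
      have hW : extW B t (pv t) = if B.β g < t then pv t g (c, true)
          else pv t (g * gen (c, w)) (c, false) := by
        unfold extW
        rw [dif_pos hex, e1, e2]
      rcases lt_trichotomy (B.β g) (B.β (g * gen (c, w))) with h | h | h
      · have e : t = B.β (g * gen (c, w)) := max_eq_right h.le
        rw [hsm (g * gen (c, w)) _ (e ▸ hb), ← e, hW, if_pos (e ▸ h), hpl t g (e ▸ h)]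
      · have e : t = B.β g := max_eq_left h.ge
        rw [hsm g _ (e ▸ hb), hsm (g * gen (c, w)) _ (h ▸ e ▸ hb), ← h]
      · have e : t = B.β g := max_eq_left h.le
        rw [hsm g _ (e ▸ hb), ← e, hW, if_neg (e ▸ lt_irrefl _), hpl t _ (e ▸ h)]
    · obtain ⟨a, ha, hy⟩ := B.edge_big g (c, w) n ι hb
      set t := max (B.β g) (B.β (g * gen (c, w))) with ht
      have hn : ι (D.π n c a) = g * gen (c, w) := by
        rw [B.hom t n ι hb a c, ha]
        exact congrArg (fun x => g * gen (c, x)) hy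
      rw [← hn, ← ha, hfw t n ι hb a c]
      rcases (B.le t n ι hb (D.π n c a)).lt_or_eq with h | h
      · have hg : ¬ B.β (ι a) < t := by
          rw [ha]
          rw [hn] at h
          intro h'
          exact absurd (max_lt h' h) (lt_irrefl _)
        rw [(extU_spec B I t n ι hb (hI t n ι hb) (pv t)).2.2.1 a c hg h, hpl t _ h]
      · rw [hborn t n ι hb _ _ h]
        simp [edge]
  · obtain ⟨t, ht⟩ := B.all n ι hι
    have : (fun e : Fin (D.N n) × C => ω (ι e.1) (e.2, true)) = extU B I t n ι (pv t) :=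
      funext fun e => hfw t n ι ht e.1 e.2
    rw [this]
    unfold adm
    rw [if_pos (Set.mem_univ n)]
    by_cases h0 : t = I
    · rw [(extU_spec B I t n ι ht (hI t n ι ht) (pv t)).2.2.2 h0]
      exact AddSubgroup.mem_sup_right (AddSubgroup.mem_zmultiples _)
    · exact AddSubgroup.mem_sup_left ((extU_spec B I t n ι ht (hI t n ι ht) (pv t)).1 h0)
  · have : (fun e : Fin (D.N n) × C => ω (ι e.1) (e.2, true)) = extU B I t n ι (pv t) :=
      funext fun e => hfw t n ι ht e.1 e.2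
    rw [this]
    exact ⟨(extU_spec B I t n ι ht (hI t n ι ht) (pv t)).2.2.2,
      (extU_spec B I t n ι ht (hI t n ι ht) (pv t)).1⟩

end

end EXT7

theorem stEXT7 : St_EXT1 := by
  intro C W _ _ D Γ _ gen n B t ι0 hC ht h0
  obtain ⟨ω, hX, hω⟩ := EXT7.ext_main B t fun t' n' ι' ht' e => by
    subst e
    have e' : (⟨n, ι0⟩ : Σ m, Fin (D.N m) → Γ) = ⟨n', ι'⟩ := Option.some.inj (ht.symm.trans ht')
    cases e'
    exact h0
  refine ⟨ω, hX, ⟨B.hom t n ι0 ht, B.inj t n ι0 ht, congrFun ((hω t n ι0 ht).1 rfl)⟩,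
    fun m ι hf => ?_⟩
  obtain ⟨t', ht'⟩ := B.all m ι hf.1
  by_cases e : t' = t
  · subst e
    exact Option.some.inj (ht'.symm.trans ht)
  · have h1 := (D.good m).far _ ((hω t' m ι ht').2 e)
    rw [funext hf.2.2, sub_self] at h1
    have h2 : wt (0 : Fin (D.N m) × C → W) = 0 := by simp [wt]
    rw [h2, Fintype.card_prod, Fintype.card_fin] at h1
    have := Nat.mul_pos (D.pos m) hC
    omega

end Pool.Agent.Lib.MZ
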