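import Pool.Agent.Lib.BCH.KApi

/-! The index argument: a compact homotopy of representations cannot kill a projection. -/

noncomputable section

open Matrix Function BCK

namespace Pool.Agent.Lib.MZ.Fin46

open BCH

variable {E : Type} [NormedAddCommGroup E] [NormedSpace ℝ E]

section Op
variable {ι : Type} [Fintype ι] [DecidableEq ι]

/-- a matrix of operators as an operator -/
def toOp : Matrix ι ι (E →L[ℝ] E) →+* ((ι → E) →L[ℝ] (ι → E)) where
  toFun M := ContinuousLinearMap.pi fun i => ∑ j, (M i j).comp (ContinuousLinearMap.proj j)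
  map_one' := by
    ext v i
    simp only [ContinuousLinearMap.pi_apply, _root_.sum_apply, ContinuousLinearMap.comp_apply,
      ContinuousLinearMap.proj_apply]
    rw [Finset.sum_eq_single i (fun j _ hj => by simp [Matrix.one_apply_ne hj.symm]) (by simp)]
    simp
  map_mul' M N := by
    ext v i
    simp only [ContinuousLinearMap.pi_apply, _root_.sum_apply,
      ContinuousLinearMap.comp_apply, ContinuousLinearMap.proj_apply, Matrix.mul_apply,
      mul_apply_eq_comp, map_sum]
    exact Finset.sum_comm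
  map_zero' := by ext v i; simp
  map_add' M N := by ext v i; simp [Finset.sum_add_distrib]

theorem toOp_apply (M : Matrix ι ι (E →L[ℝ] E)) (v : ι → E) (i : ι) :
    toOp M v i = ∑ j, M i j (v j) := by
  simp [toOp]

theorem toOp_inj {M : Matrix ι ι (E →L[ℝ] E)} (h : toOp M = 0) : M = 0 := by
  ext i j x
  have := toOp_apply M (Pi.single j x) i
  rw [h, Finset.sum_eq_single j (fun k _ hk => by simp [hk]) (by simp)] at this
  simpa using this.symm

theorem toOp_cpt {M : Matrix ι ι (E →L[ℝ] E)} (h : ∀ i j, IsCompactOperator (M i j)) :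
    IsCompactOperator (toOp M) := by
  have e : toOp M = ∑ i, ∑ j, ((ContinuousLinearMap.single ℝ (fun _ : ι => E) i).comp
      (M i j)).comp (ContinuousLinearMap.proj j) := by
    ext v k
    simp [toOp_apply, Finset.sum_apply, Pi.single_apply]
  rw [e]
  refine (compactOperator (RingHom.id ℝ) (ι → E) (ι → E)).sum_mem fun i _ =>
    (compactOperator (RingHom.id ℝ) (ι → E) (ι → E)).sum_mem fun j _ => ?_
  exact IsCompactOperator.comp_clm (IsCompactOperator.clm_comp (h i j)
    (ContinuousLinearMap.single ℝ (fun _ : ι => E) i))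
    (ContinuousLinearMap.proj (R := ℝ) (φ := fun _ : ι => E) j)

end Op

/-- the Fredholm alternative: a left invertible compact perturbation of `1` is onto -/
theorem eq_zero_of_left_inv [CompleteSpace E] {S T Q : E →L[ℝ] E} (h1 : S * T = 1)
    (h2 : IsCompactOperator (1 - T : E →L[ℝ] E)) (h3 : Q * T = 0) : Q = 0 := by
  rcases h2.hasEigenvalue_or_mem_resolventSet (μ := 1) one_ne_zero with h | h
  · obtain ⟨v, hv⟩ := h.exists_hasEigenvector
    have h4 : T v = 0 := by simpa using hv.apply_eq_smul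
    have h5 : (S * T) v = v := by rw [h1]; rfl
    rw [mul_apply_eq_comp, h4, map_zero] at h5
    exact absurd h5.symm hv.2
  · rw [spectrum.mem_resolventSet_iff, map_one, sub_sub_cancel] at h
    exact h.mul_left_eq_zero.1 h3

/-- the ideal of compact operators -/
def Kp (E : Type) [NormedAddCommGroup E] [NormedSpace ℝ E] : TwoSidedIdeal (E →L[ℝ] E) :=
  TwoSidedIdeal.mk' {T | IsCompactOperator T} isCompactOperator_zero
    (fun h h' => IsCompactOperator.add h h') (fun h => IsCompactOperator.neg h)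
    (fun {x _} h => IsCompactOperator.clm_comp h x) (fun {_ y} h => IsCompactOperator.comp_clm h y)

theorem mem_Kp {T : E →L[ℝ] E} : T ∈ Kp E ↔ IsCompactOperator T := TwoSidedIdeal.mem_mk' _ _ _ _ _ _ _

/-- pairs of operators with compact difference -/
def Dbl (E : Type) [NormedAddCommGroup E] [NormedSpace ℝ E] :
    Subalgebra ℝ ((E →L[ℝ] E) × (E →L[ℝ] E)) where
  carrier := {x | x.1 - x.2 ∈ Kp E}
  mul_mem' := fun {a b} ha hb => by
    have : (a * b).1 - (a * b).2 = (a.1 - a.2) * b.1 + a.2 * (b.1 - b.2) := by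
      simp only [Prod.fst_mul, Prod.snd_mul]; noncomm_ring
    show (a * b).1 - (a * b).2 ∈ Kp E
    rw [this]
    exact (Kp E).add_mem ((Kp E).mul_mem_right _ _ ha) ((Kp E).mul_mem_left _ _ hb)
  add_mem' := fun {a b} ha hb => by
    have : (a + b).1 - (a + b).2 = (a.1 - a.2) + (b.1 - b.2) := by
      simp only [Prod.fst_add, Prod.snd_add]; abel
    show (a + b).1 - (a + b).2 ∈ Kp E
    rw [this]
    exact (Kp E).add_mem ha hb
  algebraMap_mem' r := by
    show (algebraMap ℝ _ r) - (algebraMap ℝ _ r) ∈ Kp E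
    rw [sub_self]; exact (Kp E).zero_mem

instance [CompleteSpace E] : CompleteSpace (Dbl E) := by
  refine @IsClosed.completeSpace_coe _ _ _ (Dbl E : Set ((E →L[ℝ] E) × (E →L[ℝ] E))) ?_
  have : (Dbl E : Set ((E →L[ℝ] E) × (E →L[ℝ] E))) =
      (fun x => x.1 - x.2) ⁻¹' {T : E →L[ℝ] E | IsCompactOperator T} := by
    ext x; exact mem_Kp
  rw [this]
  exact isClosed_setOfPred_isCompactOperator.preimage (by fun_prop)

/-- a pair of homomorphisms with compact difference -/
def pair {A : Type} [Ring A] (f g : A →+* (E →L[ℝ] E)) (h : ∀ a, IsCompactOperator (f a - g a)) :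
    A →+* Dbl E := (f.prod g).codRestrict (Dbl E) fun a => mem_Kp.2 (h a)

/-- first component -/
def p1 : Dbl E →+* (E →L[ℝ] E) := (RingHom.fst _ _).comp (Dbl E).toSubring.subtype

/-- second component -/
def p2 : Dbl E →+* (E →L[ℝ] E) := (RingHom.snd _ _).comp (Dbl E).toSubring.subtype

theorem cls1_ne_zero [CompleteSpace E] (q : Dbl E) (hq : q * q = q) (h1 : p1 q = 0)
    (h : cls1 q = 0) : p2 q = 0 := by
  classical
  have hi : (of fun _ _ : Unit => q) * (of fun _ _ : Unit => q) = of fun _ _ : Unit => q := by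
    ext _ _ : 1; simp [mul_apply, hq]
  have h0 : cls (of fun _ _ : Unit => q) = cls (0 : Matrix Unit Unit (Dbl E)) := by
    rw [← cls1, h]; simp
  obtain ⟨m, x, y, -, -, hx, hy⟩ := stable hi (by simp) h0
  set F : Matrix (Unit ⊕ Fin m) (Unit ⊕ Fin m) (E →L[ℝ] E) := fromBlocks 0 0 0 1 with hF
  set Q : Matrix (Unit ⊕ Fin m) (Unit ⊕ Fin m) (E →L[ℝ] E) :=
    fromBlocks (of fun _ _ => p2 q) 0 0 0 with hQ
  have hq2 : p2 q * p2 q = p2 q := by rw [← map_mul, hq]
  have FF : F * F = F := by simp [hF, fromBlocks_multiply]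
  have QQ : Q * Q = Q := by
    simp only [hQ, fromBlocks_multiply]; congr 1 <;> ext _ _ : 1 <;> simp [mul_apply, hq2]
  have QF : Q * F = 0 := by simp [hF, hQ, fromBlocks_multiply]
  have FQ : F * Q = 0 := by simp [hF, hQ, fromBlocks_multiply]
  have a1 : x.map p1 * y.map p1 = F := by
    rw [← Matrix.map_mul, hx, fromBlocks_map, hF]
    congr 1 <;> ext i j : 1 <;> simp [h1, one_apply, apply_ite p1]
  have a2 : y.map p1 * x.map p1 = F := by
    rw [← Matrix.map_mul, hy, fromBlocks_map, hF]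
    congr 1 <;> ext i j : 1 <;> simp [one_apply, apply_ite p1]
  have a3 : x.map p2 * y.map p2 = Q + F := by
    rw [← Matrix.map_mul, hx, fromBlocks_map, hF, hQ, fromBlocks_add]
    congr 1 <;> ext i j : 1 <;> simp [one_apply, apply_ite p2]
  have a4 : y.map p2 * x.map p2 = F := by
    rw [← Matrix.map_mul, hy, fromBlocks_map, hF]
    congr 1 <;> ext i j : 1 <;> simp [one_apply, apply_ite p2]
  have k1 : x.map p2 - x.map p1 ∈ (Kp E).matrix (Unit ⊕ Fin m) :=
    (TwoSidedIdeal.mem_matrix _ _ _).2 fun i j => by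
      have := (Kp E).neg_mem (x i j).2
      rwa [neg_sub] at this
  have k2 : Q ∈ (Kp E).matrix (Unit ⊕ Fin m) := (TwoSidedIdeal.mem_matrix _ _ _).2 (by
    have h2 : p2 q ∈ Kp E := by
      have := (Kp E).neg_mem q.2
      rwa [neg_sub, show q.1.1 = 0 from h1, sub_zero] at this
    rintro (i | i) (j | j)
    exacts [h2, (Kp E).zero_mem, (Kp E).zero_mem, (Kp E).zero_mem])
  generalize x.map p1 = x1, x.map p2 = x0, y.map p1 = y1, y.map p2 = y0 at a1 a2 a3 a4 k1
  have b1 : (x0 * y1 * F + (1 - (Q + F))) * (F * x1 * y0 + (1 - (Q + F))) = 1 := by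
    have c1 : x0 * y1 * F * (F * x1 * y0) = (Q + F) * (Q + F) := by
      calc _ = x0 * (y1 * (F * F) * x1) * y0 := by noncomm_ring
        _ = x0 * ((y1 * x1) * (y1 * x1)) * y0 := by rw [FF, ← a1]; noncomm_ring
        _ = (x0 * y0) * (x0 * y0) := by rw [a2, FF, ← a4]; noncomm_ring
        _ = _ := by rw [a3]
    calc _ = x0 * y1 * F * (F * x1 * y0) + x0 * y1 * (F - F * Q - F * F) +
          (F - Q * F - F * F) * x1 * y0 + (1 - (Q + F) - (Q + F) + (Q + F) * (Q + F)) := by
          noncomm_ring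
      _ = 1 := by
          rw [c1, add_mul, mul_add, mul_add, QQ, QF, FQ, FF]; noncomm_ring
  have b2 : 1 - (F * x1 * y0 + (1 - (Q + F))) ∈ (Kp E).matrix (Unit ⊕ Fin m) := by
    have : 1 - (F * x1 * y0 + (1 - (Q + F))) = F * (x0 - x1) * y0 + Q := by
      calc _ = F * (x0 - x1) * y0 + (Q + F) - F * (x0 * y0) := by noncomm_ring
        _ = _ := by rw [a3, mul_add, FQ, FF]; noncomm_ring
    rw [this]
    exact TwoSidedIdeal.add_mem _
      (TwoSidedIdeal.mul_mem_right _ _ _ (TwoSidedIdeal.mul_mem_left _ _ _ k1)) k2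
  have b3 : Q * (F * x1 * y0 + (1 - (Q + F))) = 0 := by
    calc _ = Q * F * x1 * y0 + (Q - Q * Q - Q * F) := by noncomm_ring
      _ = 0 := by rw [QF, QQ]; noncomm_ring
  have b4 : toOp Q = 0 := by
    refine eq_zero_of_left_inv (S := toOp _) (T := toOp _) (by rw [← map_mul, b1, map_one]) ?_
      (by rw [← map_mul, b3, map_zero])
    have := toOp_cpt fun i j => mem_Kp.1 ((TwoSidedIdeal.mem_matrix _ _ _).1 b2 i j)
    rwa [map_sub, map_one] at this
  exact congrFun (congrFun (toOp_inj b4) (Sum.inl ())) (Sum.inl ())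

/-- A class that comes from `A` is not the class of an idempotent that is killed at one end of a
compact homotopy and survives at the other end. -/
theorem fin [CompleteSpace E] {A R : Type} [Ring A] [Ring R] (Φ : A →+* R)
    (P : ℝ → A →+* (E →L[ℝ] E)) (Ψ0 Ψ1 : R →+* (E →L[ℝ] E)) (p : R) (hp : p * p = p)
    (hc : ∀ c, Continuous fun s => P s c) (hk : ∀ s c, IsCompactOperator (P s c - P 0 c))
    (h0 : ∀ c, Ψ0 (Φ c) = P 0 c) (h1 : ∀ c, Ψ1 (Φ c) = P 1 c)
    (hΨ : ∀ r, IsCompactOperator (Ψ1 r - Ψ0 r)) (hp1 : Ψ1 p = 0) (hp0 : Ψ0 p ≠ 0) (a : K0 A) :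
    K0.map (Φ : A →ₙ+* R) a ≠ cls1 p := by
  classical
  intro h
  let θ : ℝ → A →+* Dbl E := fun s => pair (P s) (P 0) (hk s)
  have e1 : K0.map (θ 1 : A →ₙ+* Dbl E) = K0.map (θ 0 : A →ₙ+* Dbl E) :=
    K0.hom_ext fun k e he => by
      rw [map_cls _ he, map_cls _ he]
      refine cls_path (e := fun s : ℝ => e.map (θ s)) ?_
        (fun s => idem_map he (θ s : A →ₙ+* Dbl E)) 1 0
      exact continuous_matrix fun i j => Continuous.subtype_mk ((hc _).prodMk continuous_const) _
  let Ψ : R →+* Dbl E := pair Ψ1 Ψ0 hΨ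
  let Δ : (E →L[ℝ] E) →+* Dbl E := pair (RingHom.id _) (RingHom.id _) fun a => by
    rw [sub_self]; exact isCompactOperator_zero
  have hi : (of fun _ _ : Unit => p) * (of fun _ _ : Unit => p) = of fun _ _ : Unit => p := by
    ext _ _ : 1; simp [mul_apply, hp]
  have e2 : cls1 (Ψ p) = K0.map (θ 0 : A →ₙ+* Dbl E) a := by
    have : K0.map (Ψ : R →ₙ+* Dbl E) (cls1 p) = cls1 (Ψ p) := map_cls _ hi
    rw [← this, ← h, BCH.map_map, ← e1]
    exact map_congr (fun c => Subtype.ext (Prod.ext (h1 c) (h0 c))) a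
  have e3 : K0.map (P 0 : A →ₙ+* (E →L[ℝ] E)) a = 0 := by
    have h2 : K0.map (Ψ1 : R →ₙ+* (E →L[ℝ] E)) (cls1 p) = 0 := by
      rw [cls1, map_cls _ hi]
      have : (of fun _ _ : Unit => p).map (Ψ1 : R →ₙ+* (E →L[ℝ] E)) = 0 := by
        ext _ _ : 1; exact hp1
      rw [this]; simp
    have h3 : K0.map (P 1 : A →ₙ+* (E →L[ℝ] E)) a = 0 := by
      rw [← h2, ← h, BCH.map_map]
      exact map_congr (fun c => (h1 c).symm) a
    have h4 := congrArg (K0.map ((p1 : Dbl E →+* (E →L[ℝ] E)) : Dbl E →ₙ+* (E →L[ℝ] E))) (DFunLike.congr_fun e1 a)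
    rw [BCH.map_map, BCH.map_map] at h4
    exact (h4.symm.trans (map_congr (fun c => rfl) a)).trans h3
  have e4 : cls1 (Ψ p) = 0 := by
    rw [e2, ← map_zero (K0.map (Δ : (E →L[ℝ] E) →ₙ+* Dbl E)), ← e3, BCH.map_map]
    exact map_congr (fun c => rfl) a
  exact hp0 (cls1_ne_zero (Ψ p) (by rw [← map_mul, hp]) hp1 e4)

end Pool.Agent.Lib.MZ.Fin46
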