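import Pool.Agent.Lib.MZ.Blue

/-! FLUX, part 1: geometry of the cells. -/

namespace Pool.Agent.Lib.MZ.Flux

open Pool.Agent.Lib.IT Pool.Agent.Lib.MP_f40e16_al FreeGroup

variable {S Ω : Type} {nxt : Ω → S × Bool → Option Ω} {ℓ : Ω → ℕ} {x0 : Ω}
  {τ : Ω × Gam nxt → ℕ ×ₗ ℕ}

/-- steps inside a cell -/
def CS (nxt : Ω → S × Bool → Option Ω) (p : Ω × Gam nxt) (l : S × Bool) (q : Ω × Gam nxt) : Prop :=
  nxt p.1 l = some q.1 ∧ q.2 = p.2 * val nxt [l]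

/-- steps along new edges -/
def NS (nxt : Ω → S × Bool → Option Ω) (τ : Ω × Gam nxt → ℕ ×ₗ ℕ) (p : Ω × Gam nxt) (l : S × Bool)
    (q : Ω × Gam nxt) : Prop := CS nxt p l q ∧ ¬ (Gate τ p ∧ Gate τ q)

theorem val_iv (g : Gam nxt) (l : S × Bool) : g * val nxt [l] * val nxt [iv l] = g := by
  rw [← invRev_single, BIR.val_inv, mul_inv_cancel_right]

theorem fold_CS (hs : Small nxt ℓ) : Fold (CS nxt) where
  symm := fun {a b l} h => ⟨hs.symm _ _ l.1 l.2 h.1, by rw [h.2, val_iv]⟩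
  func := fun h h' => Prod.ext (Option.some.inj (h.1.symm.trans h'.1)) (h.2.trans h'.2.symm)

theorem GS_CS {p q : Ω × Gam nxt} {l : S × Bool} (h : GS nxt τ p l q) : CS nxt p l q :=
  ⟨h.1, h.2.1⟩

theorem fold_GS (hs : Small nxt ℓ) : Fold (GS nxt τ) where
  symm := fun h => ⟨((fold_CS hs).symm (GS_CS h)).1, ((fold_CS hs).symm (GS_CS h)).2, h.2.2.2,
    h.2.2.1⟩
  func := fun h h' => (fold_CS hs).func (GS_CS h) (GS_CS h')

theorem fold_NS (hs : Small nxt ℓ) : Fold (NS nxt τ) where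
  symm := fun h => ⟨(fold_CS hs).symm h.1, fun e => h.2 e.symm⟩
  func := fun h h' => (fold_CS hs).func h.1 h'.1

theorem wk_GS {p q : Ω × Gam nxt} {w : List (S × Bool)} (h : Wk (GS nxt τ) p w q) :
    Wk (CS nxt) p w q := h.mono fun _ _ _ => GS_CS

theorem wk_NS {p q : Ω × Gam nxt} {w : List (S × Bool)} (h : Wk (NS nxt τ) p w q) :
    Wk (CS nxt) p w q := h.mono fun _ _ _ h => h.1

theorem wk_rd {p q : Ω × Gam nxt} {w : List (S × Bool)} (h : Wk (CS nxt) p w q) :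
    rd nxt p.1 w = some q.1 ∧ q.2 = p.2 * val nxt w := by
  induction h with
  | nil => exact ⟨rfl, by rw [BIR.val_nil, mul_one]⟩
  | @cons a b c l w h1 _ ih =>
    exact ⟨BIR.rd_cons.2 ⟨_, h1.1, ih.1⟩, by rw [ih.2, h1.2, BIR.val_cons l w, mul_assoc]⟩

theorem wk_conn {p q : Ω × Gam nxt} {w : List (S × Bool)} (h : Wk (CS nxt) p w q) :
    Conn nxt p q := ⟨w, wk_rd h⟩

theorem ell_rd (hs : Small nxt ℓ) {w : List (S × Bool)} :
    ∀ {x y : Ω}, rd nxt x w = some y → ℓ y = ℓ x := by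
  induction w with
  | nil => intro x y h; obtain rfl : x = y := by simpa [rd] using h
           rfl
  | cons l w ih =>
    intro x y h
    obtain ⟨u, h1, h2⟩ := BIR.rd_cons.1 h
    exact (ih h2).trans (hs.lconst _ _ _ h1)

/-- the hypotheses -/
structure Hyp (nxt : Ω → S × Bool → Option Ω) (ℓ : Ω → ℕ) (x0 : Ω) (τ : Ω × Gam nxt → ℕ ×ₗ ℕ) :
    Prop where
  hs : Small nxt ℓ
  girth : ∀ x w, IsReduced w → w ≠ [] → rd nxt x w = some x → 12 * ℓ x < w.length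
  fin : ∀ L, {x | ℓ x ≤ L}.Finite
  O : Order nxt ℓ x0 τ
  diam : Diam nxt ℓ τ

open scoped Classical in
/-- the oldest cell containing a dart -/
noncomputable def own (τ : Ω × Gam nxt → ℕ ×ₗ ℕ) (x0 : Ω) (g : Gam nxt) (l : S × Bool) : Ω :=
  if h : ∃ x q, NS nxt τ (x, g) l q then h.choose else x0

/-- the other end of a dart of a cell -/
def nex (p : Ω × Gam nxt) (l : S × Bool) : Ω × Gam nxt :=
  ((nxt p.1 l).getD p.1, p.2 * val nxt [l])

theorem nex_eq {p q : Ω × Gam nxt} {l : S × Bool} (h : CS nxt p l q) : nex p l = q :=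
  Prod.ext (by simp [nex, h.1]) h.2.symm

/-- birth time of a dart -/
noncomputable def bt (τ : Ω × Gam nxt → ℕ ×ₗ ℕ) (x0 : Ω) (g : Gam nxt) (l : S × Bool) : ℕ ×ₗ ℕ :=
  τ (own τ x0 g l, g)

variable (H : Hyp nxt ℓ x0 τ)
include H

theorem tau_wk {p q : Ω × Gam nxt} {w : List (S × Bool)} (h : Wk (CS nxt) p w q) : τ q = τ p :=
  ((H.O.eq_iff _ _).2 (wk_conn h)).symm

theorem tau_cs {p q : Ω × Gam nxt} {l : S × Bool} (h : CS nxt p l q) : τ q = τ p :=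
  tau_wk H (wk_single.2 h)

theorem ell_tau {p q : Ω × Gam nxt} (h : τ p = τ q) : ℓ q.1 = ℓ p.1 :=
  ell_rd H.hs ((H.O.eq_iff _ _).1 h).choose_spec.1

theorem pt_eq {x y : Ω} {g : Gam nxt} (h : τ (x, g) = τ (y, g)) : x = y :=
  H.O.inj _ _ _ ((H.O.eq_iff _ _).1 h)

theorem ns_min {p q q' : Ω × Gam nxt} {l : S × Bool} {x : Ω} (h : NS nxt τ p l q)
    (h' : CS nxt (x, p.2) l q') : τ p ≤ τ (x, p.2) := by
  by_contra hc
  rw [not_le] at hc
  refine h.2 ⟨⟨x, hc⟩, q'.1, ?_⟩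
  have e : (q'.1, q.2) = q' := Prod.ext rfl (h.1.2.trans h'.2.symm)
  rw [e, tau_cs H h', tau_cs H h.1]
  exact hc

theorem own_ns (g : Gam nxt) (l : S × Bool) :
    NS nxt τ (own τ x0 g l, g) l (nex (own τ x0 g l, g) l) := by
  have h : ∃ x q, NS nxt τ (x, g) l q := by
    obtain ⟨z, hz, hm⟩ := (wellFounded_lt.onFun (f := fun z => τ (z, g))).has_min
      {z | (nxt z l).isSome} (H.hs.occ l)
    obtain ⟨z', hz'⟩ := Option.isSome_iff_exists.1 hz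
    refine ⟨z, (z', g * val nxt [l]), ⟨hz', rfl⟩, fun hc => ?_⟩
    obtain ⟨u, hu, hu'⟩ := H.O.old z z' g l hz' hc.1 hc.2
    exact hm u hu hu'
  have e : own τ x0 g l = h.choose := dif_pos h
  obtain ⟨q, hq⟩ := h.choose_spec
  rw [e, nex_eq hq.1]
  exact hq

theorem own_eq {p q : Ω × Gam nxt} {l : S × Bool} (h : NS nxt τ p l q) : own τ x0 p.2 l = p.1 :=
  pt_eq H (le_antisymm (ns_min H (own_ns H p.2 l) h.1) (ns_min H h (own_ns H p.2 l).1))

theorem bt_lt {p q : Ω × Gam nxt} {l : S × Bool} (h : GS nxt τ p l q) : bt τ x0 p.2 l < τ p := by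
  refine (ns_min H (own_ns H p.2 l) (GS_CS h)).lt_of_ne fun e => ?_
  have h1 := own_ns H p.2 l
  rw [pt_eq H e, nex_eq (GS_CS h)] at h1
  exact h1.2 h.2.2

theorem not_first {p : Ω × Gam nxt} (h : Gate τ p) : ¬ Conn nxt (x0, 1) p := fun hc => by
  obtain ⟨x, hx⟩ := h
  rw [← (H.O.eq_iff _ _).2 hc] at hx
  exact (H.O.first _).not_gt hx

theorem mk_eq {p q : Ω × Gam nxt} {u w : List (S × Bool)} (h : Wk (CS nxt) p u q)
    (h' : Wk (CS nxt) p w q) (hl : u.length + w.length ≤ 12 * ℓ p.1) : mk u = mk w := by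
  obtain ⟨v, h1, h2, h3, h4⟩ := (h.append (h'.rev (fold_CS H.hs))).exists_reduced (fold_CS H.hs)
  have h5 : v = [] := by
    by_contra hc
    have := H.girth _ v h1 hc (wk_rd h2).1
    rw [List.length_append, invRev_length] at h3
    omega
  rw [h5, mk_append, mk_invRev, mk_nil] at h4
  exact mul_inv_eq_one.1 h4.symm

theorem gate_walk {p q : Ω × Gam nxt} (h : τ p = τ q) (hp : Gate τ p) (hq : Gate τ q) :
    ∃ w, Rd w ∧ w.length ≤ 5 * ℓ p.1 ∧ Wk (GS nxt τ) p w q := by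
  obtain ⟨w, h1, h2⟩ := H.diam p q ((H.O.eq_iff _ _).1 h) hp hq
  obtain ⟨v, h3, h4, h5, -⟩ := h2.exists_reduced (fold_GS H.hs)
  exact ⟨v, h3, h5.trans h1, h4⟩

theorem long {a b : Ω × Gam nxt} {u : List (S × Bool)} (ha : Gate τ a) (hb : Gate τ b)
    (h : Wk (NS nxt τ) a u b) (hr : Rd u) (hu : u ≠ []) : 7 * ℓ a.1 < u.length := by
  have e := tau_wk H (wk_NS h)
  obtain ⟨w, h1, h2, h3⟩ := gate_walk H e hb ha
  have h4 : Rd (u ++ w) := by
    refine isReduced_append.2 ⟨hr, h1, fun l hl l' hl' e' => ?_⟩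
    obtain ⟨u', rfl⟩ := List.getLast?_eq_some_iff.1 hl
    obtain ⟨w', rfl⟩ := List.head?_eq_some_iff.1 hl'
    obtain ⟨c, -, h5⟩ := wk_snoc.1 h
    obtain ⟨d, h6, -⟩ := wk_cons.1 h3
    subst e'
    obtain rfl := (fold_CS H.hs).func ((fold_CS H.hs).symm h5.1) (GS_CS h6)
    exact h5.2 h6.2.2.symm
  have := H.girth _ _ h4 (by simp [hu]) (wk_rd ((wk_NS h).append (wk_GS h3))).1
  rw [List.length_append] at this
  rw [ell_tau H e.symm] at h2
  omega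

theorem gate_eq {a b : Ω × Gam nxt} {u : List (S × Bool)} (ha : Gate τ a) (hb : Gate τ b)
    (h : Wk (NS nxt τ) a u b) (hu : u.length ≤ 7 * ℓ a.1) : a = b := by
  obtain ⟨v, h1, h2, h3, -⟩ := h.exists_reduced (fold_NS H.hs)
  by_cases hv : v = []
  · exact wk_nil.1 (hv ▸ h2)
  · have := long H ha hb h2 h1 hv
    omega

theorem cell_fin (a : Ω × Gam nxt) : {p | τ p = τ a}.Finite := by
  refine Set.Finite.of_finite_image (f := Prod.fst) ((H.fin (ℓ a.1)).subset ?_) ?_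
  · rintro _ ⟨p, hp, rfl⟩
    exact (ell_tau H hp).ge
  · intro p hp q hq e
    obtain ⟨w, h1, h2⟩ := (H.O.eq_iff _ _).1 hp.symm
    obtain ⟨w', h3, h4⟩ := (H.O.eq_iff _ _).1 hq.symm
    exact Prod.ext e (by rw [h2, h4, BIR.val_eq H.hs.symm h1 (e ▸ h3)])

omit H in
/-- the initial run of darts born at time `s` -/
theorem split (s : ℕ ×ₗ ℕ) {p q : Ω × Gam nxt} {w : List (S × Bool)} (h : Wk (GS nxt τ) p w q) :
    ∃ u v m, w = u ++ v ∧ Wk (fun a l b => GS nxt τ a l b ∧ bt τ x0 a.2 l = s) p u m ∧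
      Wk (GS nxt τ) m v q ∧ ∀ l v', v = l :: v' → bt τ x0 m.2 l ≠ s := by
  induction h with
  | nil z => exact ⟨[], [], z, rfl, .nil _, .nil _, fun _ _ h => by cases h⟩
  | @cons a b c l w h1 h2 ih =>
    by_cases e : bt τ x0 a.2 l = s
    · obtain ⟨u, v, m, rfl, h3, h4, h5⟩ := ih
      exact ⟨l :: u, v, m, rfl, .cons ⟨h1, e⟩ h3, h4, h5⟩
    · exact ⟨[], l :: w, a, rfl, .nil _, .cons h1 h2, fun _ _ h => by cases h; exact e⟩

theorem run {s : ℕ ×ₗ ℕ} {p m : Ω × Gam nxt} {u : List (S × Bool)}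
    (h : Wk (fun a l b => GS nxt τ a l b ∧ bt τ x0 a.2 l = s) p u m) :
    ∀ x, τ (x, p.2) = s → ∃ y, Wk (NS nxt τ) (x, p.2) u (y, m.2) := by
  induction h with
  | nil z => exact fun x _ => ⟨x, .nil _⟩
  | @cons a b c l w h1 _ ih =>
    intro x hx
    have h3 := own_ns H a.2 l
    rw [pt_eq H (h1.2.trans hx.symm)] at h3
    have e : nex (x, a.2) l = ((nex (x, a.2) l).1, b.2) := Prod.ext rfl h1.1.2.1.symm
    rw [e] at h3
    obtain ⟨y, hy⟩ := ih _ ((tau_cs H h3.1).trans hx)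
    exact ⟨y, .cons h3 hy⟩

theorem piece {p q a b : Ω × Gam nxt} {u : List (S × Bool)} (h : Wk (CS nxt) p u q)
    (h' : Wk (CS nxt) a u b) (hr : Rd u) (hne : p.1 ≠ a.1) : u.length ≤ ℓ p.1 :=
  H.hs.piece _ _ u hne hr (by rw [(wk_rd h).1]; rfl) (by rw [(wk_rd h').1]; rfl)

end Pool.Agent.Lib.MZ.Flux
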