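import Pool.Agent.Lib.IT.LIM

/-! Monomial representations, weak containment, extension to the closure. -/

noncomputable section

open Filter Topology

namespace Pool.Agent.Lib.MZ.Mon

/-! ### extension of a contractive homomorphism -/

theorem exists_ext {A B₁ B₂ : Type} [Ring A] [Algebra ℝ A] [NormedRing B₁] [NormedAlgebra ℝ B₁]
    [NormedRing B₂] [NormedAlgebra ℝ B₂] [CompleteSpace B₂] (f₁ : A →ₐ[ℝ] B₁) (f₂ : A →ₐ[ℝ] B₂)
    (h : ∀ a, ‖f₂ a‖ ≤ ‖f₁ a‖) (R : Subalgebra ℝ B₁)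
    (hR : (R : Set B₁) ⊆ closure (Set.range f₁)) :
    ∃ Ψ : R →ₐ[ℝ] B₂, ∀ (T : R) (a : A), ‖Ψ T - f₂ a‖ ≤ ‖T.1 - f₁ a‖ := by
  have key : ∀ (T : B₁) (S : B₂) (u : ℕ → A), Tendsto (fun n => f₁ (u n)) atTop (𝓝 T) →
      Tendsto (fun n => f₂ (u n)) atTop (𝓝 S) → ∀ a, ‖S - f₂ a‖ ≤ ‖T - f₁ a‖ := by
    intro T S u h1 h2 a
    refine le_of_tendsto_of_tendsto' (h2.sub_const _).norm (h1.sub_const _).norm fun n => ?_
    simpa only [map_sub] using h (u n - a)
  have seq : ∀ T : R, ∃ u : ℕ → A, Tendsto (fun n => f₁ (u n)) atTop (𝓝 T.1) := by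
    intro T
    obtain ⟨x, hx, hx'⟩ := mem_closure_iff_seq_limit.1 (hR T.2)
    choose u hu using hx
    exact ⟨u, by simpa only [hu] using hx'⟩
  have ex : ∀ T : R, ∃ S : B₂, ∀ a, ‖S - f₂ a‖ ≤ ‖T.1 - f₁ a‖ := by
    intro T
    obtain ⟨u, hu⟩ := seq T
    have hc : CauchySeq fun n => f₂ (u n) := by
      have := hu.cauchySeq
      rw [Metric.cauchySeq_iff] at this ⊢
      intro ε hε
      obtain ⟨N, hN⟩ := this ε hε
      refine ⟨N, fun m hm n hn => lt_of_le_of_lt ?_ (hN m hm n hn)⟩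
      simpa only [dist_eq_norm, map_sub] using h (u m - u n)
    obtain ⟨S, hS⟩ := cauchySeq_tendsto_of_complete hc
    exact ⟨S, key _ _ u hu hS⟩
  choose Ψ hΨ using ex
  have lim : ∀ (T : R) (u : ℕ → A), Tendsto (fun n => f₁ (u n)) atTop (𝓝 T.1) →
      Tendsto (fun n => f₂ (u n)) atTop (𝓝 (Ψ T)) := by
    intro T u hu
    rw [tendsto_iff_norm_sub_tendsto_zero] at hu ⊢
    refine squeeze_zero (fun _ => norm_nonneg _) (fun n => ?_) hu
    rw [norm_sub_rev, norm_sub_rev (f₁ _)]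
    exact hΨ T (u n)
  have const : ∀ (T : R) (a : A), T.1 = f₁ a → Ψ T = f₂ a := by
    intro T a e
    have := hΨ T a
    rw [e, sub_self, norm_zero, norm_le_zero_iff, sub_eq_zero] at this
    exact this
  refine ⟨{ toFun := Ψ
            map_one' := by rw [const 1 1 (by simp), map_one]
            map_zero' := by rw [const 0 0 (by simp), map_zero]
            map_mul' := fun S T => ?_
            map_add' := fun S T => ?_
            commutes' := fun r => by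
              rw [const (algebraMap ℝ R r) (algebraMap ℝ A r) (by simp), AlgHom.commutes] }, hΨ⟩
  · obtain ⟨u, hu⟩ := seq S
    obtain ⟨v, hv⟩ := seq T
    refine tendsto_nhds_unique (lim (S * T) (fun n => u n * v n) ?_) ?_
    · simpa only [map_mul, Subalgebra.coe_mul] using hu.mul hv
    · simpa only [map_mul] using (lim S u hu).mul (lim T v hv)
  · obtain ⟨u, hu⟩ := seq S
    obtain ⟨v, hv⟩ := seq T
    refine tendsto_nhds_unique (lim (S + T) (fun n => u n + v n) ?_) ?_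
    · simpa only [map_add, Subalgebra.coe_add] using hu.add hv
    · simpa only [map_add] using (lim S u hu).add (lim T v hv)

/-! ### square summable functions -/

section L2

variable {Z E : Type} [NormedAddCommGroup E]

theorem sq_eq (ξ : lp (fun _ : Z => E) 2) {t : Finset Z} (h : ∀ x ∉ t, ξ x = 0) :
    ‖ξ‖ ^ 2 = ∑ x ∈ t, ‖ξ x‖ ^ 2 := by
  have h1 := lp.norm_rpow_eq_tsum (p := 2) (by norm_num) ξ
  rw [tsum_eq_sum (s := t) fun x hx => by simp [h x hx]] at h1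
  simpa only [ENNReal.toReal_ofNat, Real.rpow_ofNat] using h1

theorem sum_le (ξ : lp (fun _ : Z => E) 2) (t : Finset Z) : ∑ x ∈ t, ‖ξ x‖ ^ 2 ≤ ‖ξ‖ ^ 2 := by
  have h1 := lp.sum_rpow_le_norm_rpow (p := 2) (by norm_num) ξ t
  simpa only [ENNReal.toReal_ofNat, Real.rpow_ofNat] using h1

/-- a finitely supported vector -/
def ofFin (f : Z → E) (t : Finset Z) (h : ∀ x ∉ t, f x = 0) : lp (fun _ : Z => E) 2 :=
  ⟨f, memℓp_gen (summable_of_ne_finset_zero (s := t) fun x hx => by simp [h x hx])⟩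

@[simp] theorem ofFin_apply (f : Z → E) (t : Finset Z) (h : ∀ x ∉ t, f x = 0) (x : Z) :
    ofFin f t h x = f x := rfl

theorem norm_le_of_fin [NormedSpace ℝ E] {F : Type} [NormedAddCommGroup F] [NormedSpace ℝ F]
    (A : lp (fun _ : Z => E) 2 →L[ℝ] F) {C : ℝ} (hC : 0 ≤ C)
    (h : ∀ (ξ : lp (fun _ : Z => E) 2) (t : Finset Z), (∀ x ∉ t, ξ x = 0) → ‖A ξ‖ ≤ C * ‖ξ‖) :
    ‖A‖ ≤ C := by
  classical
  refine A.opNorm_le_bound hC fun ξ => ?_
  have h1 : Tendsto (fun t : Finset Z => ∑ x ∈ t, lp.single 2 x (ξ x)) atTop (𝓝 ξ) :=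
    lp.hasSum_single (by norm_num) ξ
  refine le_of_tendsto_of_tendsto' ((A.continuous.tendsto ξ).comp h1).norm
    (h1.norm.const_mul C) fun t => h _ t fun x hx => ?_
  rw [lp.coeFn_sum, Finset.sum_apply]
  exact Finset.sum_eq_zero fun y hy => lp.single_apply_ne 2 y _ fun e => hx (e ▸ hy)

end L2

/-! ### weak containment -/

/-- Weak containment of a transitive monomial representation with a locally finite stabiliser. -/
theorem wc {G Z : Type} [Group G] (act : Z → G → Z) (u : Z → G → ℂ)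
    (act_mul : ∀ z g h, act z (g * h) = act (act z g) h) (act_one : ∀ z, act z 1 = z)
    (u_mul : ∀ z g h, u z (g * h) = u z g * u (act z g) h) (u_norm : ∀ z g, ‖u z g‖ = 1)
    (z0 : Z) (trans : ∀ z, ∃ g, act z0 g = z)
    (lf : ∀ s : Finset G, (∀ g ∈ s, act z0 g = z0) →
      ((Subgroup.closure (s : Set G) : Subgroup G) : Set G).Finite)
    (s : Finset G) (c : G → ℝ) (T' : lp (fun _ : Z => ℂ) 2 →L[ℝ] lp (fun _ : Z => ℂ) 2)
    (hT' : ∀ ξ z, T' ξ z = ∑ g ∈ s, c g • (u z g * ξ (act z g)))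
    (T : IT.L2 G →L[ℝ] IT.L2 G) (hT : ∀ ξ x, T ξ x = ∑ g ∈ s, c g * ξ (g⁻¹ * x)) :
    ‖T'‖ ≤ ‖T‖ := by
  classical
  refine norm_le_of_fin _ (norm_nonneg _) fun ξ t ht => ?_
  choose σ hσ using trans
  have act_inv : ∀ z g, act (act z g) g⁻¹ = z := fun z g => by
    rw [← act_mul, mul_inv_cancel, act_one]
  have act_inv' : ∀ z g, act (act z g⁻¹) g = z := fun z g => by
    rw [← act_mul, inv_mul_cancel, act_one]
  have back : ∀ z, act z (σ z)⁻¹ = z0 := fun z => by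
    conv_lhs => rw [← hσ z]
    rw [hσ z]
    conv_lhs => arg 1; rw [← hσ z]
    exact act_inv _ _
  let w : Finset G := (s ×ˢ t).image fun p => σ (act p.2 p.1⁻¹) * p.1 * (σ p.2)⁻¹
  have hw : ∀ g ∈ w, act z0 g = z0 := by
    intro g hg
    obtain ⟨p, -, rfl⟩ := Finset.mem_image.1 hg
    rw [act_mul, act_mul, hσ, act_inv', back]
  have hfin := lf w hw
  set H : Subgroup G := Subgroup.closure (w : Set G) with hH
  have hstab : ∀ n ∈ H, act z0 n = z0 := by
    intro n hn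
    induction hn using Subgroup.closure_induction with
    | mem x hx => exact hw x hx
    | one => exact act_one _
    | mul x y _ _ hx hy => rw [act_mul, hx, hy]
    | inv x _ hx =>
      conv_lhs => rw [← hx]
      exact act_inv _ _
  let N : Finset G := hfin.toFinset
  have hNH : ∀ n, n ∈ N ↔ n ∈ H := fun n => by simp [N]
  have hpos : (0 : ℝ) < N.card := by
    exact_mod_cast Finset.card_pos.2 ⟨1, (hNH 1).2 H.one_mem⟩
  have hact : ∀ z, ∀ n ∈ N, act z0 (n * σ z) = z := fun z n hn => by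
    rw [act_mul, hstab n ((hNH n).1 hn), hσ]
  have himg : ∀ (t : Finset Z) (f : G → ℝ) (f' : Z → ℝ),
      (∀ z, ∀ n ∈ N, f (n * σ z)⁻¹ = f' z) →
      ∑ x ∈ (t ×ˢ N).image (fun p => (p.2 * σ p.1)⁻¹), f x = N.card * ∑ z ∈ t, f' z := by
    intro t f f' h
    rw [Finset.sum_image, Finset.sum_product, Finset.mul_sum]
    · refine Finset.sum_congr rfl fun z _ => ?_
      rw [Finset.sum_congr rfl (fun n hn => h z n hn), Finset.sum_const, nsmul_eq_mul]
    · rintro ⟨a, n⟩ h1 ⟨b, m⟩ h2 h3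
      simp only [Finset.coe_product, Set.mem_prod, Finset.mem_coe, inv_inj] at h1 h2 h3
      have h4 := congrArg (act z0) h3
      rw [hact a n h1.2, hact b m h2.2] at h4
      subst h4
      rw [mul_right_cancel h3]
  let f : G → ℂ := fun x =>
    if x⁻¹ * (σ (act z0 x⁻¹))⁻¹ ∈ H then u z0 x⁻¹ * ξ (act z0 x⁻¹) else 0
  have hf : ∀ x ∉ (t ×ˢ N).image (fun p => (p.2 * σ p.1)⁻¹), f x = 0 := by
    intro x hx
    by_cases h1 : x⁻¹ * (σ (act z0 x⁻¹))⁻¹ ∈ H
    · simp only [f, if_pos h1]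
      rw [ht, mul_zero]
      refine fun h2 => hx (Finset.mem_image.2 ⟨(act z0 x⁻¹, x⁻¹ * (σ (act z0 x⁻¹))⁻¹), ?_, by simp⟩)
      exact Finset.mem_product.2 ⟨h2, (hNH _).2 h1⟩
    · simp only [f, if_neg h1]
  let a : IT.L2 G := ofFin (fun x => (f x).re) _ fun x hx => by rw [hf x hx, Complex.zero_re]
  let b : IT.L2 G := ofFin (fun x => (f x).im) _ fun x hx => by rw [hf x hx, Complex.zero_im]
  have sq : ∀ y : ℂ, ‖y.re‖ ^ 2 + ‖y.im‖ ^ 2 = ‖y‖ ^ 2 := fun y => by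
    rw [Complex.sq_norm, Complex.normSq_apply, Real.norm_eq_abs, Real.norm_eq_abs, sq_abs, sq_abs]
    ring
  have h1 : ‖a‖ ^ 2 + ‖b‖ ^ 2 = N.card * ‖ξ‖ ^ 2 := by
    rw [sq_eq a (fun x hx => by rw [ofFin_apply, hf x hx, Complex.zero_re]),
      sq_eq b (fun x hx => by rw [ofFin_apply, hf x hx, Complex.zero_im]), sq_eq ξ ht,
      ← Finset.sum_add_distrib]
    refine himg t _ _ fun z n hn => ?_
    rw [ofFin_apply, ofFin_apply, sq]
    simp only [f, inv_inv, hact z n hn, mul_inv_cancel_right, if_pos ((hNH n).1 hn), norm_mul,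
      u_norm, one_mul]
  have key : ∀ z, ∀ n ∈ N, ∑ g ∈ s, c g • f (g⁻¹ * (n * σ z)⁻¹) = u z0 (n * σ z) * T' ξ z := by
    intro z n hn
    rw [hT', Finset.mul_sum]
    refine Finset.sum_congr rfl fun g hg => ?_
    rw [mul_smul_comm]
    congr 1
    have e : (g⁻¹ * (n * σ z)⁻¹)⁻¹ = n * σ z * g := by group
    simp only [f, e, act_mul z0 (n * σ z) g, hact z n hn]
    split_ifs with h2
    · rw [u_mul, hact z n hn, mul_assoc]
    · rw [ht, mul_zero, mul_zero]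
      refine fun h3 => h2 ?_
      have h4 : σ (act (act z g) g⁻¹) * g * (σ (act z g))⁻¹ ∈ H :=
        Subgroup.subset_closure (Finset.mem_coe.2 (Finset.mem_image.2
          ⟨(g, act z g), Finset.mem_product.2 ⟨hg, h3⟩, rfl⟩))
      rw [act_inv] at h4
      simpa only [mul_assoc] using H.mul_mem ((hNH n).1 hn) h4
  have hsupp : ∀ z ∉ (s ×ˢ t).image (fun p => act p.2 p.1⁻¹), T' ξ z = 0 := by
    intro z hz
    rw [hT']
    refine Finset.sum_eq_zero fun g hg => ?_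
    rw [ht, mul_zero, smul_zero]
    intro h3
    exact hz (Finset.mem_image.2 ⟨(g, act z g), Finset.mem_product.2 ⟨hg, h3⟩, act_inv _ _⟩)
  have h2 : N.card * ‖T' ξ‖ ^ 2 ≤ ‖T a‖ ^ 2 + ‖T b‖ ^ 2 := by
    rw [sq_eq _ hsupp, ← himg _ (fun x => ‖T a x‖ ^ 2 + ‖T b x‖ ^ 2) _ fun z n hn => ?_,
      Finset.sum_add_distrib]
    · exact add_le_add (sum_le _ _) (sum_le _ _)
    · have e1 : T a (n * σ z)⁻¹ = (u z0 (n * σ z) * T' ξ z).re := by
        rw [← key z n hn, hT, Complex.re_sum]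
        exact Finset.sum_congr rfl fun g _ => by simp [a]
      have e2 : T b (n * σ z)⁻¹ = (u z0 (n * σ z) * T' ξ z).im := by
        rw [← key z n hn, hT, Complex.im_sum]
        exact Finset.sum_congr rfl fun g _ => by simp [b]
      rw [e1, e2, sq, norm_mul, u_norm, one_mul]
  have h3 : ∀ y, ‖T y‖ ^ 2 ≤ ‖T‖ ^ 2 * ‖y‖ ^ 2 := fun y => by
    rw [← mul_pow]
    exact pow_le_pow_left₀ (norm_nonneg _) (T.le_opNorm y) 2
  have h4 : ‖T' ξ‖ ^ 2 ≤ (‖T‖ * ‖ξ‖) ^ 2 := by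
    rw [mul_pow]
    refine le_of_mul_le_mul_left ?_ hpos
    have h5 : ‖T‖ ^ 2 * (‖a‖ ^ 2 + ‖b‖ ^ 2) = ‖T‖ ^ 2 * (N.card * ‖ξ‖ ^ 2) := by rw [h1]
    nlinarith [h3 a, h3 b]
  exact (pow_le_pow_iff_left₀ (norm_nonneg _) (by positivity) two_ne_zero).1 h4

end Pool.Agent.Lib.MZ.Mon
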