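import Pool.Agent.Lib.MZ.Blue

/-! REP1: the path of flux representations. -/

set_option linter.unusedSectionVars false

namespace Pool.Agent.Lib.MZ

open Finset Pool.Agent.Lib.IT Filter Topology

namespace REP1

section Mono
variable {Z : Type}

theorem congr {T : EC Z ≃ₗᵢ[ℝ] EC Z} {σ : Z → Z} {u u' : Z → ℝ} (h : IsMon T σ u)
    (e : ∀ z, ∃ k : ℤ, u' z = u z + k * (2 * Real.pi)) : IsMon T σ u' := by
  intro ξ z
  obtain ⟨k, hk⟩ := e z
  rw [h ξ z, hk]
  congr 1
  rw [Complex.exp_eq_exp_iff_exists_int]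
  exact ⟨-k, by push_cast; ring⟩

theorem uniq {T T' : EC Z ≃ₗᵢ[ℝ] EC Z} {σ : Z → Z} {u : Z → ℝ} (h : IsMon T σ u)
    (h' : IsMon T' σ u) : T = T' := by
  refine LinearIsometryEquiv.ext fun ξ => lp.ext (funext fun z => ?_)
  exact (h ξ z).trans (h' ξ z).symm

theorem mul {T T' : EC Z ≃ₗᵢ[ℝ] EC Z} {σ σ' : Z → Z} {u u' : Z → ℝ} (h : IsMon T σ u)
    (h' : IsMon T' σ' u') : IsMon (T * T') (fun z => σ' (σ z)) fun z => u z + u' (σ z) := by
  intro ξ z
  have : (T * T') ξ = T (T' ξ) := rfl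
  rw [this, h, h', ← mul_assoc, ← Complex.exp_add]
  congr 2
  push_cast
  ring

end Mono

variable {C W : Type} [Fintype C] [AddCommGroup W] {Γ Γ' : Type} [Group Γ] [Group Γ']
  {gen : C × W → Γ} {gen' : C × W → Γ'} {pr : Γ' →* Γ} {X : AddSubgroup (Γ → C × Bool → W)}

theorem pr_lift (hp : ∀ s, pr (gen' s) = gen s) (r : FreeGroup (C × W)) :
    pr (FreeGroup.lift gen' r) = FreeGroup.lift gen r := by
  have : pr.comp (FreeGroup.lift gen') = FreeGroup.lift gen := by
    ext s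
    simp [hp]
  exact DFunLike.congr_fun this r

theorem val_add (a b : ZMod 2) : ∃ k : ℤ, ((a + b).val : ℝ) = a.val + b.val + 2 * k := by
  have : ∃ k : ℤ, ((a + b).val : ℤ) = a.val + b.val + 2 * k := by
    revert a b
    intro a b
    fin_cases a <;> fin_cases b
    · exact ⟨0, by decide⟩
    · exact ⟨0, by decide⟩
    · exact ⟨0, by decide⟩
    · exact ⟨-1, by decide⟩
  obtain ⟨k, hk⟩ := this
  exact ⟨k, by exact_mod_cast hk⟩

theorem left_mul (h : Cfg gen X) (h' : Cfg gen' (pull pr X)) (ω : X) (x y : Gg h') (z : Γ) :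
    (Multiplicative.toAdd (x * y).left).1 (pb h pr ω z) =
      (Multiplicative.toAdd x.left).1 (pb h pr ω z) +
        (Multiplicative.toAdd y.left).1 (pb h pr ω (z * pr x.right)) := by
  have e : sh h' x.right (pb h pr ω z) = pb h pr ω (z * pr x.right) := by
    ext g p
    simp [sh, pb, mul_assoc]
  rw [← e]
  rfl

/-- changing the word -/
theorem cocy_change {c : Γ → FreeGroup (C × W) → ℝ} (hc : Cocy gen c) (r r' : FreeGroup (C × W))
    (h1 : FreeGroup.lift gen (r * r'⁻¹) = 1) (z : Γ) : c z r = c z r' + c z (r * r'⁻¹) := by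
  have := hc.mul z (r * r'⁻¹) r'
  rw [h1, mul_one, inv_mul_cancel_right] at this
  rw [this, add_comm]

theorem cocy_bdd {c : Γ → FreeGroup (C × W) → ℝ} (hc : Cocy gen c) (r : FreeGroup (C × W)) :
    ∃ B : ℝ, 0 ≤ B ∧ ∀ z, |c z r| ≤ B := by
  obtain ⟨B, hB⟩ := ((hc.fin r 1 one_pos).image fun z => |c z r|).bddAbove
  refine ⟨max B 1, le_max_of_le_right zero_le_one, fun z => ?_⟩
  by_cases hz : 1 ≤ |c z r|
  · exact le_max_of_le_left (hB ⟨z, hz, rfl⟩)
  · exact le_max_of_le_right (not_le.1 hz).le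

/-- the phase of a product -/
theorem ph_mul (h : Cfg gen X) (h' : Cfg gen' (pull pr X)) (ω : X)
    {c : Γ → FreeGroup (C × W) → ℝ} (hc : Cocy gen c) (t : ℝ) (x y : Gg h')
    (r r' r'' : FreeGroup (C × W)) (hr : FreeGroup.lift gen r = pr x.right)
    (h1 : FreeGroup.lift gen (r * r' * r''⁻¹) = 1) (z : Γ) (j : ℤ)
    (hj : t * c z (r * r' * r''⁻¹) = 2 * j) :
    ∃ k : ℤ, ph h pr ω c t (Multiplicative.toAdd (x * y).left) r'' z =
      ph h pr ω c t (Multiplicative.toAdd x.left) r z +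
        ph h pr ω c t (Multiplicative.toAdd y.left) r' (z * pr x.right) + k * (2 * Real.pi) := by
  obtain ⟨k, hk⟩ := val_add ((Multiplicative.toAdd x.left).1 (pb h pr ω z))
    ((Multiplicative.toAdd y.left).1 (pb h pr ω (z * pr x.right)))
  refine ⟨k - j, ?_⟩
  have e1 := cocy_change hc (r * r') r'' h1 z
  have e2 := hc.mul z r r'
  rw [hr] at e2
  have e3 : t * c z r'' = t * c z r + t * c (z * pr x.right) r' - 2 * j := by
    rw [← hj, ← mul_add, ← e2, e1]
    ring
  simp only [ph, left_mul, hk, e3]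
  push_cast
  ring

end REP1

open REP1 in
theorem stREP1 (hMON : St_MON) (hHOL : St_HOL) : St_REP1 := by
  classical
  intro C W _ _ D θ Γ Γ' _ _ gen gen' pr M X h h' hT F
  obtain ⟨-, -, -, -, h5⟩ := hHOL C W D θ Γ gen M
  choose sec hsec using hT.surj
  have hl : ∀ g, FreeGroup.lift gen (sec g) = pr g := fun g => by
    rw [← pr_lift hT.pr_gen, hsec]
  have hk' : ∀ g g', FreeGroup.lift gen' (sec g * sec g' * (sec (g * g'))⁻¹) = 1 := fun g g' => by
    simp [hsec]
  have hk : ∀ g g', FreeGroup.lift gen (sec g * sec g' * (sec (g * g'))⁻¹) = 1 := fun g g' =>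
    ((hT.ker _).1 (hk' g g')).1
  choose n0 hn0 using fun g g' => h5 _ (hk g g')
  refine ⟨(F ×ˢ F).sup fun e => n0 e.1.right e.2.right, fun ω => ?_⟩
  set n := (F ×ˢ F).sup fun e => n0 e.1.right e.2.right with hn
  have hc := M.cocy n
  choose U hU using fun (x : Gg h') (t : ℝ) => (hMON Γ).1 (Equiv.mulRight (pr x.right))
    (ph h pr ω (M.c n) t (Multiplicative.toAdd x.left) (sec x.right))
  have hmul : ∀ (x y : Gg h') (t : ℝ),
      (∀ z, ∃ j : ℤ, t * M.c n z (sec x.right * sec y.right * (sec (x.right * y.right))⁻¹) = 2 * j) →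
      U (x * y) t = U x t * U y t := fun x y t hj => by
    have a := REP1.congr (REP1.mul (hU x t) (hU y t))
      (u' := ph h pr ω (M.c n) t (Multiplicative.toAdd (x * y).left) (sec (x * y).right))
      fun z => by
        obtain ⟨j, hj⟩ := hj z
        exact ph_mul h h' ω hc t x y _ _ _ (hl _) (hk _ _) z j hj
    refine uniq (hU (x * y) t) ?_
    convert a using 1
    funext z
    simp [mul_assoc]
  have hint : ∀ (m : ℤ) (r : FreeGroup (C × W)), FreeGroup.lift gen' r = 1 → ∀ z,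
      ∃ j : ℤ, (m : ℝ) * M.c n z r = 2 * j := fun m r hr z => by
    obtain ⟨k, hk⟩ := ((hT.ker r).1 hr).2 n z
    exact ⟨m * k, by rw [hk]; push_cast; ring⟩
  have hfl : ∀ (m : ℤ) (π : Gg h' →* (EC Γ ≃ₗᵢ[ℝ] EC Γ)), (∀ x, π x = U x m) →
      IsFl h h' ω (M.c n) m π := fun m π hπ x r hr => by
    have h1 : FreeGroup.lift gen' (r * (sec x.right)⁻¹) = 1 := by simp [hsec, hr]
    have a := REP1.congr (hU x m)
      (u' := ph h pr ω (M.c n) m (Multiplicative.toAdd x.left) r) fun z => by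
        obtain ⟨j, hj⟩ := hint m _ h1 z
        refine ⟨j, ?_⟩
        simp only [ph]
        rw [cocy_change hc r (sec x.right) ((hT.ker _).1 h1).1 z, mul_add (m : ℝ), hj]
        ring
    rw [hπ]
    convert a using 1
    funext z
    simp [← pr_lift hT.pr_gen, hr]
  let π : ℤ → Gg h' →* (EC Γ ≃ₗᵢ[ℝ] EC Γ) := fun m =>
    MonoidHom.mk' (fun x => U x m) fun x y => hmul x y m (hint m _ (hk' _ _))
  have hd : ∀ (x : Gg h') (t s : ℝ) (z : Γ),
      |ph h pr ω (M.c n) t (Multiplicative.toAdd x.left) (sec x.right) z -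
        ph h pr ω (M.c n) s (Multiplicative.toAdd x.left) (sec x.right) z| =
      Real.pi * |t - s| * |M.c n z (sec x.right)| := fun x t s z => by
    rw [← abs_of_pos Real.pi_pos, ← abs_mul, ← abs_mul]
    congr 1
    simp only [ph]
    ring
  refine ⟨π 0, π 1, U, by simpa using hfl 0 (π 0) fun _ => rfl,
    by simpa using hfl 1 (π 1) fun _ => rfl, fun g => by simp [π], fun g => by simp [π],
    fun g hg g' hg' t => hmul g g' t fun z => ⟨0, ?_⟩, fun g => ?_, fun g t => ?_⟩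
  · rw [hn0 g.right g'.right n
      (Finset.le_sup (f := fun e : Gg h' × Gg h' => n0 e.1.right e.2.right)
        (Finset.mk_mem_product hg hg')) z]
    simp
  · obtain ⟨B, hB0, hB⟩ := cocy_bdd hc (sec g.right)
    have hp : 0 ≤ Real.pi * B := mul_nonneg Real.pi_pos.le hB0
    refine (LipschitzWith.of_dist_le_mul (K := ⟨Real.pi * B, hp⟩) fun t s => ?_).continuous
    rw [dist_eq_norm, Real.dist_eq]
    refine ((hMON Γ).2 _ _ _ _ _ (hU g t) (hU g s)).1 _ (mul_nonneg hp (abs_nonneg _)) fun z => ?_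
    rw [hd]
    have := mul_le_mul_of_nonneg_left (hB z) (mul_nonneg Real.pi_pos.le (abs_nonneg (t - s)))
    calc _ ≤ Real.pi * |t - s| * B := this
      _ = Real.pi * B * |t - s| := by ring
  · refine ((hMON Γ).2 _ _ _ _ _ (hU g t) (hU g 0)).2 fun ε hε => ?_
    have hp : 0 < Real.pi * (|t - 0| + 1) := by positivity
    refine (hc.fin (sec g.right) (ε / (Real.pi * (|t - 0| + 1))) (div_pos hε hp)).subset
      fun z hz => ?_
    simp only [Set.mem_ofPred_eq, hd] at hz ⊢
    rw [div_le_iff₀ hp]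
    have := mul_nonneg Real.pi_pos.le (abs_nonneg (M.c n z (sec g.right)))
    nlinarith

end Pool.Agent.Lib.MZ
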