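import Pool.Agent.Lib.MZ.Blue

/-! Both ends of the path are weakly contained in the regular representation. -/

namespace Pool.Agent.Lib.MZ

open Pool.Agent.Lib.IT

namespace REP2

theorem finite_closure {G : Type} [Group G] (S : Subgroup G) (hS : ∀ g ∈ S, g * g = 1)
    (s : Finset G) (hs : ∀ g ∈ s, g ∈ S) : (Subgroup.closure (s : Set G) : Set G).Finite := by
  let H : Subgroup G := Subgroup.closure (s : Set G)
  have h1 : ∀ g : H, g * g = 1 := fun g =>
    Subtype.ext (hS g ((Subgroup.closure_le S).2 hs g.2))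
  have h2 : ∀ g : H, g⁻¹ = g := fun g => inv_eq_of_mul_eq_one_right (h1 g)
  letI : CommGroup H :=
    { (inferInstance : Group H) with
      mul_comm := fun a b => by rw [← h2 (a * b), mul_inv_rev, h2, h2] }
  have : Group.FG H := (Group.fg_iff_subgroup_fg H).2 ⟨_, rfl⟩
  have : Finite H := CommGroup.finite_of_fg_isMulTorsion H fun v =>
    isOfFinOrder_iff_pow_eq_one.2 ⟨2, two_pos, (pow_two v).trans (h1 v)⟩
  exact Set.toFinite (H : Set G)

end REP2

theorem stREP2 (hWC : St_WC) (hHOL : St_HOL) : St_REP2 := by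
  intro C W _ _ D θ Γ Γ' _ _ gen gen' pr M X h h' hT ω c t π hπ
  obtain ⟨-, -, -, H4, -⟩ := hHOL C W D θ Γ gen M
  have h1 : ∀ r, pr (FreeGroup.lift gen' r) = FreeGroup.lift gen r := fun r =>
    DFunLike.congr_fun (FreeGroup.ext_hom (pr.comp (FreeGroup.lift gen')) (FreeGroup.lift gen)
      fun s => by simp [hT.pr_gen]) r
  refine hWC (Gg h') Γ π (fun g z => z * pr g.right) (fun g => ph h pr ω c t
    (Multiplicative.toAdd g.left) (Function.surjInv hT.surj g.right)) 1 (fun g => ?_)
    (fun z => by simp) (fun g g' z => by simp [mul_assoc]) (fun z => ?_) fun s hs => ?_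
  · have := hπ g _ (Function.surjInv_eq hT.surj g.right)
    rwa [← h1, Function.surjInv_eq hT.surj] at this
  · obtain ⟨r, rfl⟩ := M.surj z
    exact ⟨SemidirectProduct.inr (FreeGroup.lift gen' r), by simp [h1]⟩
  · refine REP2.finite_closure (pr.comp SemidirectProduct.rightHom).ker (fun g hg => ?_) s
      fun g hg => (one_mul _).symm.trans (hs g hg)
    have hg' : pr g.right = 1 := hg
    refine SemidirectProduct.ext ?_ ?_
    · refine Multiplicative.toAdd.injective (Subtype.ext (AddMonoidHom.ext fun η => ?_))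
      have h2 : sh h' g.right η = η := by
        obtain ⟨η0, -, e⟩ := η.2
        refine Subtype.ext (funext fun x => ?_)
        change η.1 (g.right * x) = η.1 x
        rw [e]
        simp [hg']
      change (Multiplicative.toAdd g.left).1 η + (Multiplicative.toAdd g.left).1 (sh h' g.right η) = 0
      rw [h2]
      exact CharTwo.add_self_eq_zero _
    · obtain ⟨r, hr⟩ := hT.surj g.right
      have h2 : FreeGroup.lift gen r = 1 := by rw [← h1, hr, hg']
      change g.right * g.right = 1
      rw [← hr, ← map_mul]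
      refine (hT.ker _).2 ⟨by rw [map_mul, h2, mul_one], fun n z => ?_⟩
      obtain ⟨k, hk⟩ := H4 r h2 n z
      exact ⟨k, by rw [(M.cocy n).mul, h2, mul_one, hk, two_mul]⟩

end Pool.Agent.Lib.MZ
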