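import Pool.Agent.Lib.MZ.Blue
import Pool.Agent.Lib.MZ.Sign63

/-! Block SIGN. -/

namespace Pool.Agent.Lib.MZ

theorem stSIGN : St_SIGN := by
  classical
  intro C _ n π hC hn
  obtain ⟨θ, hθ⟩ := Sign63.sign hC n hn π
  refine ⟨θ, fun U s hU => ?_⟩
  convert hθ U s hU

end Pool.Agent.Lib.MZ
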