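import Mathlib

/-! A `ℤ/2` valued edge labelling that is far from all coboundaries on large vertex sets. -/

namespace Pool.Agent.Lib.MZ

open Finset

namespace Sign60

variable {E : Type} [Fintype E] [DecidableEq E]

theorem sum_weight (I : Finset E) (t : E → ZMod 2) :
    ∑ θ : E → ZMod 2, (1 / 2 : ℝ) ^ (I.filter fun e => θ e ≠ t e).card =
      2 ^ Fintype.card E * (3 / 4) ^ I.card := by
  have h1 : ∀ θ : E → ZMod 2, (1 / 2 : ℝ) ^ (I.filter fun e => θ e ≠ t e).card =
      ∏ e, if e ∈ I ∧ θ e ≠ t e then (1 / 2 : ℝ) else 1 := fun θ => by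
    rw [prod_ite, prod_const, prod_const_one, mul_one]
    congr 2
    ext e
    simp
  have h2 : ∀ e, (∑ x : ZMod 2, if e ∈ I ∧ x ≠ t e then (1 / 2 : ℝ) else 1) =
      2 * if e ∈ I then (3 / 4 : ℝ) else 1 := fun e => by
    rw [← add_sum_erase _ _ (mem_univ (t e)),
      sum_congr rfl (g := fun _ => if e ∈ I then (1 / 2 : ℝ) else 1) fun x hx => by
        simp [ne_of_mem_erase hx], sum_const, card_erase_of_mem (mem_univ _)]
    split_ifs <;> simp_all <;> norm_num
  simp only [h1]
  rw [← Fintype.piFinset_univ, ← prod_univ_sum (fun _ => (univ : Finset (ZMod 2)))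
    fun e x => if e ∈ I ∧ x ≠ t e then (1 / 2 : ℝ) else 1]
  simp only [h2]
  rw [prod_mul_distrib, prod_const, card_univ, prod_ite_mem, univ_inter, prod_const]

theorem card_bad (I : Finset E) (t : E → ZMod 2) (N : ℕ) :
    ((univ.filter fun θ : E → ZMod 2 => (I.filter fun e => θ e ≠ t e).card < N).card : ℝ) ≤
      2 ^ N * (2 ^ Fintype.card E * (3 / 4) ^ I.card) := by
  rw [← sum_weight I t, mul_sum, card_eq_sum_ones, Nat.cast_sum]
  refine (sum_le_sum fun θ hθ => ?_).trans
    (sum_le_sum_of_subset_of_nonneg (subset_univ _) fun _ _ _ => by positivity)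
  rw [Nat.cast_one, one_div, inv_pow, ← div_eq_mul_inv, one_le_div (by positivity)]
  exact pow_le_pow_right₀ one_le_two (mem_filter.1 hθ).2.le

end Sign60

open Sign60 in
theorem exists_sign {C A : Type} [Fintype C] [Fintype A] (π : C → Equiv.Perm A)
    (hC : Fintype.card C = 200) : ∃ θ : A × C → ZMod 2, ∀ (U : Finset A) (s : A → ZMod 2),
      3 * Fintype.card A ≤ 4 * U.card → Fintype.card A ≤
        {e : A × C | e.1 ∈ U ∧ π e.2 e.1 ∈ U ∧ θ e ≠ s e.1 + s (π e.2 e.1)}.ncard := by
  classical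
  rcases Nat.eq_zero_or_pos (Fintype.card A) with h0 | h0
  · exact ⟨0, fun _ _ _ => h0.le.trans (Nat.zero_le _)⟩
  let I : Finset A → Finset (A × C) := fun U => univ.filter fun e => e.1 ∈ U ∧ π e.2 e.1 ∈ U
  have hI : ∀ U : Finset A, 3 * Fintype.card A ≤ 4 * U.card →
      100 * Fintype.card A ≤ (I U).card := fun U hU => by
    have h1 : (I U)ᶜ ⊆ Uᶜ ×ˢ univ ∪ (Uᶜ ×ˢ univ).image fun e : A × C => ((π e.2).symm e.1, e.2) := by
      intro e he
      by_cases h : e.1 ∈ U
      · refine mem_union_right _ (mem_image.2 ⟨(π e.2 e.1, e.2), ?_, by simp⟩)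
        simpa [I, h] using he
      · exact mem_union_left _ (by simpa using h)
    have h2 := (card_le_card h1).trans ((card_union_le _ _).trans
      (Nat.add_le_add_left card_image_le _))
    have h3 := card_le_univ U
    have h4 := card_le_univ (I U)
    rw [card_compl, card_product, card_compl, card_univ, Fintype.card_prod, hC] at h2
    rw [Fintype.card_prod, hC] at h4
    omega
  by_contra hn
  push Not at hn
  let B : Finset A × (A → ZMod 2) → Finset (A × C → ZMod 2) := fun x =>
    univ.filter fun θ => ((I x.1).filter fun e => θ e ≠ x.2 e.1 + x.2 (π e.2 e.1)).card <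
      Fintype.card A
  let T : Finset (Finset A × (A → ZMod 2)) :=
    univ.filter fun x => 3 * Fintype.card A ≤ 4 * x.1.card
  have h1 : (univ : Finset (A × C → ZMod 2)) ⊆ T.biUnion B := fun θ _ => by
    obtain ⟨U, s, h1, h2⟩ := hn θ
    refine mem_biUnion.2 ⟨(U, s), mem_filter.2 ⟨mem_univ _, h1⟩, mem_filter.2 ⟨mem_univ _, ?_⟩⟩
    refine lt_of_eq_of_lt ?_ h2
    rw [← Set.ncard_coe_finset]
    congr 1
    ext e
    simp [I, and_assoc]
  have h2 : ((2 : ℝ) ^ Fintype.card (A × C)) ≤ T.card *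
      (2 ^ Fintype.card A * (2 ^ Fintype.card (A × C) * (3 / 4) ^ (100 * Fintype.card A))) := by
    have h3 := (card_le_card h1).trans card_biUnion_le
    rw [card_univ, Fintype.card_fun, ZMod.card] at h3
    rw [← nsmul_eq_mul]
    refine le_trans (b := ∑ x ∈ T, ((B x).card : ℝ)) (by exact_mod_cast h3)
      (sum_le_card_nsmul _ _ _ fun x hx => ?_)
    refine (card_bad _ _ _).trans ?_
    gcongr ?_ * (?_ * ?_)
    exact pow_le_pow_of_le_one (by norm_num) (by norm_num) (hI _ (mem_filter.1 hx).2)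
  have h4 : (T.card : ℝ) ≤ 2 ^ Fintype.card A * 2 ^ Fintype.card A := by
    have := card_le_univ T
    rw [Fintype.card_prod, Fintype.card_finset, Fintype.card_fun, ZMod.card] at this
    exact_mod_cast this
  have h5 : (2 * 2 * 2 * (3 / 4) ^ 100 : ℝ) ^ Fintype.card A < 1 :=
    pow_lt_one₀ (by positivity) (by norm_num) h0.ne'
  have h6 : (0 : ℝ) < 2 ^ Fintype.card (A × C) := by positivity
  have h7 := h2.trans (mul_le_mul_of_nonneg_right h4 (by positivity))
  rw [mul_pow, mul_pow, mul_pow, ← pow_mul] at h5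
  nlinarith

end Pool.Agent.Lib.MZ
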